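import Pool.Agent.H78.S.T8

/-!
# Row AUF of sgt_modules: definable groups of automorphisms of infinite definable fields are trivial
-/

set_option autoImplicit false

open Set Pool.Agent.H77.BC
open Pool.Agent.H77.KG (DFn_sval' DFn_smk D_sub R_sub ful_sub dgSub)

namespace Pool.Agent.H78.S

namespace AUF

theorem conn_sub {M : Type} {U : RU M} {G : Type} [Group G] [Cod M G] [DG U G] (N : Subgroup G)
    (h : Conn U N) : Conn U (⊤ : Subgroup N) := by
  have hf : Ful U N := ful_sub (p := fun x => x ∈ N) h.1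
  have hv : (Subtype.val '' ((⊤ : Subgroup N) : Set N) : Set G) = (N : Set G) := by
    ext x
    constructor
    · rintro ⟨y, -, rfl⟩
      exact y.2
    · intro hx
      exact ⟨⟨x, hx⟩, trivial, rfl⟩
  refine ⟨by rw [Subgroup.coe_top]; exact hf.full, fun L _ hL hr => ?_⟩
  have h3 := h.2 (L.map N.subtype) (Subgroup.map_subtype_le L)
    ((D_sub (p := fun x => x ∈ N) _).1 hL) (by
      have h4 := hr
      rw [R_sub (p := fun x => x ∈ N), R_sub (p := fun x => x ∈ N)] at h4
      rw [hv] at h4
      exact h4)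
  rw [eq_top_iff]
  intro x _
  have h4 : x.1 ∈ L.map N.subtype := by
    rw [h3]
    exact x.2
  obtain ⟨y, hy, hyx⟩ := h4
  have h5 : y = x := Subtype.ext hyx
  rwa [← h5]

theorem df_sub {M : Type} {U : RU M} {K : Type} [Field K] [Cod M K] [DF U K] (E : Subfield K)
    (hE : U.D (E : Set K)) : DF U E := by
  have hf : Ful U E := ful_sub (p := fun x => x ∈ E) hE
  have h0 : DFn U (fun x : E => x.1) := DFn_sval' (p := fun x => x ∈ E) hE
  have h1 : DFn U (fun z : E × E => z.1.1) := DFn_comp (g := fun x : E => x.1) h0 DFn_fst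
  have h2 : DFn U (fun z : E × E => z.2.1) := DFn_comp (g := fun x : E => x.1) h0 DFn_snd
  exact ⟨DFn_smk (p := fun x => x ∈ E) hE (DFn_add h1 h2),
    DFn_smk (p := fun x => x ∈ E) hE (DFn_mul h1 h2)⟩

end AUF

theorem pf_AUF (kAUT : Pool.Agent.H77.KG.T_AUT) (kCCE : Pool.Agent.H77.KG.T_CCE)
    (hMAC : T_MAC) : T_AUF := by
  intro M U K G _ _ _ _ _ _ _ α hα
  obtain ⟨c1, -, -, c4, -, -⟩ := kCCE U (⊤ : Subgroup G) (by rw [Subgroup.coe_top]; exact Ful.full)
  set N := Pool.Agent.H77.KG.cc U (⊤ : Subgroup G) with hNdef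
  have iN : DG U N := dgSub N c1.1
  have hN : ∀ g ∈ N, ∀ x, α g x = x := by
    have h1 := kAUT U (K := K) (G := N) (α.comp N.subtype)
      (DFn_comp (g := fun p : G × K => α p.1 p.2) (f := fun p : N × K => ((p.1 : G), p.2)) hα
        (DFn_pair (DFn_comp (g := fun x : N => x.1) (DFn_sval' (p := fun x => x ∈ N) c1.1) DFn_fst)
          DFn_snd)) (AUF.conn_sub N c1)
    intro g hg x
    exact h1 ⟨g, hg⟩ x
  have hfin : Finite (G ⧸ N) := by
    rw [Subgroup.relIndex_top_right] at c4
    exact Nat.finite_of_card_ne_zero c4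
  have hA : Finite α.range := by
    have h1 : (range fun q : G ⧸ N => α q.out).Finite := Set.finite_range _
    refine (h1.subset ?_).to_subtype
    rintro _ ⟨g, rfl⟩
    refine ⟨(g : G ⧸ N), ?_⟩
    have h2 : g⁻¹ * (g : G ⧸ N).out ∈ N := QuotientGroup.eq.1 (QuotientGroup.out_eq' (g : G ⧸ N)).symm
    refine RingEquiv.ext fun x => ?_
    have h3 : (g : G ⧸ N).out = g * (g⁻¹ * (g : G ⧸ N).out) := by group
    show α ((g : G ⧸ N).out) x = α g x
    rw [h3, map_mul]
    exact congrArg (α g) (hN _ h2 x)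
  let E : Subfield K := FixedPoints.subfield α.range K
  have hmem : ∀ x : K, x ∈ E ↔ ∀ g, α g x = x := by
    intro x
    constructor
    · intro h g
      exact h ⟨α g, g, rfl⟩
    · rintro h ⟨_, g, rfl⟩
      exact h g
  have hED : U.D (E : Set K) := by
    have h : U.D {x : K | ∀ g : G, α g x = x} :=
      D_forall (p := fun (x : K) (g : G) => α g x = x)
        (D_eqf (DFn_comp (g := fun p : G × K => α p.1 p.2) (f := fun p : K × G => (p.2, p.1)) hα
          DFn_swap) DFn_fst)
    have e : (E : Set K) = {x : K | ∀ g : G, α g x = x} := by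
      ext x
      exact hmem x
    rwa [e]
  have hfd : FiniteDimensional E K := inferInstanceAs (FiniteDimensional (FixedPoints.subfield α.range K) K)
  have hEi : Infinite E := by
    by_contra h
    rw [not_infinite_iff_finite] at h
    have := Module.finite_of_finite E (M := K)
    exact not_finite K
  have hEd : DF U E := AUF.df_sub E hED
  have hcl : IsAlgClosed E := hMAC U E
  have hint : Algebra.IsIntegral E K := inferInstance
  have hsur := (IsAlgClosed.algebraMap_bijective_of_isIntegral (k := E) (K := K)).2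
  intro g x
  obtain ⟨y, rfl⟩ := hsur x
  exact (hmem _).1 y.2 g

end Pool.Agent.H78.S
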