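import Pool.Agent.H78.S.Rows

/-!
# Theorem S (MP_9d0bb7_lc): the closed targets from the rows
-/

set_option autoImplicit false

open Set Pool.Agent.H77.BC

namespace Pool.Agent.H78.S

theorem itg (h1 : T_ITP) (h2 : T_ITV) (h3 : T_ITW) : T_ITG := by
  intro M U Γ _ _ _ H A B cH cA cB hAH hBH aA aB hr
  obtain ⟨p1, p2⟩ := h1 U H A B cH cA cB hAH hBH hr
  have hr' : U.R (H : Set Γ) + U.R ((B ⊓ A : Subgroup Γ) : Set Γ) ≤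
      U.R (B : Set Γ) + U.R (A : Set Γ) := by
    rw [inf_comm]
    omega
  obtain ⟨q1, q2⟩ := h1 U H B A cH cB cA hBH hAH hr'
  obtain ⟨V, v1, v2, v3, v4, v5, v6⟩ := h2 U H A B cH cA cB hAH hBH aA aB p1
  exact ⟨V, v1, v2, h3 U H A B V cH cA cB hAH hBH aA aB (fun Z hZ => ⟨p2 Z hZ, q2 Z hZ⟩) p1 q1 v2
    v5 v6, v3, v4⟩

theorem clo (R : Rows) : Clo := by
  have cFGB : T_FGB := R.FGB
  have cFGA : T_FGA := R.FGA cFGB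
  have cNUM : T_NUM := R.NUM
  have cINV : T_INV := R.INV
  have cHFI : T_HFI := R.HFI
  have cBRA : T_BRA := R.BRA
  have cAGN : T_AGN := R.AGN
  have cAGA : T_AGA := R.AGA cAGN
  have cTRS : T_TRS := R.TRS
  have cTRJ : T_TRJ := R.TRJ
  have cSOL : T_SOL := R.SOL
  have cBGA : T_BGA := R.BGA
  have cIRP : T_IRP := R.IRP cBGA
  have cIRI : T_IRI := R.IRI cBGA
  have cIRG : T_IRG := R.IRG cBGA
  have cFPW : T_FPW := R.FPW cIRP cIRI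
  have cCCA : T_CCA := R.CCA
  have cCCB : T_CCB := R.CCB cCCA
  have cCCJ : T_CCJ := R.CCJ
  have cCFN : T_CFN := R.CFN
  have cCFI : T_CFI := R.CFI
  have cORB : T_ORB := R.ORB cBGA cIRI cIRG
  have cORM : T_ORM := R.ORM
  have cSTD : T_STD := R.STD
  have cIDX : T_IDX := R.IDX
  have cITP : T_ITP := R.ITP cBGA cIRG cIRP
  have cITV : T_ITV := R.ITV cBGA cIRG cIRP
  have cITW : T_ITW := R.ITW cBGA cIRG cIRP
  have cITG : T_ITG := itg cITP cITV cITW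
  have cRNK : T_RNK := R.RNK cFPW cIRI cORB cSTD cBGA
  have cGEN : T_GEN := R.GEN cRNK cSTD cORB
  have cZER : T_ZER := R.ZER cBGA cIRP cCCA cCCJ cCFN cORB cORM cIRG
  have cHIJ : T_HIJ := R.HIJ cRNK cGEN cCCA cCCB cSTD cORB cBGA
  have cHIC : T_HIC := R.HIC cHIJ cZER cORB
  have cSWP : T_SWP := R.SWP cHIJ cRNK cIRP cBGA cORB cSTD
  have cSYM : T_SYM := R.SYM cSWP
  have cCJH : T_CJH := R.CJH cCCJ cSTD cORM
  have cCTB : T_CTB := R.CTB cORB cCCA cBGA cORM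
  have cLNK : T_LNK := R.LNK cCTB cSTD
  have cLNU : T_LNU := R.LNU cCTB
  have cLMV : T_LMV := R.LMV cORM
  have cIN1 : T_IN1 := R.IN1 cCTB cLNK cAGA
  have cIN2 : T_IN2 := R.IN2 cCTB cLNK cBGA cIDX cORB cORM
  have cINC : T_INC := R.INC cIN1 cIN2 cCTB cLNK
  have cLRK : T_LRK := R.LRK cINC cCTB cLNK cIDX
  have cLFI : T_LFI := R.LFI cLRK cINC cCTB cLNK
  have cLCJ : T_LCJ := R.LCJ cCJH cLMV cLNU cHIC
  have cP21 : T_P21 := R.P21 cLCJ cLFI cLNK cCTB cHIC cCJH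
  have cNTT : T_NTT := R.NTT cCTB cLNK cHIC cHIJ cSWP cCJH cBGA cORM cRNK
  have cLAB : T_LAB := R.LAB cLFI cLNK cLCJ cCJH cHIC cCTB
  have cRHO : T_RHO := R.RHO cLAB cSYM cLFI cLRK cLNK cLCJ cHIC cHIJ
  have cP24 : T_P24 := R.P24 cP21 cLAB cCFI cCCA cCCB cCCJ cHIJ cCJH
  have cCAS : T_CAS := R.CAS cP24 cFGA cSYM cLCJ cLFI cHIC cHIJ
  have cP27 : T_P27 := R.P27 cP21 cNTT cSYM cLCJ cLFI cHIC
  have cTAB : T_TAB := R.TAB cLAB cZER cHIJ cCCA cCCB cCFN cBGA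
  have cCTI : T_CTI := R.CTI cITG cCTB cORM
  have cABV : T_ABV := R.ABV cITG cSOL cHIJ cCJH cSYM
  have cREG : T_REG := R.REG cCTB cBGA cORM cORB cCCA
  have cRGX : T_RGX := R.RGX
  have cRGV : T_RGV := R.RGV cRGX cCTB cIRG cBGA cORM
  have cIDA : T_IDA := R.IDA cCTB
  have cIDB : T_IDB := R.IDB
  have cIDE : T_IDE := R.IDE cIDA cIDB
  have cULF : T_ULF := R.ULF
  have cMXL : T_MXL := R.MXL cIDE cCTB cULF
  have cLIM : T_LIM := R.LIM cCTB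
  have cRIN : T_RIN := R.RIN cCTI cREG cRGV cIDE cMXL cLIM cCTB cLNK
  have cTQB : T_TQB := R.TQB cCTI cREG cRGV cIDE cMXL cTRJ cCTB
  have cN26 : T_N26 := R.N26 cTRS cLAB cLNK cLFI cHIC cHIJ cCTB cIDX
  have cCOO : T_COO := R.COO cINC cHIC cCTB cLNK
  have cFAI : T_FAI := R.FAI cP21 cHIC
  have cOMG : T_OMG := R.OMG cFAI cSYM cSWP cLCJ cHIJ cHIC
  have cTEK : T_TEK := R.TEK cCOO cLNK cHIC cHIJ cCTB cLRK cIDX
  have cDIC : T_DIC := R.DIC cCOO cTEK cLCJ cCJH cHIC cLNK cCTB cLRK cIRG cBGA cSYM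
  have cSHK : T_SHK := R.SHK cDIC cTEK cLCJ
  have cSPA : T_SPA := R.SPA cFAI cCOO cLNK cLCJ cCJH cHIC cCTB cSYM cTEK
  have cSPB : T_SPB := R.SPB cSPA cP21 cNTT cFAI cLCJ cLFI cHIC cSYM
  have cKAP : T_KAP := R.KAP cSHK cSPB cLCJ cSYM cTEK
  have cTIJ : T_TIJ := R.TIJ cDIC cTEK cLCJ cCJH
  have cPHA : T_PHA := R.PHA cCOO cTEK cTIJ cLNK cCJH cHIC cCTB cIRG cBGA
  have cPHI : T_PHI := R.PHI cCOO cTEK cTIJ cLNK cCJH cHIC cCTB cIRG cBGA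
  have cFUN : T_FUN := R.FUN cPHA cINV cPHI cHFI cHIC cLNK
  have cSW2 : T_SW2 := R.SW2 cP21 cLCJ cLNU cCOO cBRA cCJH cHIC cLNK
  have cCRD : T_CRD := R.CRD cKAP cFUN cSW2 cCOO cLNK cHIC cCJH
  have cPRD : T_PRD := R.PRD cRNK cCJH cSYM cHIJ
  have cGMA : T_GMA := R.GMA cRNK cBGA cORM cHIC
  have cGMG : T_GMG := R.GMG cGMA cHIC cHIJ cSYM
  have cHYP : T_HYP := R.HYP cGMA cGMG cRNK cBGA cORM cHIC
  have cGMB : T_GMB := R.GMB cHYP cBGA cRNK cZER cGMA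
  have cGMT : T_GMT := R.GMT cPRD cGMG cGMA cCJH cIRG
  have cPSI : T_PSI := R.PSI
  exact ⟨cFGB, cFGA, cNUM, cINV, cHFI, cBRA, cAGN, cAGA, cTRS, cTRJ, cSOL, cBGA, cIRP, cIRI,
    cIRG, cFPW, cCCA, cCCB, cCCJ, cCFN, cCFI, cORB, cORM, cSTD, cIDX, cITP, cITV, cITW, cRNK,
    cGEN, cZER, cHIJ, cHIC, cSWP, cSYM, cCJH, cCTB, cLNK, cLNU, cLMV, cIN1, cIN2, cINC, cLRK,
    cLFI, cLCJ, cP21, cNTT, cLAB, cRHO, cP24, cCAS, cP27, cTAB, cCTI, cABV, cREG, cRGX, cRGV,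
    cIDA, cIDB, cIDE, cULF, cMXL, cLIM, cRIN, cTQB, cN26, cCOO, cFAI, cOMG, cTEK, cDIC, cSHK,
    cSPA, cSPB, cKAP, cTIJ, cPHA, cPHI, cFUN, cSW2, cCRD, cPRD, cGMA, cGMG, cHYP, cGMB, cGMT,
    cPSI, cITG⟩

end Pool.Agent.H78.S
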