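import Pool.Agent.H78.S.Targets

/-!
# Theorem S (MP_9d0bb7_lc): row P24
-/

set_option autoImplicit false

open Set Pool.Agent.H77.BC
open scoped Pointwise

namespace Pool.Agent.H78.S

theorem relIndex_ne_of_map {Γ Q : Type} [Group Γ] [Finite Q] (H C : Subgroup Γ) (f : Γ → Q)
    (hf : ∀ a ∈ H, ∀ b ∈ H, f a = f b → a⁻¹ * b ∈ C) : C.relIndex H ≠ 0 := by
  have hfin : Finite (H ⧸ C.subgroupOf H) := by
    refine Finite.of_injective (fun q : H ⧸ C.subgroupOf H => f (q.out : Γ)) ?_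
    intro q1 q2 h12
    have h1 := hf _ (q1.out).2 _ (q2.out).2 h12
    rw [← QuotientGroup.out_eq' q1, ← QuotientGroup.out_eq' q2, QuotientGroup.eq]
    exact h1
  unfold Subgroup.relIndex Subgroup.index
  exact Nat.card_pos.ne'

theorem pf_P24 (hP21 : T_P21) (hLAB : T_LAB) (hCFI : T_CFI) (hCCA : T_CCA) (hCCB : T_CCB)
    (hCCJ : T_CCJ) (hHIJ : T_HIJ) (hCJH : T_CJH) : T_P24 := by
  intro M U G S _ _ _ _ n x hF hI J hJ0 hJr p τ hp hτ0 hτJ hpk l hl E hE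
  have _ := hF.dg
  have _ := hF.ful
  obtain ⟨-, hTc, -⟩ := hHIJ U x hF 0 1 (by simp)
  have h0C : (0 : Fin (n + 2)) ∉ ({0}ᶜ : Set (Fin (n + 2))) := fun h => h rfl
  obtain ⟨aD, aT, aN, aC, -, aK, -, -, aJ⟩ := hLAB U x hF {0}ᶜ h0C
  obtain ⟨bD, bT, bN, bC, -, bK, bm, -, -⟩ := hLAB U x hF J hJ0
  have hJC : J ⊆ {0}ᶜ := fun i hi h => hJ0 (by rwa [← show i = 0 from h])
  have hLL : lam U G x {0}ᶜ ≤ lam U G x J := bm _ hJC
  obtain ⟨c1, c2, c3, c4⟩ := hCCA U (lam U G x {0}ᶜ) aD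
  obtain ⟨d1, d2, d3, d4⟩ := hCCA U (lam U G x J) bD
  have hL0 : cc U (lam U G x {0}ᶜ) = cc U (lam U G x J) :=
    (hCCB U (lam U G x J) (cc U (lam U G x {0}ᶜ)) bD c2 (c1.trans hLL)).2 (by omega)
  set Lm := lam U G x {0}ᶜ with hLm
  set LJ := lam U G x J with hLJ
  set T := TT U G x 0 with hT
  set L0 := cc U Lm with hL0def
  have hcjT : cj p⁻¹ T = T := by
    have := (hCJH U x hF p τ hp).2.1 0
    rwa [hτ0] at this
  have hpT : ∀ t ∈ T, p * t * p⁻¹ ∈ T := by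
    intro t ht
    rw [← hcjT, mem_cj]
    have : p⁻¹ * (p * t * p⁻¹) * p⁻¹⁻¹ = t := by group
    rwa [this]
  have hpT' : ∀ t ∈ T, p⁻¹ * t * p ∈ T := by
    intro t ht
    rw [← hcjT, mem_cj, inv_inv] at ht
    exact ht
  -- the component is normalised by `T` and `p`
  have hcj1 : ∀ g : G, cj g Lm = Lm → ∀ l ∈ L0, g * l * g⁻¹ ∈ L0 := by
    intro g hg l hl
    have h1 := hCCJ U g Lm aD
    rw [hg] at h1
    have h2 : l ∈ cj g L0 := by rwa [← h1]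
    exact h2
  have hLmT : ∀ t ∈ T, cj t Lm = Lm := by
    intro t ht
    ext y
    rw [mem_cj]
    constructor
    · intro hy
      have h1 := aN t⁻¹ (T.inv_mem ht) _ hy
      have h2 : t⁻¹ * (t * y * t⁻¹) * t⁻¹⁻¹ = y := by group
      rwa [h2] at h1
    · exact fun hy => aN t ht y hy
  have hNT : ∀ t ∈ T, ∀ l ∈ L0, t * l * t⁻¹ ∈ L0 := fun t ht => hcj1 t (hLmT t ht)
  -- T acts trivially on Lm / L0
  have hfQ : Finite (Lm ⧸ L0.subgroupOf Lm) := by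
    have h1 : (L0.subgroupOf Lm).index ≠ 0 := c3
    exact Nat.finite_of_card_ne_zero h1
  have s1 : ∀ l ∈ Lm, ∀ t ∈ T, t * l * t⁻¹ * l⁻¹ ∈ L0 := by
    intro l hl
    let C : Subgroup G :=
      { carrier := {t | t ∈ T ∧ t * l * t⁻¹ * l⁻¹ ∈ L0}
        one_mem' := ⟨T.one_mem, by
          have : (1 : G) * l * 1⁻¹ * l⁻¹ = 1 := by group
          rw [this]
          exact L0.one_mem⟩
        mul_mem' := by
          rintro a b ⟨ha, ha'⟩ ⟨hb, hb'⟩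
          refine ⟨T.mul_mem ha hb, ?_⟩
          have h1 := L0.mul_mem (hNT a ha _ hb') ha'
          have h2 : a * (b * l * b⁻¹ * l⁻¹) * a⁻¹ * (a * l * a⁻¹ * l⁻¹) =
              a * b * l * (a * b)⁻¹ * l⁻¹ := by group
          rwa [h2] at h1
        inv_mem' := by
          rintro a ⟨ha, ha'⟩
          refine ⟨T.inv_mem ha, ?_⟩
          have h1 := L0.inv_mem (hNT a⁻¹ (T.inv_mem ha) _ ha')
          have h2 : (a⁻¹ * (a * l * a⁻¹ * l⁻¹) * a⁻¹⁻¹)⁻¹ = a⁻¹ * l * a⁻¹⁻¹ * l⁻¹ := by group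
          rwa [h2] at h1 }
    have hCT : C ≤ T := fun t ht => ht.1
    have hCD : U.D (C : Set G) := by
      have h1 : DFn U (fun t : G => t * l * t⁻¹ * l⁻¹) :=
        DFn_gmul (DFn_gmul (DFn_gmul DFn_id (DFn_const l)) (DFn_ginv DFn_id)) (DFn_const l⁻¹)
      exact D_and hTc.1 (D_subst c2.1 h1)
    have hmem : ∀ t ∈ T, t * l * t⁻¹ ∈ Lm := fun t ht => aN t ht l hl
    classical
    have hrel : C.relIndex T ≠ 0 := by
      refine relIndex_ne_of_map T C (fun t : G => if h : t ∈ T then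
        ((⟨t * l * t⁻¹, hmem t h⟩ : Lm) : Lm ⧸ L0.subgroupOf Lm) else ((1 : Lm) :
          Lm ⧸ L0.subgroupOf Lm)) ?_
      intro a ha b hb hab
      simp only [ha, hb, dif_pos] at hab
      rw [QuotientGroup.eq] at hab
      have h1 : (a * l * a⁻¹)⁻¹ * (b * l * b⁻¹) ∈ L0 := hab
      refine ⟨T.mul_mem (T.inv_mem ha) hb, ?_⟩
      have h2 := hNT a⁻¹ (T.inv_mem ha) _ h1
      have h3 := hNT l (aT hl) _ h2
      have h4 : l * (a⁻¹ * ((a * l * a⁻¹)⁻¹ * (b * l * b⁻¹)) * a⁻¹⁻¹) * l⁻¹ =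
          (a⁻¹ * b) * l * (a⁻¹ * b)⁻¹ * l⁻¹ := by group
      rwa [h4] at h3
    have hCeq : C = T := hTc.2 C hCT hCD ((l_GRA U T C hTc.1 hCD hCT).1 hrel)
    intro t ht
    have : t ∈ C := by rwa [hCeq]
    exact this.2
  -- T / L0 is commutative
  have s2 : ∀ a ∈ T, ∀ t ∈ T, t * a * t⁻¹ * a⁻¹ ∈ L0 := by
    intro a ha
    have hD : DFn U (fun t : G => t * a * t⁻¹ * a⁻¹) :=
      DFn_gmul (DFn_gmul (DFn_gmul DFn_id (DFn_const a)) (DFn_ginv DFn_id)) (DFn_const a⁻¹)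
    refine hCFI U T L0 Lm (fun t => t * a * t⁻¹ * a⁻¹) hTc hD c2.1 c1 c3
      (fun b hb l hl => hNT b (aT hb) l hl) (fun h hh => aC h hh a ha) ?_
    intro g hg h hh
    have hτg : g * a * g⁻¹ * a⁻¹ ∈ Lm := aC g hg a ha
    have hτh : h * a * h⁻¹ * a⁻¹ ∈ Lm := aC h hh a ha
    set u := g * a * g⁻¹ * a⁻¹ with hu
    set v := h * a * h⁻¹ * a⁻¹ with hv
    have h1 : g * v * g⁻¹ * v⁻¹ ∈ L0 := s1 v hτh g hg
    have h2 : v⁻¹ * u⁻¹ * v⁻¹⁻¹ * u⁻¹⁻¹ ∈ L0 :=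
      s1 u⁻¹ (Lm.inv_mem hτg) v⁻¹ (aT (Lm.inv_mem hτh))
    have h3 := hNT (v⁻¹ * u⁻¹) (T.mul_mem (aT (Lm.inv_mem hτh)) (aT (Lm.inv_mem hτg))) _ h1
    have h4 := L0.mul_mem h3 h2
    have h5 : (v⁻¹ * u⁻¹) * (g * v * g⁻¹ * v⁻¹) * (v⁻¹ * u⁻¹)⁻¹ * (v⁻¹ * u⁻¹ * v⁻¹⁻¹ * u⁻¹⁻¹) =
        (u * v)⁻¹ * (g * h * a * (g * h)⁻¹ * a⁻¹) := by
      rw [hu, hv]
      group
    rwa [h5] at h4
  -- p
  have s3 : ∀ t ∈ T, p * t * p⁻¹ * t⁻¹ ∈ LJ := by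
    intro t ht
    have h1 : p * t * p⁻¹ * t⁻¹ ∈ T := T.mul_mem (hpT t ht) (T.inv_mem ht)
    rw [hLJ]
    unfold lam
    refine Subgroup.mem_inf.2 ⟨h1, ?_⟩
    simp only [Subgroup.mem_iInf]
    intro i hi F hF'
    have hi0 : i ≠ 0 := fun h => hJ0 (by rwa [← h])
    exact ((hP21 U x hF hI p τ hp hτ0 i hi0 (hτJ i hi) F hF' (hpk i hi F hF')).2.2 t ht).2
  have hL0J : L0.relIndex LJ ≠ 0 := by
    rw [hL0]
    exact d3
  have s4 : ∀ t ∈ T, p * t * p⁻¹ * t⁻¹ ∈ L0 := by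
    have hD : DFn U (fun t : G => p * t * p⁻¹ * t⁻¹) :=
      DFn_gmul (DFn_gmul (DFn_gmul (DFn_const p) DFn_id) (DFn_const p⁻¹)) (DFn_ginv DFn_id)
    refine hCFI U T L0 LJ (fun t => p * t * p⁻¹ * t⁻¹) hTc hD c2.1 (c1.trans hLL) hL0J
      (fun b hb l hl => hNT b (bT hb) l hl) s3 ?_
    intro g hg h hh
    have hτh : p * h * p⁻¹ * h⁻¹ ∈ T := bT (s3 h hh)
    have h1 := s2 g hg (p * h * p⁻¹ * h⁻¹)⁻¹ (T.inv_mem hτh)
    have h2 : (p * h * p⁻¹ * h⁻¹)⁻¹ * g * (p * h * p⁻¹ * h⁻¹)⁻¹⁻¹ * g⁻¹ =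
        (p * g * p⁻¹ * g⁻¹ * (p * h * p⁻¹ * h⁻¹))⁻¹ * (p * (g * h) * p⁻¹ * (g * h)⁻¹) := by
      group
    rwa [h2] at h1
  -- conclusion
  have hLmk : Lm ≤ kap T E := aK l (fun h => hl h) E hE
  have hL0k : L0 ≤ kap T E := c1.trans hLmk
  have hkT : kap T E ≤ T := inf_le_left
  ext y
  rw [mem_cj, inv_inv]
  constructor
  · intro hy
    have h1 := hL0k (s4 _ (hkT hy))
    have h2 := (kap T E).mul_mem h1 hy
    have h3 : p * (p⁻¹ * y * p) * p⁻¹ * (p⁻¹ * y * p)⁻¹ * (p⁻¹ * y * p) = y := by group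
    rwa [h3] at h2
  · intro hy
    have h1 := hL0k (s4 _ (hpT' y (hkT hy)))
    have h2 := (kap T E).mul_mem ((kap T E).inv_mem h1) hy
    have h3 : (p * (p⁻¹ * y * p) * p⁻¹ * (p⁻¹ * y * p)⁻¹)⁻¹ * y = p⁻¹ * y * p := by group
    rwa [h3] at h2

end Pool.Agent.H78.S
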