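import Pool.Agent.H78.S.Targets

/-!
# Theorem S (MP_9d0bb7_lc): row TIJ
-/

set_option autoImplicit false

open Set Pool.Agent.H77.BC
open scoped Pointwise

namespace Pool.Agent.H78.S

theorem pf_TIJ (hDIC : T_DIC) (hTEK : T_TEK) (hLCJ : T_LCJ) (hCJH : T_CJH) : T_TIJ := by
  intro M U G S _ _ _ _ n x hF hN ω hω E hE
  have _ := hF.dg
  have _ := hF.ful
  -- kernels
  have hk : ∀ (g : G) (σ : Equiv.Perm (Fin (n + 2))), Pm x g σ → σ 0 = 0 → ∀ i j, i ≠ 0 → j ≠ 0 →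
      i ≠ j → cj g⁻¹ (kap (TT U G x 0) (E i j)) = kap (TT U G x 0) (E (σ i) (σ j)) := by
    intro g σ hg hσ i j hi hj hij
    obtain ⟨-, h2, -⟩ := hLCJ U x hF g σ hg hσ i hi (E i j) (hE.mem i j hi hj hij)
    rw [← h2, hE.cjg g σ hg hσ i j hi hj hij]
  have hne : ∀ (σ : Equiv.Perm (Fin (n + 2))), σ 0 = 0 → ∀ i, i ≠ 0 → σ i ≠ 0 := by
    intro σ hσ i hi h
    exact hi (σ.injective (h.trans hσ.symm))
  have hT : ∀ (g : G) (σ : Equiv.Perm (Fin (n + 2))), Pm x g σ → σ 0 = 0 → ∀ i j, i ≠ 0 → j ≠ 0 →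
      i ≠ j → cj g⁻¹ (TE U G x i (E i j)) = TE U G x (σ i) (E (σ i) (σ j)) := by
    intro g σ hg hσ i j hi hj hij
    have hTT : cj g⁻¹ (TT U G x 0) = TT U G x 0 := by
      have := (hCJH U x hF g σ hg).2.1 0
      rwa [hσ] at this
    ext y
    rw [mem_cj]
    unfold TE
    simp only [Subgroup.mem_inf, Subgroup.mem_iInf, mem_diff, mem_singleton_iff]
    have h1 : g⁻¹ * y * g⁻¹⁻¹ ∈ TT U G x 0 ↔ y ∈ TT U G x 0 := by
      conv_rhs => rw [← hTT]
      rw [mem_cj]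
    rw [h1]
    constructor
    · rintro ⟨ha, hb⟩
      refine ⟨ha, ?_⟩
      rintro F ⟨hF1, hF2⟩
      obtain ⟨m, hm0, hm1, rfl⟩ := hE.all (σ i) (hne σ hσ i hi) F hF1
      have hm' : σ (σ.symm m) = m := σ.apply_symm_apply m
      have h2 : σ.symm m ≠ 0 := fun h => hm0 (by rw [← hm', h, hσ])
      have h3 : i ≠ σ.symm m := fun h => hm1 (by rw [h, hm'])
      have h4 : σ.symm m ≠ j := fun h => hF2 (by rw [← h, hm'])
      have h5 := hb (E i (σ.symm m)) ⟨hE.mem i _ hi h2 h3, fun h =>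
        h4 (hE.inj i _ j hi h2 hj h3 hij h)⟩
      have h6 := hk g σ hg hσ i (σ.symm m) hi h2 h3
      rw [hm'] at h6
      rw [← h6, mem_cj]
      exact h5
    · rintro ⟨ha, hb⟩
      refine ⟨ha, ?_⟩
      rintro F ⟨hF1, hF2⟩
      obtain ⟨m, hm0, hm1, rfl⟩ := hE.all i hi F hF1
      have h4 : m ≠ j := fun h => hF2 (by rw [h])
      have h7 : σ i ≠ σ m := fun h => hm1 (σ.injective h)
      have h5 := hb (E (σ i) (σ m)) ⟨hE.mem _ _ (hne σ hσ i hi) (hne σ hσ m hm0) h7, fun h =>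
        h4 (σ.injective (hE.inj (σ i) (σ m) (σ j) (hne σ hσ i hi) (hne σ hσ m hm0)
          (hne σ hσ j hj) h7 (fun h => hij (σ.injective h)) h))⟩
      rw [← hk g σ hg hσ i m hi hm0 hm1, mem_cj] at h5
      exact h5
  refine ⟨?_, fun g σ hg hσ i j hi hj hij => ⟨hT g σ hg hσ i j hi hj hij,
    hk g σ hg hσ i j hi hj hij⟩⟩
  -- equivariance
  have heq : ∀ (σ : Equiv.Perm (Fin (n + 2))), σ 0 = 0 → ∀ a b c d, a ≠ 0 → b ≠ 0 → a ≠ b →
      c ≠ 0 → d ≠ 0 → c ≠ d → TE U G x a (E a b) = TE U G x c (E c d) →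
      TE U G x (σ a) (E (σ a) (σ b)) = TE U G x (σ c) (E (σ c) (σ d)) := by
    intro σ hσ a b c d ha hb hab hc hd hcd h
    rw [← hT (ω σ) σ (hω.pm σ) hσ a b ha hb hab, ← hT (ω σ) σ (hω.pm σ) hσ c d hc hd hcd, h]
  have hle : ∀ a b c, a ≠ 0 → b ≠ 0 → c ≠ 0 → a ≠ b → a ≠ c → b ≠ c →
      TE U G x a (E a b) ≤ kap (TT U G x 0) (E a c) := by
    intro a b c ha hb hc hab hac hbc
    refine (hTEK U x hF hN a ha).2.1 (E a c) (hE.mem a c ha hc hac) (E a b)
      (hE.mem a b ha hb hab) ?_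
    intro h
    exact hbc (hE.inj a c b ha hc hb hac hab h).symm
  have hnle : ∀ a b, a ≠ 0 → b ≠ 0 → a ≠ b →
      ¬ TE U G x a (E a b) ≤ kap (TT U G x 0) (E a b) := by
    intro a b ha hb hab hle'
    obtain ⟨h1, h2, -, -, h5, -⟩ := (hTEK U x hF hN a ha).1 (E a b) (hE.mem a b ha hb hab)
    have h3 : TE U G x a (E a b) = ⊥ := by
      rw [← h5]
      exact (inf_eq_left.2 hle').symm
    have h4 := ((l_RKA U).fin h1 ⟨1, Subgroup.one_mem _⟩).2 (by
      rw [h3, Subgroup.coe_bot]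
      exact finite_singleton _)
    omega
  have huni : ∀ a b c, a ≠ 0 → b ≠ 0 → c ≠ 0 → a ≠ b → a ≠ c →
      TE U G x a (E a b) = TE U G x a (E a c) → b = c := by
    intro a b c ha hb hc hab hac h
    exact hE.inj a b c ha hb hc hab hac ((hTEK U x hF hN a ha).2.2.1 (E a b)
      (hE.mem a b ha hb hab) (E a c) (hE.mem a c ha hc hac) h)
  intro i j l hi hj hl hij hil hjl
  -- step A
  have hA : ∃ m, m ≠ 0 ∧ i ≠ m ∧ m ≠ l ∧ TE U G x i (E i m) = TE U G x l (E l j) := by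
    have hs0 : Equiv.swap i l 0 = 0 := Equiv.swap_apply_of_ne_of_ne (Ne.symm hi) (Ne.symm hl)
    have hsi : Equiv.swap i l i = l := Equiv.swap_apply_left i l
    have hsj : Equiv.swap i l j = j := Equiv.swap_apply_of_ne_of_ne (Ne.symm hij) hjl
    rcases hDIC U x hF hN ω hω i l hi hl hil (E i j) (hE.mem i j hi hj hij) with
      ⟨E', hE1, hE2⟩ | ⟨E', hE1, hE2⟩
    · exfalso
      rw [hk (ω (Equiv.swap i l)) (Equiv.swap i l) (hω.pm _) hs0 i j hi hj hij, hsi, hsj] at hE2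
      obtain ⟨m, hm0, hm1, rfl⟩ := hE.all i hi E' hE1
      rcases hE.dis i m l j hi hm0 hm1 hl hj (Ne.symm hjl) hE2 with ⟨h1, -⟩ | ⟨h1, -⟩
      · exact hil h1
      · exact hij h1
    · rw [hT (ω (Equiv.swap i l)) (Equiv.swap i l) (hω.pm _) hs0 i j hi hj hij, hsi, hsj] at hE2
      obtain ⟨m, hm0, hm1, rfl⟩ := hE.all i hi E' hE1
      refine ⟨m, hm0, hm1, ?_, hE2⟩
      rintro rfl
      refine hnle i m hi hm0 hil ?_
      rw [hE2, hE.sym i m hi hl hil]
      exact hle m j i hl hj hi (Ne.symm hjl) (Ne.symm hil) (Ne.symm hij)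
  obtain ⟨m, hm0, him, hml, hm⟩ := hA
  have hmj : m = j := by
    by_contra hmj
    by_cases hk' : ∃ k, k ≠ 0 ∧ k ≠ i ∧ k ≠ l ∧ k ≠ j ∧ k ≠ m
    · obtain ⟨k, hk0, hki, hkl, hkj, hkm⟩ := hk'
      have h1 := heq (Equiv.swap m k) (Equiv.swap_apply_of_ne_of_ne (Ne.symm hm0) (Ne.symm hk0))
        i m l j hi hm0 him hl hj (Ne.symm hjl) hm
      rw [Equiv.swap_apply_left, Equiv.swap_apply_of_ne_of_ne him (Ne.symm hki),
        Equiv.swap_apply_of_ne_of_ne (Ne.symm hml) (Ne.symm hkl),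
        Equiv.swap_apply_of_ne_of_ne (Ne.symm hmj) (Ne.symm hkj), ← hm] at h1
      exact hkm (huni i k m hi hk0 hm0 (Ne.symm hki) him h1)
    · have hC : ∀ k, k ≠ 0 → k = i ∨ k = l ∨ k = j ∨ k = m := by
        intro k hk0
        by_contra hcon
        push Not at hcon
        exact hk' ⟨k, hk0, hcon.1, hcon.2.1, hcon.2.2.1, hcon.2.2.2⟩
      -- (0): T_im = T_lj
      have e1 : TE U G x j (E j m) = TE U G x l (E l i) := by
        have h1 := heq (Equiv.swap i j) (Equiv.swap_apply_of_ne_of_ne (Ne.symm hi) (Ne.symm hj))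
          i m l j hi hm0 him hl hj (Ne.symm hjl) hm
        rwa [Equiv.swap_apply_left, Equiv.swap_apply_right,
          Equiv.swap_apply_of_ne_of_ne (Ne.symm him) hmj,
          Equiv.swap_apply_of_ne_of_ne (Ne.symm hil) (Ne.symm hjl)] at h1
      have e2 : TE U G x i (E i l) = TE U G x m (E m j) := by
        have h1 := heq (Equiv.swap l m) (Equiv.swap_apply_of_ne_of_ne (Ne.symm hl) (Ne.symm hm0))
          i m l j hi hm0 him hl hj (Ne.symm hjl) hm
        rwa [Equiv.swap_apply_left, Equiv.swap_apply_right,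
          Equiv.swap_apply_of_ne_of_ne hil him,
          Equiv.swap_apply_of_ne_of_ne hjl (Ne.symm hmj)] at h1
      have e3 : TE U G x i (E i l) = TE U G x j (E j m) := by
        have h1 := heq (Equiv.swap m j) (Equiv.swap_apply_of_ne_of_ne (Ne.symm hm0) (Ne.symm hj))
          i l m j hi hl hil hm0 hj hmj e2
        rwa [Equiv.swap_apply_left, Equiv.swap_apply_right,
          Equiv.swap_apply_of_ne_of_ne him hij,
          Equiv.swap_apply_of_ne_of_ne (Ne.symm hml) (Ne.symm hjl)] at h1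
      have e4 : TE U G x i (E i l) = TE U G x l (E l i) := e3.trans e1
      have l1 : kap (TT U G x 0) (E i j) ≤ kap (TT U G x 0) (E l m) := by
        obtain ⟨-, -, -, -, -, h6⟩ := (hTEK U x hF hN i hi).1 (E i j) (hE.mem i j hi hj hij)
        rw [h6]
        refine iSup₂_le ?_
        rintro F ⟨hF1, hF2⟩
        obtain ⟨k, hk0, hk1, rfl⟩ := hE.all i hi F hF1
        rcases hC k hk0 with rfl | rfl | rfl | rfl
        · exact (hk1 rfl).elim
        · rw [e4]
          exact hle k i m hl hi hm0 (Ne.symm hil) (Ne.symm hml) him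
        · exact (hF2 rfl).elim
        · rw [hm]
          exact hle l j k hl hj hm0 (Ne.symm hjl) (Ne.symm hml) (Ne.symm hmj)
      have l2 : kap (TT U G x 0) (E l m) ≤ kap (TT U G x 0) (E i j) := by
        obtain ⟨-, -, -, -, -, h6⟩ := (hTEK U x hF hN l hl).1 (E l m)
          (hE.mem l m hl hm0 (Ne.symm hml))
        rw [h6]
        refine iSup₂_le ?_
        rintro F ⟨hF1, hF2⟩
        obtain ⟨k, hk0, hk1, rfl⟩ := hE.all l hl F hF1
        rcases hC k hk0 with rfl | rfl | rfl | rfl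
        · rw [← e4]
          exact hle k l j hi hl hj hil hij (Ne.symm hjl)
        · exact (hk1 rfl).elim
        · rw [← hm]
          exact hle i m k hi hm0 hj him hij hmj
        · exact (hF2 rfl).elim
      rcases hE.dis i j l m hi hj hij hl hm0 (Ne.symm hml) (le_antisymm l1 l2) with
        ⟨h1, -⟩ | ⟨h1, -⟩
      · exact hil h1
      · exact him h1
  rw [← hm, hmj]

end Pool.Agent.H78.S
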