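import Pool.Agent.H78.S.Targets

/-!
# Theorem S (MP_9d0bb7_lc): row ZER
-/

set_option autoImplicit false

open Set Pool.Agent.H77.BC
open scoped Pointwise

namespace Pool.Agent.H78.S

theorem big_mono {M : Type} {U : RU M} {α : Type} [Cod M α] {A X Y : Set α} (h : Big U A X)
    (hXY : X ⊆ Y) : Big U A Y := by
  obtain ⟨Z, h1, h2, h3, h4, h5⟩ := h
  exact ⟨Z, h1, h2, h3, h4.trans hXY, h5⟩

theorem pf_ZER (hBGA : T_BGA) (hIRP : T_IRP) (hCCA : T_CCA) (hCCJ : T_CCJ) (hCFN : T_CFN)
    (hORB : T_ORB) (hORM : T_ORM) (hIRG : T_IRG) : T_ZER := by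
  intro M U G S _ _ _ _ n x hF g hg
  have _ := hF.dg
  have _ := hF.ful
  have _ := hF.tr
  have _ := hF.fa
  have hact := hF.act
  have hDtop : U.D ((⊤ : Subgroup G) : Set G) := hF.conn.1
  -- irreducibility of the set
  have hOtop : Orb (⊤ : Subgroup G) (x 0) = univ := by
    ext y
    obtain ⟨h, hh⟩ := MulAction.exists_smul_eq G (x 0) y
    exact ⟨fun _ => mem_univ _, fun _ => ⟨h, Subgroup.mem_top _, hh.symm⟩⟩
  have hIrr : Irr U (univ : Set S) := by
    have := ((hORB U hact ⊤ (x 0) hDtop).2.2.2 hF.conn).1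
    rwa [hOtop] at this
  obtain ⟨hInt, -, -, -⟩ := hBGA U univ hIrr
  have hn : U.R (univ : Set S) = n := hF.rk
  have hbig : ∀ Y : Set S, U.D Y → (Big U univ Y ↔ Y.Nonempty ∧ U.R Y = n) := by
    intro Y hY
    constructor
    · rintro ⟨Z, h1, h2, h3, h4, h5⟩
      have h6 := (l_RKA U).mono h1 hY h2 h4
      have h7 := (l_RKA U).mono hY Ful.full (h2.mono h4) (subset_univ _)
      exact ⟨h2.mono h4, by omega⟩
    · rintro ⟨h1, h2⟩
      exact ⟨Y, hY, h1, subset_univ _, subset_rfl, by omega⟩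
  have hFixD : ∀ g : G, U.D {y : S | g • y = y} := fun g =>
    D_eqf (DFn_comp (g := fun p : G × S => p.1 • p.2) hact (DFn_pair (DFn_const g) DFn_id)) DFn_id
  let N : Subgroup G :=
    { carrier := {g | Big U univ {y : S | g • y = y}}
      one_mem' := (hbig _ (hFixD 1)).2 ⟨⟨x 0, one_smul _ _⟩, by
        have : {y : S | (1 : G) • y = y} = univ := by
          ext y
          simp
        rw [this, hn]⟩
      mul_mem' := fun {a b} ha hb => big_mono (hInt _ _ ha hb) (by
        rintro y ⟨h1, h2⟩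
        show (a * b) • y = y
        rw [mul_smul, show b • y = y from h2, show a • y = y from h1])
      inv_mem' := fun {a} ha => big_mono ha (by
        intro y hy
        show a⁻¹ • y = y
        rw [inv_smul_eq_iff]
        exact (show a • y = y from hy).symm) }
  have hZD : U.D {p : G × S | p.1 • p.2 = p.2} := D_eqf hact DFn_snd
  have hND : U.D (N : Set G) := by
    have h1 := (l_RKB U).sec_def n hZD
    have h2 : (N : Set G) = {a : G | (∃ b : S, (a, b) ∈ {p : G × S | p.1 • p.2 = p.2}) ∧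
        U.R {b : S | (a, b) ∈ {p : G × S | p.1 • p.2 = p.2}} = n} := by
      ext a
      exact (hbig _ (hFixD a))
    rw [h2]
    exact h1
  have hNn : ∀ h a : G, a ∈ N → h * a * h⁻¹ ∈ N := by
    intro h a ha
    have h1 := (hORM U hact h univ {y : S | a • y = y}).2.2.1 Ful.full ha
    rw [Set.smul_set_univ] at h1
    refine big_mono h1 ?_
    rintro y ⟨z, hz, rfl⟩
    show (h * a * h⁻¹) • h • z = h • z
    rw [← mul_smul, inv_mul_cancel_right, mul_smul, show a • z = z from hz]
  obtain ⟨hN0, hN0c, hN0i, hN0r⟩ := hCCA U N hND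
  -- the fixed points of the component
  have hF1 : Big U univ {y : S | ∀ g ∈ cc U N, g • y = y} := by
    have hirrN := (hIRG U (cc U N) hN0c).1
    have h1 : Big U ((cc U N : Set G) ×ˢ (univ : Set S)) {p : G × S | p.1 • p.2 = p.2} := by
      refine ((hIRP U (cc U N : Set G) (univ : Set S) hirrN hIrr).2 _ hZD).2 ?_
      exact ⟨(cc U N : Set G), hN0c.1, ⟨1, one_mem _⟩, subset_rfl, fun a ha => hN0 ha, le_rfl⟩
    have h2 : Big U ((univ : Set S) ×ˢ (cc U N : Set G)) {p : S × G | p.2 • p.1 = p.1} := by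
      obtain ⟨Z, z1, z2, z3, z4, z5⟩ := h1
      refine ⟨{p : S × G | (p.2, p.1) ∈ Z}, D_swap z1, ?_, ?_, ?_, ?_⟩
      · obtain ⟨p, hp⟩ := z2
        exact ⟨(p.2, p.1), hp⟩
      · intro p hp
        exact ⟨mem_univ _, (z3 hp).1⟩
      · intro p hp
        exact z4 hp
      · have e1 := (l_RKB U).prod (X := (univ : Set S)) (Y := (cc U N : Set G)) Ful.full hN0c.1
          ⟨x 0, mem_univ _⟩ ⟨1, one_mem _⟩
        have e2 := (l_RKB U).prod (X := (cc U N : Set G)) (Y := (univ : Set S)) hN0c.1 Ful.full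
          ⟨1, one_mem _⟩ ⟨x 0, mem_univ _⟩
        have e3 : U.R {p : S × G | (p.2, p.1) ∈ Z} = U.R Z := by
          have e4 := (l_RKB U).inj (f := fun p : G × S => (p.2, p.1)) z1 DFn_swap z2
            (fun a _ b _ hab => by
              obtain ⟨a1, a2⟩ := a
              obtain ⟨b1, b2⟩ := b
              simp only [Prod.mk.injEq] at hab
              rw [hab.1, hab.2])
          rw [← e4]
          congr 1
          ext p
          constructor
          · intro hp
            exact ⟨(p.2, p.1), hp, rfl⟩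
          · rintro ⟨q, hq, rfl⟩
            exact hq
        omega
    have hZ2 : U.D {p : S × G | p.2 • p.1 = p.1} := D_swap hZD
    have h3 := ((hIRP U (univ : Set S) (cc U N : Set G) hIrr hirrN).2 _ hZ2).1 h2
    refine big_mono h3 ?_
    intro y hy
    have h4 : Fx (cc U N) y = cc U N := by
      refine hN0c.2 _ inf_le_left (hORB U hact (cc U N) y hN0c.1).2.1 ?_
      obtain ⟨Z, z1, z2, z3, z4, z5⟩ := hy
      refine z5.trans ((l_RKA U).mono z1 (hORB U hact (cc U N) y hN0c.1).2.1 z2 ?_)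
      intro a ha
      exact ⟨z3 ha, z4 ha⟩
    intro a ha
    rw [← h4] at ha
    exact ha.2
  have hcj : ∀ h : G, cj h N = N := by
    intro h
    ext a
    constructor
    · intro ha
      have h1 : h * a * h⁻¹ ∈ N := by
        simpa [cj] using ha
      have h2 := hNn h⁻¹ _ h1
      have h3 : h⁻¹ * (h * a * h⁻¹) * h⁻¹⁻¹ = a := by group
      rwa [h3] at h2
    · intro ha
      have h1 := hNn h a ha
      simpa [cj] using h1
  have hall : ∀ y : S, ∀ a ∈ cc U N, a • y = y := by
    intro y a ha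
    obtain ⟨Z, z1, ⟨z, hz⟩, z3, z4, z5⟩ := hF1
    obtain ⟨h, rfl⟩ := MulAction.exists_smul_eq G z y
    have h1 : h⁻¹ * a * h ∈ cc U N := by
      have h2 := hCCJ U h⁻¹ N hND
      rw [hcj] at h2
      have h3 : a ∈ cj h⁻¹ (cc U N) := by rwa [← h2]
      simpa [cj] using h3
    have h4 := z4 hz _ h1
    rw [mul_smul, mul_smul, inv_smul_eq_iff] at h4
    exact h4
  have hbot : cc U N = ⊥ := by
    rw [eq_bot_iff]
    intro a ha
    rw [Subgroup.mem_bot]
    exact FaithfulSMul.eq_of_smul_eq_smul (M := G) (α := S) fun y => by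
      rw [hall y a ha, one_smul]
  have hNfin : (N : Set G).Finite := by
    refine ((l_RKA U).fin hND ⟨1, one_mem _⟩).1 ?_
    rw [← hN0r, hbot]
    refine ((l_RKA U).fin ?_ ⟨1, one_mem _⟩).2 ?_
    · rw [← hbot]
      exact hN0c.1
    · rw [Subgroup.coe_bot]
      exact finite_singleton _
  have hcen := (hCFN U hact ⊤ hF.conn).2 (N : Set G) hNfin (fun h _ y hy => hNn h y hy)
  obtain ⟨Z, hZb, hZf⟩ := hg
  have hgN : g ∈ N := big_mono hZb hZf
  obtain ⟨Y, -, ⟨y0, hy0⟩, -, hYZ, -⟩ := hZb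
  have hgy : g • y0 = y0 := hZf y0 (hYZ hy0)
  refine FaithfulSMul.eq_of_smul_eq_smul (M := G) (α := S) fun y => ?_
  obtain ⟨h, rfl⟩ := MulAction.exists_smul_eq G y0 y
  rw [one_smul, ← mul_smul, ← hcen h (Subgroup.mem_top _) g hgN, mul_smul, hgy]

end Pool.Agent.H78.S
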