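import Pool.Agent.H1.S.IRG
import Pool.Agent.H11.S.FGA
import Pool.Agent.H17.SGT.FPW
import Pool.Agent.H17.SGT.SW2
import Pool.Agent.H18.S.CCJ
import Pool.Agent.H18.S.CFN
import Pool.Agent.H18.S.STD
import Pool.Agent.H23.S.CTI
import Pool.Agent.H23.S.FUN
import Pool.Agent.H23.S.ORM
import Pool.Agent.H24.S.ITV
import Pool.Agent.H24.S.ITW
import Pool.Agent.H32.S.SWP
import Pool.Agent.H36.S.AGA
import Pool.Agent.H36.S.LMV
import Pool.Agent.H36.S.LNU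
import Pool.Agent.H36.S.NTT
import Pool.Agent.H38.S.ABV
import Pool.Agent.H4.S.DIC
import Pool.Agent.H4.S.GMG
import Pool.Agent.H4.S.PHI
import Pool.Agent.H45.S.GMT
import Pool.Agent.H45.S.IDA
import Pool.Agent.H45.S.IDB
import Pool.Agent.H45.S.IDE
import Pool.Agent.H45.S.PRD
import Pool.Agent.H45.S.REG
import Pool.Agent.H50.S.BGA
import Pool.Agent.H50.S.BRA
import Pool.Agent.H50.S.CCA
import Pool.Agent.H50.S.CCB
import Pool.Agent.H50.S.CTB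
import Pool.Agent.H50.S.IN1
import Pool.Agent.H50.S.IN2
import Pool.Agent.H50.S.INC
import Pool.Agent.H50.S.LNK
import Pool.Agent.H52.S.LIM
import Pool.Agent.H52.S.MXL
import Pool.Agent.H52.S.RGV
import Pool.Agent.H52.S.RIN
import Pool.Agent.H53.S.FGB
import Pool.Agent.H53.S.LCJ
import Pool.Agent.H53.S.NUM
import Pool.Agent.H53.S.ORB
import Pool.Agent.H53.S.RNK
import Pool.Agent.H56.S.COO
import Pool.Agent.H56.S.FAI
import Pool.Agent.H56.S.LFI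
import Pool.Agent.H56.S.LRK
import Pool.Agent.H59.SG.ITP
import Pool.Agent.H59.SG.P21
import Pool.Agent.H59.SG.P27
import Pool.Agent.H65.S.CAS
import Pool.Agent.H65.S.IRP
import Pool.Agent.H65.S.SHK
import Pool.Agent.H65.S.SOL
import Pool.Agent.H66.S.HFI
import Pool.Agent.H66.S.INV
import Pool.Agent.H66.S.PSI
import Pool.Agent.H69.S.CFI
import Pool.Agent.H69.S.PHA
import Pool.Agent.H7.S.N26
import Pool.Agent.H72.S.CRD
import Pool.Agent.H73.SG.GMA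
import Pool.Agent.H73.SG.GMB
import Pool.Agent.H78.S.P24
import Pool.Agent.H78.S.TIJ
import Pool.Agent.H78.S.ZER
import Pool.Agent.H84.S.CJH
import Pool.Agent.H84.S.GEN
import Pool.Agent.H84.S.HIC
import Pool.Agent.H84.S.HIJ
import Pool.Agent.H85.S.AGN
import Pool.Agent.H85.S.RGX
import Pool.Agent.H85.S.SPA
import Pool.Agent.H85.S.SPB
import Pool.Agent.H85.S.TRJ
import Pool.Agent.H85.S.TRS
import Pool.Agent.H85.S.ULF
import Pool.Agent.H86.S.OMG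
import Pool.Agent.H86.S.TEK
import Pool.Agent.H89.S.HYP
import Pool.Agent.H91.S.LAB
import Pool.Agent.H91.S.RHO
import Pool.Agent.H94.S.TQB
import Pool.Agent.H99.S.KAP
import Pool.Agent.H99.S.TAB
import Pool.Agent.H78.S.Clo

/-!
# Theorem S (MP_9d0bb7_lc): all rows of board sgt_modules, parts A to E
-/

set_option autoImplicit false

namespace Pool.Agent.H78.S

theorem rows : Rows where
  FGB := Pool.Agent.H53.S.pf_FGB
  FGA := Pool.Agent.H11.S.pf_FGA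
  NUM := Pool.Agent.H53.S.pf_NUM
  INV := Pool.Agent.H66.S.pf_INV
  HFI := Pool.Agent.H66.S.pf_HFI
  BRA := Pool.Agent.H50.S.pf_BRA
  AGN := Pool.Agent.H85.S.pf_AGN
  AGA := Pool.Agent.H36.S.pf_AGA
  TRS := Pool.Agent.H85.S.pf_TRS
  TRJ := Pool.Agent.H85.S.pf_TRJ
  SOL := Pool.Agent.H65.S.pf_SOL
  BGA := Pool.Agent.H50.S.pf_BGA
  IRP := Pool.Agent.H65.S.pf_IRP
  IRI := Pool.Agent.H65.S.pf_IRI
  IRG := Pool.Agent.H1.S.pf_IRG
  FPW := Pool.Agent.H17.SGT.pf_FPW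
  CCA := Pool.Agent.H50.S.pf_CCA
  CCB := Pool.Agent.H50.S.pf_CCB
  CCJ := Pool.Agent.H18.S.pf_CCJ
  CFN := Pool.Agent.H18.S.pf_CFN
  CFI := Pool.Agent.H69.S.pf_CFI
  ORB := Pool.Agent.H53.S.pf_ORB
  ORM := Pool.Agent.H23.S.pf_ORM
  STD := Pool.Agent.H18.S.pf_STD
  IDX := Pool.Agent.H65.S.pf_IDX
  ITP := Pool.Agent.H59.SG.pf_ITP
  ITV := Pool.Agent.H24.S.pf_ITV
  ITW := Pool.Agent.H24.S.pf_ITW
  RNK := Pool.Agent.H53.S.pf_RNK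
  GEN := Pool.Agent.H84.S.pf_GEN
  ZER := Pool.Agent.H78.S.pf_ZER
  HIJ := Pool.Agent.H84.S.pf_HIJ
  HIC := Pool.Agent.H84.S.pf_HIC
  SWP := Pool.Agent.H32.S.pf_SWP
  SYM := Pool.Agent.H32.S.pf_SYM
  CJH := Pool.Agent.H84.S.pf_CJH
  CTB := Pool.Agent.H50.S.pf_CTB
  LNK := Pool.Agent.H50.S.pf_LNK
  LNU := Pool.Agent.H36.S.pf_LNU
  LMV := Pool.Agent.H36.S.pf_LMV
  IN1 := Pool.Agent.H50.S.pf_IN1
  IN2 := Pool.Agent.H50.S.pf_IN2
  INC := Pool.Agent.H50.S.pf_INC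
  LRK := Pool.Agent.H56.S.pf_LRK
  LFI := Pool.Agent.H56.S.pf_LFI
  LCJ := Pool.Agent.H53.S.pf_LCJ
  P21 := Pool.Agent.H59.SG.pf_P21
  NTT := Pool.Agent.H36.S.pf_NTT
  LAB := Pool.Agent.H91.S.pf_LAB
  RHO := Pool.Agent.H91.S.pf_RHO
  P24 := Pool.Agent.H78.S.pf_P24
  CAS := Pool.Agent.H65.S.pf_CAS
  P27 := Pool.Agent.H59.SG.pf_P27
  TAB := Pool.Agent.H99.S.pf_TAB
  CTI := Pool.Agent.H23.S.pf_CTI
  ABV := Pool.Agent.H38.S.pf_ABV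
  REG := Pool.Agent.H45.S.pf_REG
  RGX := Pool.Agent.H85.S.pf_RGX
  RGV := Pool.Agent.H52.S.pf_RGV
  IDA := Pool.Agent.H45.S.pf_IDA
  IDB := Pool.Agent.H45.S.pf_IDB
  IDE := Pool.Agent.H45.S.pf_IDE
  ULF := Pool.Agent.H85.S.pf_ULF
  MXL := Pool.Agent.H52.S.pf_MXL
  LIM := Pool.Agent.H52.S.pf_LIM
  RIN := Pool.Agent.H52.S.pf_RIN
  TQB := Pool.Agent.H94.S.pf_TQB
  N26 := Pool.Agent.H7.S.pf_N26
  COO := Pool.Agent.H56.S.pf_COO
  FAI := Pool.Agent.H56.S.pf_FAI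
  OMG := Pool.Agent.H86.S.pf_OMG
  TEK := Pool.Agent.H86.S.pf_TEK
  DIC := Pool.Agent.H4.S.pf_DIC
  SHK := Pool.Agent.H65.S.pf_SHK
  SPA := Pool.Agent.H85.S.pf_SPA
  SPB := Pool.Agent.H85.S.pf_SPB
  KAP := Pool.Agent.H99.S.pf_KAP
  TIJ := Pool.Agent.H78.S.pf_TIJ
  PHA := Pool.Agent.H69.S.pf_PHA
  PHI := Pool.Agent.H4.S.PHI.pf_PHI
  FUN := Pool.Agent.H23.S.pf_FUN
  SW2 := Pool.Agent.H17.SGT.pf_SW2
  CRD := Pool.Agent.H72.S.pf_CRD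
  PRD := Pool.Agent.H45.S.pf_PRD
  GMA := Pool.Agent.H73.SG.pf_GMA
  GMG := Pool.Agent.H4.S.pf_GMG
  HYP := Pool.Agent.H89.S.pf_HYP
  GMB := Pool.Agent.H73.SG.pf_GMB
  GMT := Pool.Agent.H45.S.pf_GMT
  PSI := Pool.Agent.H66.S.pf_PSI

theorem closed : Clo := clo rows

end Pool.Agent.H78.S
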