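import Pool.Agent.H78.S.Defs

/-!
# Theorem S (MP_9d0bb7_lc), page H78_S.md: more definitions
-/

set_option autoImplicit false

open Set Pool.Agent.H77.BC Matrix
open scoped Pointwise

namespace Pool.Agent.H78.S

variable {M : Type}

/-! ## The interface -/

/-- existence of lines; their fields are algebraically closed; definable groups of automorphisms act
trivially. These facts hold in the universes of a class closed under quotients. -/
structure IFc (U : RU M) : Prop where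
  lex : ∀ {G S : Type} [Group G] [MulAction G S] [Cod M G] [Cod M S] [DG U G] [Ful U S],
    DFn U (fun p : G × S => p.1 • p.2) → ∀ (H : Subgroup G) (X : Set S) (T : Subgroup G) (o e : S),
    Ctx U H X T o e → IsSolvable H → (Lines U H X o e).Nonempty
  mac : ∀ {G S : Type} [Group G] [MulAction G S] [Cod M G] [Cod M S] [DG U G] [Ful U S],
    DFn U (fun p : G × S => p.1 • p.2) → ∀ (H : Subgroup G) (X : Set S) (T : Subgroup G) (o e : S),
    Ctx U H X T o e → ∀ (E : Set (S × S)) (L : LB U H X o e E), IsAlgClosed L.K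
  aut : ∀ {G S : Type} [Group G] [MulAction G S] [Cod M G] [Cod M S] [DG U G] [Ful U S],
    DFn U (fun p : G × S => p.1 • p.2) → ∀ (H : Subgroup G) (X : Set S) (T : Subgroup G) (o e : S),
    Ctx U H X T o e → ∀ (E : Set (S × S)) (L : LB U H X o e E) (Γ : Subgroup G),
    U.D (Γ : Set G) → (∀ g ∈ Γ, ∃ φ : L.K ≃+* L.K, ∀ y ∈ X, g • y ∈ X ∧
      L.f (g • y) = φ (L.f y)) → ∀ g ∈ Γ, ∀ y ∈ X, L.f (g • y) = L.f y

/-- coded commutative rings, definable operations, connected additive group -/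
structure RDf (U : RU M) (R : Type) [CommRing R] [Cod M R] : Prop where
  ful : Ful U R
  add : DFn U (fun p : R × R => p.1 + p.2)
  mul : DFn U (fun p : R × R => p.1 * p.2)
  conn : ∀ A : AddSubgroup R, U.D (A : Set R) → U.R (univ : Set R) ≤ U.R (A : Set R) → A = ⊤

section act

variable {G S : Type} [Group G] [MulAction G S]

/-- the lines of a frame -/
abbrev LF (U : RU M) (G : Type) {S : Type} [Group G] [MulAction G S] [Cod M G] [Cod M S] {n : ℕ}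
    (x : Fin (n + 2) → S) (i : Fin (n + 2)) (E : Set (S × S)) : Type 1 :=
  LB U (HH U G x 0 i) (XX U G x i) (x i) (x 0) E

/-- the elements of `TT U G x 0` in the kernels of all lines for the indices in `J` -/
def lam (U : RU M) (G : Type) {S : Type} [Group G] [MulAction G S] [Cod M G] [Cod M S] {n : ℕ}
    (x : Fin (n + 2) → S) (J : Set (Fin (n + 2))) : Subgroup G :=
  TT U G x 0 ⊓ ⨅ i ∈ J, ⨅ E ∈ LL U G x i, kap (TT U G x 0) E

/-- the elements of `TT U G x 0` in the kernels of all lines of index `i` except `E` -/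
def TE (U : RU M) (G : Type) {S : Type} [Group G] [MulAction G S] [Cod M G] [Cod M S] {n : ℕ}
    (x : Fin (n + 2) → S) (i : Fin (n + 2)) (E : Set (S × S)) : Subgroup G :=
  TT U G x 0 ⊓ ⨅ F ∈ LL U G x i \ {E}, kap (TT U G x 0) F

/-- a commutative ring on `X`, `H` acts as the group of the maps `y ↦ a y + b`, `a` a unit, `T` as
the group of the maps `y ↦ a y`; every element is a sum of two units -/
structure Rg (U : RU M) [Cod M S] (H : Subgroup G) (X : Set S) (T : Subgroup G) (o e : S) (R : Type)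
    [CommRing R] (j : S → R) : Prop where
  inj : InjOn j X
  onto : ∀ r : R, ∃ y ∈ X, j y = r
  j0 : j o = 0
  j1 : j e = 1
  act : ∀ h ∈ H, ∃ (a : Rˣ) (b : R), ∀ y ∈ X, j (h • y) = a * j y + b
  full : ∀ (a : Rˣ) (b : R), ∃ h ∈ H, ∀ y ∈ X, j (h • y) = a * j y + b
  tact : ∀ t ∈ T, ∃ a : Rˣ, ∀ y ∈ X, j (t • y) = a * j y
  tful : ∀ a : Rˣ, ∃ t ∈ T, ∀ y ∈ X, j (t • y) = a * j y
  add : U.D {p : S × S × S | p.1 ∈ X ∧ p.2.1 ∈ X ∧ p.2.2 ∈ X ∧ j p.1 + j p.2.1 = j p.2.2}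
  mul : U.D {p : S × S × S | p.1 ∈ X ∧ p.2.1 ∈ X ∧ p.2.2 ∈ X ∧ j p.1 * j p.2.1 = j p.2.2}
  uni : ∀ r : R, ∃ a b : Rˣ, r = a + b

/-- the structure of the group `TT U G x 0` -/
structure Nt (U : RU M) (G : Type) {S : Type} [Group G] [MulAction G S] [Cod M G] [Cod M S] {n : ℕ}
    (x : Fin (n + 2) → S) : Prop where
  com : Com (TT U G x 0)
  fx : Fx (TT U G x 0) (x 0) = ⊥
  rk : U.R (TT U G x 0 : Set G) = n
  fin : ∀ i, i ≠ 0 → (LL U G x i).Finite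
  card : ∀ i, i ≠ 0 → (LL U G x i).ncard = n
  rkE : ∀ i, i ≠ 0 → ∀ E ∈ LL U G x i, U.R (kap (TT U G x 0) E : Set G) + 1 = n
  inj : ∀ i, i ≠ 0 → ∀ y ∈ XX U G x i, ∀ z ∈ XX U G x i, (∀ E ∈ LL U G x i, (y, z) ∈ E) → y = z

/-- the group of the permutations of the points -/
structure Om (U : RU M) (G : Type) {S : Type} [Group G] [MulAction G S] [Cod M G] {n : ℕ}
    (x : Fin (n + 2) → S) (ω : Equiv.Perm (Fin (n + 2)) →* G) : Prop where
  pm : ∀ σ, Pm x (ω σ) σ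
  uni : ∀ (g : G) σ, Pm x g σ → g = ω σ
  mem : ∀ i j, i ≠ j → ω (Equiv.swap i j) ∈ HH U G x i j

/-- the lines `E i j` -/
structure Kp (U : RU M) (G : Type) {S : Type} [Group G] [MulAction G S] [Cod M G] [Cod M S] {n : ℕ}
    (x : Fin (n + 2) → S) (E : Fin (n + 2) → Fin (n + 2) → Set (S × S)) : Prop where
  mem : ∀ i j, i ≠ 0 → j ≠ 0 → i ≠ j → E i j ∈ LL U G x i
  all : ∀ i, i ≠ 0 → ∀ F ∈ LL U G x i, ∃ j, j ≠ 0 ∧ i ≠ j ∧ F = E i j
  inj : ∀ i j l, i ≠ 0 → j ≠ 0 → l ≠ 0 → i ≠ j → i ≠ l → E i j = E i l → j = l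
  sym : ∀ i j, i ≠ 0 → j ≠ 0 → i ≠ j → kap (TT U G x 0) (E i j) = kap (TT U G x 0) (E j i)
  cjg : ∀ (g : G) (σ : Equiv.Perm (Fin (n + 2))), Pm x g σ → σ 0 = 0 → ∀ i j, i ≠ 0 → j ≠ 0 →
    i ≠ j → mv g (E i j) = E (σ i) (σ j)
  dis : ∀ i j l m, i ≠ 0 → j ≠ 0 → i ≠ j → l ≠ 0 → m ≠ 0 → l ≠ m →
    kap (TT U G x 0) (E i j) = kap (TT U G x 0) (E l m) → (i = l ∧ j = m) ∨ (i = m ∧ j = l)

/-- coordinates, `n = m + 1`; the coordinate `l` belongs to the point `x (l + 2)` -/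
structure Cr (U : RU M) (G : Type) {S : Type} [Group G] [MulAction G S] [Cod M G] [Cod M S] {m : ℕ}
    (x : Fin (m + 1 + 2) → S) (ω : Equiv.Perm (Fin (m + 1 + 2)) →* G) (K : Type) [Field K]
    (y : S → Fin (m + 1) → K) : Prop where
  inf : Infinite K
  bij : ∀ v : Fin (m + 1) → K, ∃! z, z ∈ XX U G x 1 ∧ y z = v
  hh : ∀ c b : Fin (m + 1) → K, (∀ l, c l ≠ 0) → ∃ h ∈ HH U G x 0 1, ∀ z ∈ XX U G x 1,
    h • z ∈ XX U G x 1 ∧ y (h • z) = fun l => c l * y z l + b l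
  tt : ∀ t ∈ TT U G x 0, ∃ c : Fin (m + 1) → K, (∀ l, c l ≠ 0) ∧ ∀ z ∈ XX U G x 1,
    t • z ∈ XX U G x 1 ∧ y (t • z) = fun l => c l * y z l
  x0 : ∀ z, z ∈ Orb (TT U G x 0) (x 0) ↔ z ∈ XX U G x 1 ∧ ∀ l, y z l ≠ 0
  w0 : ∀ z ∈ XX U G x 1, ω (Equiv.swap 0 1) • z ∈ XX U G x 1 ∧
    y (ω (Equiv.swap 0 1) • z) = fun l => 1 - y z l
  w1 : ∀ z ∈ Orb (TT U G x 0) (x 0), ω (Equiv.swap 1 2) • z ∈ Orb (TT U G x 0) (x 0) ∧
    y (ω (Equiv.swap 1 2) • z) = fun l => if l = 0 then (y z 0)⁻¹ else y z l * (y z 0)⁻¹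
  w2 : ∀ l : Fin (m + 1), l ≠ 0 → ∀ z ∈ XX U G x 1,
    ω (Equiv.swap 2 l.succ.succ) • z ∈ XX U G x 1 ∧
      ∀ k, y (ω (Equiv.swap 2 l.succ.succ) • z) k = y z (Equiv.swap 0 l k)

/-- homogeneous coordinates -/
def hv {K : Type} [Field K] {m : ℕ} (y : S → Fin (m + 1) → K) (z : S) : Fin (m + 1 + 1) → K :=
  Fin.cons 1 (y z)

/-- `g` acts on a set of full rank as the matrix `A` -/
def Gm (U : RU M) (G : Type) {S : Type} [Group G] [MulAction G S] [Cod M G] [Cod M S] {m : ℕ}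
    (x : Fin (m + 1 + 2) → S) {K : Type} [Field K] (y : S → Fin (m + 1) → K) (g : G)
    (A : GL (Fin (m + 1 + 1)) K) : Prop :=
  ∃ B : Set S, Big U univ B ∧ ∀ z ∈ B, z ∈ XX U G x 1 ∧ g • z ∈ XX U G x 1 ∧
    ∃ c : K, c ≠ 0 ∧ hv y (g • z) = c • ((A.val : Matrix _ _ K) *ᵥ hv y z)

end act

end Pool.Agent.H78.S
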