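import Pool.Agent.H78.S.T8

/-!
# Row DET of sgt_modules: central commutators have finite order
-/

set_option autoImplicit false

open Set Pool.Agent.H77.BC

namespace Pool.Agent.H78.S

namespace DET

/-- the linear map of a group element which commutes with the scalars -/
def rho {G V K : Type} [Group G] [AddCommGroup V] [DistribMulAction G V] [Field K] [Module K V]
    (hc : ∀ (g : G) (k : K) (v : V), g • (k • v) = k • (g • v)) : G →* (V →ₗ[K] V) where
  toFun g := { toFun := fun v => g • v, map_add' := fun v w => smul_add g v w,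
               map_smul' := fun k v => hc g k v }
  map_one' := LinearMap.ext fun v => one_smul G v
  map_mul' := fun g h => LinearMap.ext fun v => mul_smul g h v

theorem finite_roots {K : Type} [Field K] {n : ℕ} (hn : 0 < n) : {k : K | k ^ n = 1}.Finite := by
  classical
  refine Set.Finite.subset (Polynomial.nthRoots n (1 : K)).toFinset.finite_toSet ?_
  intro k hk
  simp only [Finset.mem_coe, Multiset.mem_toFinset]
  exact (Polynomial.mem_nthRoots hn).2 hk

end DET

theorem pf_DET (hKFD : T_KFD) (kCCE : Pool.Agent.H77.KG.T_CCE) (kCTD : Pool.Agent.H77.KG.T_CTD) :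
    T_DET := by
  intro M U G V _ _ _ _ _ _ _ _ hfa hinf hconn hsimp
  classical
  obtain ⟨t1, -, -, -⟩ := kCTD U (Γ := G)
  have hcD : U.D ((Subgroup.center G : Subgroup G) : Set G) := by
    rw [← Subgroup.centralizer_univ]
    exact t1 _
  by_cases hfin : ((Subgroup.center G : Subgroup G) : Set G).Finite
  · refine ⟨_, hfin, fun a b c hc _ => ?_⟩
    exact Subgroup.mem_center_iff.2 fun g => (hc g).symm
  obtain ⟨h1, h2, h3, h4, -, -⟩ := kCCE U (Subgroup.center G) hcD
  set Z : Subgroup G := Pool.Agent.H77.KG.cc U (Subgroup.center G) with hZ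
  have hZi : (Z : Set G).Infinite := by
    intro hf
    have h5 := ((l_RKA U).fin h1.1 ⟨1, Z.one_mem⟩).2 hf
    rw [h3] at h5
    exact hfin (((l_RKA U).fin hcD ⟨1, Subgroup.one_mem _⟩).1 h5)
  have hZc : ∀ z ∈ Z, ∀ g : G, z * g = g * z := fun z hz g =>
    (Subgroup.mem_center_iff.1 (h2 hz) g).symm
  obtain ⟨K, iK, iM, iF, hsc, hcm⟩ := hKFD U (G := G) (V := V) hfa hinf hsimp Z h1 hZi hZc
  have hnt : Nontrivial V := inferInstance
  have hd : 0 < Module.finrank K V := Module.finrank_pos
  obtain ⟨v0, hv0⟩ := exists_ne (0 : V)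
  set d := Module.finrank K V with hdd
  set N := (Z.relIndex (Subgroup.center G)).factorial with hN
  have hNp : 0 < N := Nat.factorial_pos _
  have hn : 0 < N * d := Nat.mul_pos hNp hd
  let ρ := DET.rho (G := G) hcm
  have hρ : ∀ (g : G) (v : V), ρ g v = g • v := fun g v => rfl
  have hdet : ∀ g : G, LinearMap.det (ρ g) ≠ 0 := by
    intro g h
    have h5 : LinearMap.det (ρ g) * LinearMap.det (ρ g⁻¹) = 1 := by
      rw [← map_mul, ← map_mul, mul_inv_cancel, map_one, map_one]
    rw [h, zero_mul] at h5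
    exact zero_ne_one h5
  have hone : ∀ g : G, (∀ v : V, g • v = v) → g = 1 := fun g hg =>
    FaithfulSMul.eq_of_smul_eq_smul (α := V) fun v => by rw [hg, one_smul]
  -- scalars
  have hpow : ∀ (g : G) (k : K), (∀ v : V, g • v = k • v) → ∀ (i : ℕ) (v : V),
      g ^ i • v = k ^ i • v := by
    intro g k hg i
    induction i with
    | zero => intro v; rw [pow_zero, pow_zero, one_smul, one_smul]
    | succ i ih => intro v; rw [pow_succ, mul_smul, hg, ih, ← mul_smul, pow_succ]
  -- the elements of finite order in the component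
  set W : Set G := {z | z ∈ Z ∧ z ^ (N * d) = 1} with hW
  have hWf : W.Finite := by
    choose! κ hκ using hsc
    refine Set.Finite.of_finite_image (f := κ) ((DET.finite_roots (K := K) hn).subset ?_) ?_
    · rintro _ ⟨z, ⟨hz, hz1⟩, rfl⟩
      have h5 := hpow z (κ z) (hκ z hz) (N * d) v0
      rw [hz1, one_smul] at h5
      have h6 : (κ z ^ (N * d) - 1) • v0 = 0 := by rw [sub_smul, one_smul, ← h5, sub_self]
      rcases smul_eq_zero.1 h6 with h7 | h7
      · exact sub_eq_zero.1 h7
      · exact (hv0 h7).elim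
    · rintro z ⟨hz, -⟩ z' ⟨hz', -⟩ hzz
      refine FaithfulSMul.eq_of_smul_eq_smul (α := V) fun v => ?_
      rw [hκ z hz, hκ z' hz', hzz]
  set F : Set G := {c | c ∈ Subgroup.center G ∧ c ^ (N * d) = 1} with hF
  have hFf : F.Finite := by
    have hqf : Finite (Subgroup.center G ⧸ Z.subgroupOf (Subgroup.center G)) :=
      Nat.finite_of_card_ne_zero h4
    let cl : G → Subgroup.center G ⧸ Z.subgroupOf (Subgroup.center G) := fun c =>
      if h : c ∈ Subgroup.center G then
        ((⟨c, h⟩ : Subgroup.center G) :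
          Subgroup.center G ⧸ Z.subgroupOf (Subgroup.center G)) else
        ((1 : Subgroup.center G) : Subgroup.center G ⧸ Z.subgroupOf (Subgroup.center G))
    let r : Subgroup.center G ⧸ Z.subgroupOf (Subgroup.center G) → G := fun q =>
      if h : ∃ c ∈ F, cl c = q then h.choose else 1
    refine (Set.finite_iUnion fun q => (hWf.image fun w => r q * w)).subset ?_
    intro c hc
    rw [mem_iUnion]
    refine ⟨cl c, ?_⟩
    have hex : ∃ c' ∈ F, cl c' = cl c := ⟨c, hc, rfl⟩
    have hr : r (cl c) = hex.choose := dif_pos hex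
    obtain ⟨h5, h6⟩ := hex.choose_spec
    rw [← hr] at h5 h6
    set c' := r (cl c) with hc'
    refine ⟨c'⁻¹ * c, ⟨?_, ?_⟩, by group⟩
    · simp only [cl, dif_pos h5.1, dif_pos hc.1] at h6
      rw [QuotientGroup.eq] at h6
      exact h6
    · have hcomm : Commute c'⁻¹ c := (Subgroup.mem_center_iff.1 hc.1 c'⁻¹)
      rw [hcomm.mul_pow, inv_pow, h5.2, hc.2, inv_one, one_mul]
  refine ⟨F, hFf, fun a b c hc hab => ?_⟩
  have hcc : c ∈ Subgroup.center G := Subgroup.mem_center_iff.2 fun g => (hc g).symm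
  refine ⟨hcc, ?_⟩
  have hcN : c ^ N ∈ Z := (Subgroup.pow_mem_of_relIndex_ne_zero_of_dvd h4 hcc
    (fun m hm hm2 => Nat.dvd_factorial hm hm2)).1
  obtain ⟨k, hk⟩ := hsc _ hcN
  have hcp : ∀ (i : ℕ) (g : G), c ^ i * g = g * c ^ i := fun i g =>
    ((show Commute c g from hc g).pow_left i).eq
  have hind : ∀ i : ℕ, a ^ i * b = c ^ i * (b * a ^ i) := by
    intro i
    induction i with
    | zero => simp
    | succ i ih =>
      calc a ^ (i + 1) * b = a * (a ^ i * b) := by rw [pow_succ', mul_assoc]
        _ = a * (c ^ i * (b * a ^ i)) := by rw [ih]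
        _ = (c ^ i * a) * (b * a ^ i) := by rw [hcp i a, mul_assoc]
        _ = c ^ i * ((a * b) * a ^ i) := by group
        _ = c ^ i * ((c * (b * a)) * a ^ i) := by rw [hab]
        _ = c ^ (i + 1) * (b * a ^ (i + 1)) := by rw [pow_succ, pow_succ' a]; group
  have h5 := congrArg (fun g => LinearMap.det (ρ g)) (hind N)
  simp only [map_mul] at h5
  have h6 : LinearMap.det (ρ (c ^ N)) = k ^ d := by
    have h7 : ρ (c ^ N) = k • (LinearMap.id : V →ₗ[K] V) := LinearMap.ext fun v => hk v
    rw [h7, LinearMap.det_smul, LinearMap.det_id, mul_one]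
  have h8 : k ^ d = 1 := by
    rw [h6] at h5
    have h9 := hdet (a ^ N)
    have h10 := hdet b
    have h11 : (k ^ d - 1) * (LinearMap.det (ρ b) * LinearMap.det (ρ (a ^ N))) = 0 := by
      rw [sub_mul, one_mul, ← h5, mul_comm, sub_self]
    rcases mul_eq_zero.1 h11 with h12 | h12
    · exact sub_eq_zero.1 h12
    · exact (mul_ne_zero h10 h9 h12).elim
  refine hone _ fun v => ?_
  rw [pow_mul, hpow _ k hk d v, h8, one_smul]

end Pool.Agent.H78.S
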