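import Pool.Agent.H78.S.Lib

/-!
# Theorem S (MP_9d0bb7_lc), page H78_S.md: definitions
-/

set_option autoImplicit false

open Set Pool.Agent.H77.BC
open scoped Pointwise

namespace Pool.Agent.H78.S

variable {M : Type}

/-! ## Full rank, components -/

/-- `X` contains a definable subset of `A` of full rank -/
def Big (U : RU M) {α : Type} [Cod M α] (A X : Set α) : Prop :=
  ∃ Y : Set α, U.D Y ∧ Y.Nonempty ∧ Y ⊆ A ∧ Y ⊆ X ∧ U.R A ≤ U.R Y

/-- irreducible definable sets: two subsets of full rank meet -/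
def Irr (U : RU M) {α : Type} [Cod M α] (A : Set α) : Prop :=
  U.D A ∧ A.Nonempty ∧ ∀ X Y : Set α, Big U A X → Big U A Y → (X ∩ Y).Nonempty

/-- the connected component: the intersection of the definable subgroups of finite index -/
def cc (U : RU M) {Γ : Type} [Group Γ] [Cod M Γ] (H : Subgroup Γ) : Subgroup Γ :=
  sInf {L | L ≤ H ∧ U.D (L : Set Γ) ∧ L.relIndex H ≠ 0}

/-- commutative subgroups -/
def Com {Γ : Type} [Group Γ] (H : Subgroup Γ) : Prop := ∀ a ∈ H, ∀ b ∈ H, a * b = b * a

section act

variable {G S : Type} [Group G] [MulAction G S]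

/-- the pointwise stabiliser of the points `x i`, `i ∈ A` -/
def St (G : Type) {S ι : Type} [Group G] [MulAction G S] (x : ι → S) (A : Set ι) :
    Subgroup G where
  carrier := {g | ∀ i ∈ A, g • x i = x i}
  one_mem' := fun i _ => one_smul _ _
  mul_mem' := fun {a b} ha hb i hi => by rw [mul_smul, hb i hi, ha i hi]
  inv_mem' := fun {a} ha i hi => by rw [inv_smul_eq_iff, ha i hi]

/-- the stabiliser of a point in a subgroup -/
def Fx (H : Subgroup G) (o : S) : Subgroup G := H ⊓ MulAction.stabilizer G o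

/-- the orbit of a point under a subgroup -/
def Orb (H : Subgroup G) (o : S) : Set S := {y | ∃ h ∈ H, y = h • o}

/-- the image of a set of pairs under a group element -/
def mv (g : G) (E : Set (S × S)) : Set (S × S) := {p | (g⁻¹ • p.1, g⁻¹ • p.2) ∈ E}

/-- the elements of `T` which fix all classes of `E` -/
def kap (T : Subgroup G) (E : Set (S × S)) : Subgroup G :=
  T ⊓ ⨅ y : S, MulAction.stabilizer G {z : S | (y, z) ∈ E}

/-! ## Lines -/

/-- the fibres of `f` on `X` -/
def Rel {K : Type} (X : Set S) (f : S → K) : Set (S × S) :=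
  {p | p.1 ∈ X ∧ p.2 ∈ X ∧ f p.1 = f p.2}

/-- `f` maps `X` onto the infinite field `K` and `H` acts on `K` as the group of all affine maps; the
points `o`, `e` are mapped to `0`, `1`; the fibres and the operations are definable. -/
structure Line (U : RU M) [Cod M S] (H : Subgroup G) (X : Set S) (o e : S) (K : Type) [Field K]
    (f : S → K) : Prop where
  inf : Infinite K
  rel : U.D (Rel X f)
  add : U.D {p : S × S × S | p.1 ∈ X ∧ p.2.1 ∈ X ∧ p.2.2 ∈ X ∧ f p.1 + f p.2.1 = f p.2.2}
  mul : U.D {p : S × S × S | p.1 ∈ X ∧ p.2.1 ∈ X ∧ p.2.2 ∈ X ∧ f p.1 * f p.2.1 = f p.2.2}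
  onto : ∀ k : K, ∃ y ∈ X, f y = k
  f0 : f o = 0
  f1 : f e = 1
  act : ∀ h ∈ H, ∃ a b : K, a ≠ 0 ∧ ∀ y ∈ X, f (h • y) = a * f y + b
  full : ∀ a b : K, a ≠ 0 → ∃ h ∈ H, ∀ y ∈ X, f (h • y) = a * f y + b

/-- a line with the relation `E` -/
structure LB (U : RU M) [Cod M S] (H : Subgroup G) (X : Set S) (o e : S) (E : Set (S × S)) where
  K : Type
  fld : Field K
  f : S → K
  line : Line U H X o e K f
  eq : E = Rel X f

attribute [instance] LB.fld

/-- the relations of the lines -/
def Lines (U : RU M) [Cod M S] (H : Subgroup G) (X : Set S) (o e : S) : Set (Set (S × S)) :=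
  {E | Nonempty (LB U H X o e E)}

/-- the situation of a line: `H` connected, `X` an orbit of `H`, `T` the component of the stabiliser
of `o`, the orbit of `e` under `T` has full rank in `X` -/
structure Ctx (U : RU M) [Cod M G] [Cod M S] (H : Subgroup G) (X : Set S) (T : Subgroup G)
    (o e : S) : Prop where
  conn : Conn U H
  orb : X = Orb H o
  comp : T = cc U (Fx H o)
  mem : e ∈ X
  gen : Big U X (Orb T e)
  pos : 1 ≤ U.R X

/-! ## Frames -/

/-- the component of the stabiliser of all points except `x i`, `x j` -/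
def HH (U : RU M) (G : Type) {S : Type} [Group G] [MulAction G S] [Cod M G] {n : ℕ}
    (x : Fin (n + 2) → S) (i j : Fin (n + 2)) : Subgroup G := cc U (St G x {i, j}ᶜ)

/-- the component of the stabiliser of all points except `x i` -/
def TT (U : RU M) (G : Type) {S : Type} [Group G] [MulAction G S] [Cod M G] {n : ℕ}
    (x : Fin (n + 2) → S) (i : Fin (n + 2)) : Subgroup G := cc U (St G x {i}ᶜ)

/-- the generic orbit of `HH U G x 0 i` -/
def XX (U : RU M) (G : Type) {S : Type} [Group G] [MulAction G S] [Cod M G] {n : ℕ}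
    (x : Fin (n + 2) → S) (i : Fin (n + 2)) : Set S := Orb (HH U G x 0 i) (x i)

/-- the lines of `HH U G x 0 i` -/
def LL (U : RU M) (G : Type) {S : Type} [Group G] [MulAction G S] [Cod M G] [Cod M S] {n : ℕ}
    (x : Fin (n + 2) → S) (i : Fin (n + 2)) : Set (Set (S × S)) :=
  Lines U (HH U G x 0 i) (XX U G x i) (x i) (x 0)

/-- the kernels of the lines in `TT U G x 0` -/
def KK (U : RU M) (G : Type) {S : Type} [Group G] [MulAction G S] [Cod M G] [Cod M S] {n : ℕ}
    (x : Fin (n + 2) → S) (i : Fin (n + 2)) : Set (Subgroup G) :=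
  kap (TT U G x 0) '' LL U G x i

/-- `g` permutes the points `x i` as `σ` -/
def Pm {n : ℕ} (x : Fin (n + 2) → S) (g : G) (σ : Equiv.Perm (Fin (n + 2))) : Prop :=
  ∀ i, g • x i = x (σ i)

/-- a faithful transitive connected permutation group and `n + 2` points in generic position, `n` the
rank of the set -/
structure Frm (U : RU M) (G : Type) {S : Type} [Group G] [MulAction G S] [Cod M G] [Cod M S]
    {n : ℕ} (x : Fin (n + 2) → S) : Prop where
  dg : DG U G
  ful : Ful U S
  act : DFn U (fun p : G × S => p.1 • p.2)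
  conn : Conn U (⊤ : Subgroup G)
  tr : MulAction.IsPretransitive G S
  fa : FaithfulSMul G S
  pos : 1 ≤ n
  rk : U.R (univ : Set S) = n
  gen : Big U (univ : Set (Fin (n + 2) → S)) {y | ∃ g : G, ∀ i, y i = g • x i}

/-- the stabilisers of `n` of the points have solvable components -/
def Sol (U : RU M) (G : Type) {S : Type} [Group G] [MulAction G S] [Cod M G] {n : ℕ}
    (x : Fin (n + 2) → S) : Prop :=
  ∀ i j : Fin (n + 2), i ≠ j → IsSolvable (HH U G x i j)

end act

end Pool.Agent.H78.S
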