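import Pool.Agent.H78.S.Clo

/-!
# Theorem S (MP_9d0bb7_lc): the natural situation from the closed targets
-/

set_option autoImplicit false

open Set Pool.Agent.H77.BC

namespace Pool.Agent.H78.S

theorem ncard_C (n : ℕ) : ({0}ᶜ : Set (Fin (n + 2))).ncard = n + 1 := by
  rw [Set.ncard_compl, Set.ncard_singleton, Nat.card_eq_fintype_card, Fintype.card_fin]
  omega

theorem ntr (c : Clo) : T_NTR := by
  intro M U G S _ _ _ _ n x hF hI hS
  haveI := hF.dg
  haveI := hF.ful
  have hne : ∀ i, i ≠ 0 → (LL U G x i).Nonempty := by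
    intro i hi
    obtain ⟨hC, -, -⟩ := c.HIC U x hF i hi
    exact hI.lex hF.act _ _ _ _ _ hC (hS 0 i (Ne.symm hi))
  obtain ⟨s, r, hs, hLL, r0, r1, rn, hr, hmono, hcc, hke⟩ := c.RHO U x hF hne
  obtain ⟨k, k1, kn, kc, kr, keq⟩ := c.NUM n r r0 (le_trans hs r1) rn hmono hcc
  have h0 : (0 : Fin (n + 2)) ∉ ({0}ᶜ : Set (Fin (n + 2))) := fun h => h rfl
  have hC := hr {0}ᶜ h0
  rw [ncard_C] at hC
  have hkn : r (n + 1) = r k := kc (n + 1) (by omega) le_rfl
  have hJ : ∀ J : Set (Fin (n + 2)), 0 ∉ J → J.ncard = k →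
      U.R (lam U G x J : Set G) ≤ U.R (lam U G x {0}ᶜ : Set G) := by
    intro J hJ0 hJk
    have := hr J hJ0
    rw [hJk] at this
    omega
  -- the main equalities
  have key : s = n ∧ r 1 = s ∧ U.R (lam U G x {0}ᶜ : Set G) + n ≤ U.R (TT U G x 0 : Set G) := by
    rcases c.CAS U x hF hI s k hs kn hLL hJ with hA | hB
    · have e1 : s = r 1 := by omega
      have e2 : r 1 + k = n + 1 := by omega
      obtain ⟨e3, e4⟩ := keq e2
      have hl : U.R (lam U G x {0}ᶜ : Set G) + n ≤ U.R (TT U G x 0 : Set G) := by omega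
      obtain ⟨t1, t2, t3⟩ := c.TAB U x hF hl
      have hkE := hke e1.symm
      have hrj : ∀ j, 1 ≤ j → j ≤ k → r j + 1 = s + j := by
        intro j hj
        induction j, hj using Nat.le_induction with
        | base => intro _; omega
        | succ j hj ih =>
          intro hjk
          have := ih (by omega)
          have := e4 j hj (by omega)
          omega
      obtain ⟨hX1, -, hf1⟩ := c.HIC U x hF 1 (by simp)
      obtain ⟨q0, hq⟩ := c.TQB U hF.act _ _ _ _ _ hX1 t1 (fun h _ hh => hf1 h hh) s
        (hLL 1 (by simp)).1 (hLL 1 (by simp)).2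
      have hns : n ≤ s := by
        refine c.N26 U x hF hI t1 t3 s k k1 (by omega) hLL ?_ ?_ ⟨q0, hq⟩
        · intro i hi E hE
          have := hkE i hi E hE
          omega
        · intro J hJ0 hJ1 hJk
          have a1 := hr J hJ0
          have a2 := hrj J.ncard hJ1 hJk
          omega
      exact ⟨by omega, e1.symm, hl⟩
    · have hfac := c.P27 U x hF hI hF.pos hne hB
      rw [(hLL 1 (by simp)).2] at hfac
      have hsn : s ≤ n := by omega
      have hn2 : n ≤ 2 := by
        by_contra hcon
        push Not at hcon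
        have h1 : n < n.factorial := Nat.lt_factorial_self hcon
        omega
      have hpos := hF.pos
      have hs' : s = n := by
        interval_cases n
        · omega
        · have : Nat.factorial 2 = 2 := rfl
          omega
      have hr1n : r 1 ≤ r (n + 1) := by
        rw [hkn]
        have : ∀ j, 1 ≤ j → j ≤ n + 1 → r 1 ≤ r j := by
          intro j hj
          induction j, hj using Nat.le_induction with
          | base => intro _; exact le_rfl
          | succ j hj ih =>
            intro hjk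
            exact le_trans (ih (by omega)) (hmono j (by omega))
        exact this k k1 (by omega)
      exact ⟨hs', by omega, by omega⟩
  obtain ⟨e1, e2, hl⟩ := key
  obtain ⟨t1, t2, t3⟩ := c.TAB U x hF hl
  refine ⟨t1, t2, t3, fun i hi => (hLL i hi).1, fun i hi => (hLL i hi).2.trans e1, ?_, ?_⟩
  · intro i hi E hE
    have := hke e2 i hi E hE
    omega
  · intro i hi y hy z hz hyz
    obtain ⟨hX1, -, hf1⟩ := c.HIC U x hF i hi
    refine c.RIN U hF.act _ _ _ _ _ hX1 t1 (fun h _ hh => hf1 h hh) ?_ y hy z hz hyz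
    have h0i : (0 : Fin (n + 2)) ∉ ({i} : Set (Fin (n + 2))) := fun h => hi h.symm
    have a1 := hr {i} h0i
    rw [Set.ncard_singleton] at a1
    have a2 : U.R (lam U G x {i} : Set G) = 0 := by omega
    have a3 := (c.LAB U x hF {i} h0i).1
    have a4 := ((l_RKA U).fin a3 ⟨1, Subgroup.one_mem _⟩).1 a2
    refine a4.subset ?_
    rintro t ⟨ht1, ht2⟩
    show t ∈ lam U G x {i}
    unfold lam
    refine Subgroup.mem_inf.2 ⟨ht1, ?_⟩
    simp only [Subgroup.mem_iInf]
    intro j hj E hE
    have hji : j = i := hj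
    subst hji
    exact ht2 E hE

end Pool.Agent.H78.S
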