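import Pool.Agent.H78.S.Fin1
import Pool.Agent.H77.BCP.Asm

/-!
# Theorem S (MP_9d0bb7_lc): the theorem from the closed targets
-/

set_option autoImplicit false

open Set Pool.Agent.H77.BC

namespace Pool.Agent.H78.S

theorem tend (c : Clo) : T_END := by
  intro M U G S _ _ _ _ n x hF hI hN
  have hpos := hF.pos
  obtain ⟨m, rfl⟩ : ∃ m, n = m + 1 := ⟨n - 1, by omega⟩
  obtain ⟨ω, hω⟩ := c.OMG U x hF hI hN
  obtain ⟨K, fK, y, hCr, hac⟩ := c.CRD U x hF hI hN ω hω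
  obtain ⟨a1, a2, a3, a4⟩ := c.GMA U x hF hN ω hω K y hCr
  obtain ⟨b1, b2⟩ := c.GMB U x hF hN ω hω K y hCr
  obtain ⟨-, -, g3, g4⟩ := c.GMG U x hF hN ω hω K y hCr
  have t := c.GMT U x hF hN ω hω K y hCr
  exact ⟨K, fK, hac, c.PSI G K m (Gm U G x y) a1 a2 a3 a4 b1 b2 t g3 g4⟩

/-- the theorem, with the interface as a hypothesis -/
theorem core (c : Clo) {G S : Type} [Group G] [MulAction G S] (U : RU (G ⊕ S)) (hP : PG G S U)
    {n : ℕ} (x : Fin (n + 2) → S) (hF : Frm U G x) (hI : IFc U)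
    (h : Sol U G x ∨ Com (TT U G x 0)) :
    ∃ (K : Type) (_ : Field K), IsAlgClosed K ∧ NatAct G S K n := by
  have hS : Sol U G x := by
    rcases h with h | h
    · exact h
    · exact c.ABV U x hF h
  have hN : Nt U G x := ntr c U x hF hI hS
  obtain ⟨K, fK, hac, hiso⟩ := tend c U x hF hI hN
  have hpos := hF.pos
  have h1 := Pool.Agent.H77.BCP.fnl U hP hF.tr hF.fa (K := K) (n + 1) (by omega) hiso
  have hrk := hF.rk
  have hG : n * (n + 2) ≤ U.R (univ : Set G) := by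
    have h2 := (c.RNK U x hF).2 univ
    rw [Set.ncard_univ, Nat.card_eq_fintype_card, Fintype.card_fin] at h2
    omega
  obtain ⟨-, h3⟩ := h1
  rw [hrk] at h3
  exact ⟨K, fK, hac, (h3 hpos (Or.inl hG)).2⟩

end Pool.Agent.H78.S
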