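import Pool.Agent.H78.S.Targets
import Pool.Agent.H77.KG.Targets

/-!
# Theorem S (MP_9d0bb7_lc), page H78_S.md: targets 8 (the interface: existence of lines, their
fields), on the targets of board kgr_modules
-/

set_option autoImplicit false

open Set Pool.Agent.H77.BC
open scoped Pointwise

namespace Pool.Agent.H78.S

/-! ## Fields -/

/-- MCA: pure algebra: a field whose finite extensions have all roots and all roots of
`y ^ p - y = x` is algebraically closed -/
def T_MCA : Prop := ∀ (K : Type) [Field K],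
  (∀ (L : Type) [Field L] [Algebra K L] [FiniteDimensional K L],
    (∀ q : ℕ, 0 < q → ∀ x : L, ∃ y : L, y ^ q = x) ∧
      ∀ p : ℕ, p.Prime → CharP L p → ∀ x : L, ∃ y : L, y ^ p - y = x) → IsAlgClosed K

/-- MCB: finite extensions of definable fields are definable -/
def T_MCB : Prop := ∀ {M : Type} (U : RU M) (K L : Type) [Field K] [Field L] [Cod M K] [DF U K]
  [Algebra K L] [FiniteDimensional K L], ∃ c : Cod M L, @DF M U L _ c

/-- MAC: infinite definable fields are algebraically closed -/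
def T_MAC : Prop := ∀ {M : Type} (U : RU M) (K : Type) [Field K] [Cod M K] [DF U K] [Infinite K],
  IsAlgClosed K

/-- AUF: definable groups of automorphisms of infinite definable fields are trivial -/
def T_AUF : Prop := ∀ {M : Type} (U : RU M) {K G : Type} [Field K] [Cod M K] [DF U K]
  [Infinite K] [Group G] [Cod M G] [DG U G] (α : G →* (K ≃+* K)),
    DFn U (fun p : G × K => α p.1 p.2) → ∀ g x, α g x = x

/-- LCD: the field of a line is definable in an extension -/
def T_LCD : Prop := ∀ (C : ∀ M : Type, RU M → Prop), Pool.Agent.H77.KG.QClosed C →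
  ∀ {M : Type} (U : RU M), C M U → ∀ {G S : Type} [Group G] [MulAction G S] [Cod M G] [Cod M S]
  [DG U G] [Ful U S], DFn U (fun p : G × S => p.1 • p.2) →
  ∀ (H : Subgroup G) (X : Set S) (T : Subgroup G) (o e : S), Ctx U H X T o e →
  ∀ (E : Set (S × S)) (L : LB U H X o e E), ∃ (M' : Type) (U' : RU M') (e0 : M → M')
    (h : Pool.Agent.H77.KG.Ext U U' e0) (c : Cod M' L.K), C M' U' ∧ DF U' L.K ∧
    @RU.D M' U' (S × L.K) (@codProd M' S L.K (Pool.Agent.H77.KG.codE h.inj) c)
      {p | p.1 ∈ X ∧ p.2 = L.f p.1}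

/-- LMC: the field of a line is algebraically closed -/
def T_LMC : Prop := ∀ (C : ∀ M : Type, RU M → Prop), Pool.Agent.H77.KG.QClosed C →
  ∀ {M : Type} (U : RU M), C M U → ∀ {G S : Type} [Group G] [MulAction G S] [Cod M G] [Cod M S]
  [DG U G] [Ful U S], DFn U (fun p : G × S => p.1 • p.2) →
  ∀ (H : Subgroup G) (X : Set S) (T : Subgroup G) (o e : S), Ctx U H X T o e →
  ∀ (E : Set (S × S)) (L : LB U H X o e E), IsAlgClosed L.K

/-- LAU: definable groups which act on a line by field automorphisms act trivially -/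
def T_LAU : Prop := ∀ (C : ∀ M : Type, RU M → Prop), Pool.Agent.H77.KG.QClosed C →
  ∀ {M : Type} (U : RU M), C M U → ∀ {G S : Type} [Group G] [MulAction G S] [Cod M G] [Cod M S]
  [DG U G] [Ful U S], DFn U (fun p : G × S => p.1 • p.2) →
  ∀ (H : Subgroup G) (X : Set S) (T : Subgroup G) (o e : S), Ctx U H X T o e →
  ∀ (E : Set (S × S)) (L : LB U H X o e E) (Γ : Subgroup G), U.D (Γ : Set G) →
    (∀ g ∈ Γ, ∃ φ : L.K ≃+* L.K, ∀ y ∈ X, g • y ∈ X ∧ L.f (g • y) = φ (L.f y)) →
    ∀ g ∈ Γ, ∀ y ∈ X, L.f (g • y) = L.f y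

/-! ## Modules of solvable groups -/

/-- KFD: the field of a central connected group -/
def T_KFD : Prop := ∀ {M : Type} (U : RU M) {G V : Type} [Group G] [AddCommGroup V]
  [DistribMulAction G V] [Cod M G] [Cod M V] [DG U G] [Pool.Agent.H77.KG.DAb U V]
  [Pool.Agent.H77.KG.DA U G V], FaithfulSMul G V → Infinite V →
  (∀ A : AddSubgroup V, U.D (A : Set V) → Pool.Agent.H77.KG.Iv (⊤ : Subgroup G) A →
    A = ⊥ ∨ A = ⊤) →
  ∀ Z : Subgroup G, Conn U Z → (Z : Set G).Infinite → (∀ z ∈ Z, ∀ g : G, z * g = g * z) →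
    ∃ (K : Type) (_ : Field K) (_ : Module K V), FiniteDimensional K V ∧
      (∀ z ∈ Z, ∃ k : K, ∀ v : V, z • v = k • v) ∧
      ∀ (g : G) (k : K) (v : V), g • (k • v) = k • (g • v)

/-- DET: central commutators have finite order -/
def T_DET : Prop := ∀ {M : Type} (U : RU M) {G V : Type} [Group G] [AddCommGroup V]
  [DistribMulAction G V] [Cod M G] [Cod M V] [DG U G] [Pool.Agent.H77.KG.DAb U V]
  [Pool.Agent.H77.KG.DA U G V], FaithfulSMul G V → Infinite V → Conn U (⊤ : Subgroup G) →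
  (∀ A : AddSubgroup V, U.D (A : Set V) → Pool.Agent.H77.KG.Iv (⊤ : Subgroup G) A →
    A = ⊥ ∨ A = ⊤) →
  ∃ F : Set G, F.Finite ∧ ∀ a b c : G, (∀ g, c * g = g * c) → a * b = c * (b * a) → c ∈ F

/-- MLC: Malcev's theorem -/
def T_MLC : Prop := ∀ {M : Type} (U : RU M) {G V : Type} [Group G] [AddCommGroup V]
  [DistribMulAction G V] [Cod M G] [Cod M V] [DG U G] [Pool.Agent.H77.KG.DAb U V]
  [Pool.Agent.H77.KG.DA U G V], FaithfulSMul G V → Infinite V → Conn U (⊤ : Subgroup G) →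
  Group.IsSolvable G →
  (∀ A : AddSubgroup V, U.D (A : Set V) → Pool.Agent.H77.KG.Iv (⊤ : Subgroup G) A →
    A = ⊥ ∨ A = ⊤) → ∀ a b : G, a * b = b * a

/-! ## Existence of lines -/

/-- CJM: a commutative subgroup `V` as a module of a subgroup `T` which normalises it -/
def T_CJM : Prop := ∀ {M : Type} (U : RU M) {Γ : Type} [Group Γ] [Cod M Γ] [DG U Γ]
  (V T : Subgroup Γ), U.D (V : Set Γ) → Conn U T → Com V →
    (∀ t ∈ T, ∀ v ∈ V, t * v * t⁻¹ ∈ V) →
    ∃ (G' V' : Type) (_ : Group G') (_ : AddCommGroup V') (_ : DistribMulAction G' V')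
      (_ : Cod M G') (_ : Cod M V') (i : G' →* Γ) (j : V' → Γ), DG U G' ∧
      Pool.Agent.H77.KG.DAb U V' ∧ Pool.Agent.H77.KG.DA U G' V' ∧ Conn U (⊤ : Subgroup G') ∧
      Function.Injective i ∧ i.range = T ∧ Function.Injective j ∧ range j = (V : Set Γ) ∧
      (∀ v w, j (v + w) = j v * j w) ∧ (∀ g v, j (g • v) = i g * j v * (i g)⁻¹) ∧
      ∀ A : Set V', U.D A ↔ U.D (j '' A)

/-- LX0: existence of lines, all normal subgroups are transitive -/
def T_LX0 : Prop := ∀ {M : Type} (U : RU M) {G S : Type} [Group G] [MulAction G S] [Cod M G]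
  [Cod M S] [DG U G] [Ful U S], DFn U (fun p : G × S => p.1 • p.2) → FaithfulSMul G S →
  Group.IsSolvable G → ∀ (T : Subgroup G) (o e : S), Ctx U (⊤ : Subgroup G) univ T o e →
    (∀ N : Subgroup G, N.Normal → U.D (N : Set G) → N ≠ ⊥ → ∀ y z : S, ∃ g ∈ N, g • y = z) →
    (Lines U (⊤ : Subgroup G) univ o e).Nonempty

/-- QCX: quotients of the situation of a line -/
def T_QCX : Prop := ∀ {M M' : Type} (U : RU M) (U' : RU M') (e0 : M → M')
  (h : Pool.Agent.H77.KG.Ext U U' e0) {G S G' S' : Type} [Group G] [MulAction G S] [Group G']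
  [MulAction G' S'] [Cod M G] [Cod M S] [cG : Cod M' G'] [cS : Cod M' S'] [DG U G] [Ful U S]
  [DG U' G'] [Ful U' S'] (p : G →* G') (q : S → S'), DFn U (fun p : G × S => p.1 • p.2) →
  DFn U' (fun p : G' × S' => p.1 • p.2) →
  @Pool.Agent.H77.KG.Qt M' U' G S G' S' _ _ _ _ (Pool.Agent.H77.KG.codE h.inj)
    (Pool.Agent.H77.KG.codE h.inj) cG cS p q → Infinite S' →
  ∀ (T : Subgroup G) (o e : S), Ctx U (⊤ : Subgroup G) univ T o e →
    Ctx U' (⊤ : Subgroup G') univ (cc U' (Fx ⊤ (q o))) (q o) (q e) ∧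
    ((Lines U' (⊤ : Subgroup G') univ (q o) (q e)).Nonempty →
      (Lines U (⊤ : Subgroup G) univ o e).Nonempty) ∧
    (Group.IsSolvable G → Group.IsSolvable G') ∧
    U'.R (univ : Set S') ≤ U.R (univ : Set S) ∧
    ({y : S | q y = q o}.Infinite → U'.R (univ : Set S') < U.R (univ : Set S)) ∧
    ∀ N : Subgroup G', U'.D (N : Set G') → U.D ((N.comap p : Subgroup G) : Set G)

/-- LXI: existence of lines, transitive groups -/
def T_LXI : Prop := ∀ (C : ∀ M : Type, RU M → Prop), Pool.Agent.H77.KG.QClosed C →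
  ∀ (k : ℕ) {M : Type} (U : RU M), C M U → ∀ {G S : Type} [Group G] [MulAction G S] [Cod M G]
  [Cod M S] [DG U G] [Ful U S], DFn U (fun p : G × S => p.1 • p.2) → Group.IsSolvable G →
  U.R (univ : Set S) ≤ k → ∀ (T : Subgroup G) (o e : S), Ctx U (⊤ : Subgroup G) univ T o e →
    (Lines U (⊤ : Subgroup G) univ o e).Nonempty

/-- SBX: restriction to `H` and `X` -/
def T_SBX : Prop := ∀ {M : Type} (U : RU M) {G S : Type} [Group G] [MulAction G S] [Cod M G]
  [Cod M S] [DG U G] [Ful U S], DFn U (fun p : G × S => p.1 • p.2) →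
  ∀ (H : Subgroup G) (X : Set S) (T : Subgroup G) (o e : S), Ctx U H X T o e →
  ∃ (G' S' : Type) (_ : Group G') (_ : MulAction G' S') (_ : Cod M G') (_ : Cod M S')
    (T' : Subgroup G') (o' e' : S'), DG U G' ∧ Ful U S' ∧
    DFn U (fun p : G' × S' => p.1 • p.2) ∧ Ctx U (⊤ : Subgroup G') univ T' o' e' ∧
    ((Lines U (⊤ : Subgroup G') univ o' e').Nonempty → (Lines U H X o e).Nonempty) ∧
    (Group.IsSolvable H → Group.IsSolvable G')

/-- LEX: existence of lines -/
def T_LEX : Prop := ∀ (C : ∀ M : Type, RU M → Prop), Pool.Agent.H77.KG.QClosed C →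
  ∀ {M : Type} (U : RU M), C M U → ∀ {G S : Type} [Group G] [MulAction G S] [Cod M G] [Cod M S]
  [DG U G] [Ful U S], DFn U (fun p : G × S => p.1 • p.2) →
  ∀ (H : Subgroup G) (X : Set S) (T : Subgroup G) (o e : S), Ctx U H X T o e →
    Group.IsSolvable H → (Lines U H X o e).Nonempty

end Pool.Agent.H78.S
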