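import Pool.Agent.H78.S.Rows
import Pool.Agent.H78.S.T8

/-!
# Theorem S (MP_9d0bb7_lc): the interface from the rows
-/

set_option autoImplicit false

open Set Pool.Agent.H77.BC

namespace Pool.Agent.H78.S

/-- the targets of board kgr_modules which are used -/
structure KGc : Prop where
  ABN : Pool.Agent.H77.KG.T_ABN
  ADT : Pool.Agent.H77.KG.T_ADT
  AUT : Pool.Agent.H77.KG.T_AUT
  CCE : Pool.Agent.H77.KG.T_CCE
  CLI : Pool.Agent.H77.KG.T_CLI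
  CTD : Pool.Agent.H77.KG.T_CTD
  EXA : Pool.Agent.H77.KG.T_EXA
  EXB : Pool.Agent.H77.KG.T_EXB
  FCJ : Pool.Agent.H77.KG.T_FCJ
  HMI : Pool.Agent.H77.KG.T_HMI
  MEX : Pool.Agent.H77.KG.T_MEX
  QMN : Pool.Agent.H77.KG.T_QMN
  QTY : Pool.Agent.H77.KG.T_QTY
  ZFT : Pool.Agent.H77.KG.T_ZFT

/-- the rows of part I -/
structure Rows8 : Prop where
  MCA : T_MCA
  MCB : T_MCB
  MAC : T_MCA → T_MCB → T_MAC
  AUF : Pool.Agent.H77.KG.T_AUT → Pool.Agent.H77.KG.T_CCE → T_MAC → T_AUF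
  LCD : T_CTB → Pool.Agent.H77.KG.T_QTY → Pool.Agent.H77.KG.T_EXA → Pool.Agent.H77.KG.T_EXB →
    T_LCD
  LMC : T_LCD → T_MAC → T_LMC
  LAU : T_LCD → T_AUF → Pool.Agent.H77.KG.T_EXA → Pool.Agent.H77.KG.T_EXB → T_LAU
  KFD : Pool.Agent.H77.KG.T_MEX → Pool.Agent.H77.KG.T_ZFT → Pool.Agent.H77.KG.T_ADT → T_KFD
  DET : T_KFD → Pool.Agent.H77.KG.T_CCE → Pool.Agent.H77.KG.T_CTD → T_DET
  MLC : T_DET → Pool.Agent.H77.KG.T_CLI → Pool.Agent.H77.KG.T_CCE → Pool.Agent.H77.KG.T_CTD →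
    Pool.Agent.H77.KG.T_FCJ → T_MLC
  CJM : T_CJM
  LX0 : Pool.Agent.H77.KG.T_ABN → T_MLC → T_CJM → T_REG → T_RGV → T_MXL → T_CTB → T_CCA → T_ORB →
    T_LX0
  QCX : Pool.Agent.H77.KG.T_EXA → Pool.Agent.H77.KG.T_EXB → Pool.Agent.H77.KG.T_HMI → T_CCA →
    T_CCB → T_IRI → T_ORB → T_CTB → T_BGA → T_QCX
  LXI : Pool.Agent.H77.KG.T_QMN → T_QCX → T_LX0 → T_CCA → T_CTB → T_ORB → T_CFN → T_BGA → T_ORM →
    T_LXI
  SBX : T_CTB → T_CCA → T_CCB → T_SBX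
  LEX : T_SBX → T_LXI → T_LEX

theorem ifc (c : Clo) (K : KGc) (R : Rows8) (C : ∀ M : Type, RU M → Prop)
    (hC : Pool.Agent.H77.KG.QClosed C) {M : Type} (U : RU M) (hU : C M U) : IFc U := by
  have cMCA : T_MCA := R.MCA
  have cMCB : T_MCB := R.MCB
  have cMAC : T_MAC := R.MAC cMCA cMCB
  have cAUF : T_AUF := R.AUF K.AUT K.CCE cMAC
  have cLCD : T_LCD := R.LCD c.CTB K.QTY K.EXA K.EXB
  have cLMC : T_LMC := R.LMC cLCD cMAC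
  have cLAU : T_LAU := R.LAU cLCD cAUF K.EXA K.EXB
  have cKFD : T_KFD := R.KFD K.MEX K.ZFT K.ADT
  have cDET : T_DET := R.DET cKFD K.CCE K.CTD
  have cMLC : T_MLC := R.MLC cDET K.CLI K.CCE K.CTD K.FCJ
  have cCJM : T_CJM := R.CJM
  have cLX0 : T_LX0 := R.LX0 K.ABN cMLC cCJM c.REG c.RGV c.MXL c.CTB c.CCA c.ORB
  have cQCX : T_QCX := R.QCX K.EXA K.EXB K.HMI c.CCA c.CCB c.IRI c.ORB c.CTB c.BGA
  have cLXI : T_LXI := R.LXI K.QMN cQCX cLX0 c.CCA c.CTB c.ORB c.CFN c.BGA c.ORM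
  have cSBX : T_SBX := R.SBX c.CTB c.CCA c.CCB
  have cLEX : T_LEX := R.LEX cSBX cLXI
  exact ⟨fun hact H X T o e hc hs => cLEX C hC U hU hact H X T o e hc hs,
    fun hact H X T o e hc E L => cLMC C hC U hU hact H X T o e hc E L,
    fun hact H X T o e hc E L Γ hΓ h => cLAU C hC U hU hact H X T o e hc E L Γ hΓ h⟩

end Pool.Agent.H78.S
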