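import Pool.Agent.H78.S.Fin2
import Pool.Agent.H78.S.Fin8

/-!
# Theorem S (MP_9d0bb7_lc): the theorem in the terms of the library
-/

set_option autoImplicit false

open Set Pool.Agent.H77.BC

namespace Pool.Agent.H78.S

theorem solvable_of_le {Γ : Type} [Group Γ] {A B : Subgroup Γ} (h : A ≤ B)
    (hB : Group.IsSolvable B) : Group.IsSolvable A :=
  solvable_of_solvable_injective (Subgroup.inclusion_injective h)

theorem solvable_cj {Γ : Type} [Group Γ] (g : Γ) {A : Subgroup Γ} (hA : Group.IsSolvable A) :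
    Group.IsSolvable (cj g⁻¹ A) := by
  let f : cj g⁻¹ A →* A :=
    { toFun := fun a => ⟨g⁻¹ * a.1 * g⁻¹⁻¹, a.2⟩
      map_one' := Subtype.ext (by
        show g⁻¹ * 1 * g⁻¹⁻¹ = 1
        group)
      map_mul' := fun a b => Subtype.ext (by
        show g⁻¹ * (a.1 * b.1) * g⁻¹⁻¹ = g⁻¹ * a.1 * g⁻¹⁻¹ * (g⁻¹ * b.1 * g⁻¹⁻¹)
        group) }
  refine solvable_of_solvable_injective (f := f) ?_
  intro a b hab
  have h1 : g⁻¹ * a.1 * g⁻¹⁻¹ = g⁻¹ * b.1 * g⁻¹⁻¹ := congrArg Subtype.val hab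
  exact Subtype.ext (mul_left_cancel (mul_right_cancel h1))

theorem exists_perm_pair {k : ℕ} {i j a b : Fin k} (hij : i ≠ j) (hab : a ≠ b) :
    ∃ σ : Equiv.Perm (Fin k), σ i = a ∧ σ j = b := by
  by_cases h : Equiv.swap i a j = a
  · -- then j = i, impossible, or a = ...
    have h1 : j = i := by
      have := congrArg (Equiv.swap i a) h
      rw [Equiv.swap_apply_right, Equiv.swap_apply_self] at this
      exact this
    exact (hij h1.symm).elim
  · refine ⟨Equiv.swap (Equiv.swap i a j) b * Equiv.swap i a, ?_, ?_⟩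
    · rw [Equiv.Perm.mul_apply, Equiv.swap_apply_left]
      exact Equiv.swap_apply_of_ne_of_ne (Ne.symm h) hab
    · rw [Equiv.Perm.mul_apply, Equiv.swap_apply_left]

/-- the theorem in the terms of the library -/
theorem core2 (c : Clo) {G S : Type} [Group G] [MulAction G S] (U : RU (G ⊕ S)) (hP : PG G S U)
    {n : ℕ} (x : Fin (n + 2) → S) (hF : Frm U G x) (hI : IFc U)
    (h : (∃ i j, i ≠ j ∧ ∃ L : Subgroup G, U.D (L : Set G) ∧ L ≤ St G x {i, j}ᶜ ∧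
        L.relIndex (St G x {i, j}ᶜ) ≠ 0 ∧ Group.IsSolvable L) ∨
      ∃ i, ∃ L : Subgroup G, U.D (L : Set G) ∧ L ≤ St G x {i}ᶜ ∧
        L.relIndex (St G x {i}ᶜ) ≠ 0 ∧ Com L) :
    ∃ (K : Type) (_ : Field K), IsAlgClosed K ∧ NatAct G S K n := by
  have _ := hF.dg
  have _ := hF.ful
  refine core c U hP x hF hI ?_
  obtain ⟨-, hsym⟩ := c.SYM U x hF
  rcases h with ⟨i, j, hij, L, hLD, hLS, hLi, hL⟩ | ⟨i, L, hLD, hLS, hLi, hL⟩
  · left
    have h1 : HH U G x i j ≤ L := sInf_le ⟨hLS, hLD, hLi⟩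
    have h2 : Group.IsSolvable (HH U G x i j) := solvable_of_le h1 hL
    intro a b hab
    obtain ⟨σ, ha, hb⟩ := exists_perm_pair hij hab
    obtain ⟨g, hg⟩ := hsym σ
    have h3 := (c.CJH U x hF g σ hg).1 i j
    rw [ha, hb] at h3
    rw [← h3]
    exact solvable_cj g h2
  · right
    have h1 : TT U G x i ≤ L := sInf_le ⟨hLS, hLD, hLi⟩
    obtain ⟨g, hg⟩ := hsym (Equiv.swap i 0)
    have h3 := (c.CJH U x hF g _ hg).2.1 i
    rw [Equiv.swap_apply_left] at h3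
    rw [← h3]
    intro a ha b hb
    have h4 := hL _ (h1 ha) _ (h1 hb)
    simp only [MulEquiv.coe_toMonoidHom, MulAut.conj_apply] at h4
    have h5 : g⁻¹ * (a * b) * g⁻¹⁻¹ = g⁻¹ * (b * a) * g⁻¹⁻¹ := by
      calc g⁻¹ * (a * b) * g⁻¹⁻¹ = g⁻¹ * a * g⁻¹⁻¹ * (g⁻¹ * b * g⁻¹⁻¹) := by group
        _ = g⁻¹ * b * g⁻¹⁻¹ * (g⁻¹ * a * g⁻¹⁻¹) := h4
        _ = g⁻¹ * (b * a) * g⁻¹⁻¹ := by group
    exact mul_left_cancel (mul_right_cancel h5)

end Pool.Agent.H78.S
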