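import Pool.Agent.H1.KGR.MNC
import Pool.Agent.H12.KGR.HMI
import Pool.Agent.H17.KGR.EXB
import Pool.Agent.H19.KGR.CTD
import Pool.Agent.H19.KGR.QTY
import Pool.Agent.H20.KGR.CFL
import Pool.Agent.H23.KGR.ABN
import Pool.Agent.H23.KGR.AHM
import Pool.Agent.H36.KGR.QGP
import Pool.Agent.H39.KGR.ZFT
import Pool.Agent.H42.KG.FCJ
import Pool.Agent.H48.KGR.IND
import Pool.Agent.H49.KG.EXC
import Pool.Agent.H52.KG.CLI
import Pool.Agent.H53.KGR.EXA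
import Pool.Agent.H53.KGR.QMN
import Pool.Agent.H63.KG.ADT
import Pool.Agent.H65.KGR.IN0
import Pool.Agent.H7.KGR.CLB
import Pool.Agent.H87.KG.ORB
import Pool.Agent.H91.KG.AUT
import Pool.Agent.H91.KG.CLA
import Pool.Agent.H94.KGR.MEX
import Pool.Agent.H78.S.Fin8

/-!
# Theorem S (MP_9d0bb7_lc): the targets of board kgr_modules which are used
-/

set_option autoImplicit false

namespace Pool.Agent.H78.S

theorem kgc : KGc := by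
  have cCTD : Pool.Agent.H77.KG.T_CTD := Pool.Agent.H19.KGR.pf_CTD
  have cCCE : Pool.Agent.H77.KG.T_CCE := Pool.Agent.H87.KG.pf_CCE
  have cFCJ : Pool.Agent.H77.KG.T_FCJ := Pool.Agent.H42.KG.pf_FCJ
  have cABN : Pool.Agent.H77.KG.T_ABN := Pool.Agent.H23.KGR.pf_ABN cCTD cCCE cFCJ
  have cADT : Pool.Agent.H77.KG.T_ADT := Pool.Agent.H63.KG.ADT.pf_ADT cCCE
  have cORB : Pool.Agent.H77.KG.T_ORB := Pool.Agent.H87.KG.pf_ORB
  have cFCO : Pool.Agent.H77.KG.T_FCO := Pool.Agent.H87.KG.pf_FCO cORB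
  have cAUT : Pool.Agent.H77.KG.T_AUT := Pool.Agent.H91.KG.pf_AUT cFCO
  have cMEX : Pool.Agent.H77.KG.T_MEX := Pool.Agent.H94.KGR.pf_MEX cADT
  have cHMI : Pool.Agent.H77.KG.T_HMI := Pool.Agent.H12.KGR.pf_HMI
  have cAHM : Pool.Agent.H77.KG.T_AHM := Pool.Agent.H23.KGR.pf_AHM cHMI
  have cCLA : Pool.Agent.H77.KG.T_CLA := Pool.Agent.H91.KG.pf_CLA cMEX cADT cAHM
  have cIRR : Pool.Agent.H77.KG.T_IRR := Pool.Agent.H42.KG.pf_IRR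
  have cIN0 : Pool.Agent.H77.KG.T_IN0 := Pool.Agent.H65.KGR.pf_IN0 cIRR cADT
  have cIND : Pool.Agent.H77.KG.T_IND := Pool.Agent.H48.KGR.pf_IND cIN0 cADT
  have cMNC : Pool.Agent.H77.KG.T_MNC := Pool.Agent.H1.KGR.pf_MNC cADT
  have cZFT : Pool.Agent.H77.KG.T_ZFT := Pool.Agent.H39.KGR.pf_ZFT cIND cFCO cMNC cADT cAHM
  have cCLB : Pool.Agent.H77.KG.T_CLB := Pool.Agent.H7.KGR.pf_CLB cZFT cCTD cADT cCCE
  have cCFL : Pool.Agent.H77.KG.T_CFL := Pool.Agent.H20.KGR.pf_CFL cAUT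
  have cCLI : Pool.Agent.H77.KG.T_CLI := Pool.Agent.H52.KG.pf_CLI cCLA cZFT cCLB cCFL
  have cEXA : Pool.Agent.H77.KG.T_EXA := Pool.Agent.H53.KGR.pf_EXA
  have cEXB : Pool.Agent.H77.KG.T_EXB := Pool.Agent.H17.KGR.pf_EXB cEXA
  have cQTY : Pool.Agent.H77.KG.T_QTY := Pool.Agent.H19.KGR.pf_QTY cEXA cEXB
  have cQGP : Pool.Agent.H77.KG.T_QGP := Pool.Agent.H36.KGR.pf_QGP cQTY cEXA cEXB
  have cEXC : Pool.Agent.H77.KG.T_EXC := Pool.Agent.H77.KG.pf_EXC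
  have cQMN : Pool.Agent.H77.KG.T_QMN := Pool.Agent.H53.KGR.pf_QMN cQTY cQGP cEXA cEXB cEXC
  exact ⟨cABN, cADT, cAUT, cCCE, cCLI, cCTD, cEXA, cEXB, cFCJ, cHMI, cMEX, cQMN, cQTY, cZFT⟩

end Pool.Agent.H78.S
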