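import Pool.Agent.H78.S.T8

/-!
# Row LCD of sgt_modules: the field of a line is definable in an extension
-/

set_option autoImplicit false

open Set Pool.Agent.H77.BC
open Pool.Agent.H77.KG (Ext codE Same)

namespace Pool.Agent.H78.S

theorem pf_LCD (hCTB : T_CTB) (kQTY : Pool.Agent.H77.KG.T_QTY) (kEXA : Pool.Agent.H77.KG.T_EXA)
    (kEXB : Pool.Agent.H77.KG.T_EXB) : T_LCD := by
  intro C hC M U hCU G S _ _ _ _ _ _ hact H X T o e hc E L
  obtain ⟨hoX, hXD, -⟩ := hCTB U hact H X T o e hc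
  let E1 : Setoid S :=
    { r := fun y z => y = z ∨ (y, z) ∈ Rel X L.f
      iseqv := by
        refine ⟨fun y => Or.inl rfl, ?_, ?_⟩
        · rintro y z (h | h)
          · exact Or.inl h.symm
          · exact Or.inr ⟨h.2.1, h.1, h.2.2.symm⟩
        · rintro y z u (rfl | h) (rfl | h')
          · exact Or.inl rfl
          · exact Or.inr h'
          · exact Or.inr h
          · exact Or.inr ⟨h.1, h'.2.1, h.2.2.trans h'.2.2⟩ }
  have hE1 : U.D {z : S × S | E1.r z.1 z.2} := D_or D_eqp L.line.rel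
  obtain ⟨M', U', e0, h, cq, hCU', hQF, hmk⟩ := kQTY C hC U hCU E1 hE1
  choose sec hsX hsf using L.line.onto
  let mk : S → Quotient E1 := fun a => Quotient.mk E1 a
  let w : L.K → Quotient E1 := fun k => mk (sec k)
  have hwi : Function.Injective w := by
    intro k l hkl
    have h1 : E1.r (sec k) (sec l) := Quotient.exact hkl
    rcases h1 with h1 | h1
    · rw [← hsf k, h1, hsf]
    · rw [← hsf k, ← hsf l]
      exact h1.2.2
  have hwm : ∀ y ∈ X, mk y = w (L.f y) := by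
    intro y hy
    refine Quotient.sound (s := E1) (Or.inr ⟨hy, hsX _, ?_⟩)
    exact (hsf (L.f y)).symm
  let cK : Cod M' L.K := ⟨@Cod.ι M' (Quotient E1) cq, @Cod.fin M' (Quotient E1) cq,
    fun k => @Cod.c M' (Quotient E1) cq (w k), fun _ _ hkl => hwi (@Cod.inj M' _ cq _ _ hkl)⟩
  letI iS : Cod M' S := codE h.inj
  haveI i2 : Ful U' S := (kEXB U U' e0 h).1
  have hmk' : DFn U' mk := hmk
  have hS := kEXA U U' e0 h (α := S) (β := S) (γ := S)
  have hX' : U'.D X := (hS.1.D X).2 hXD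
  have hfst : DFn U' (fun p : (S × S) × S => mk p.1.1) :=
    DFn_comp (g := mk) hmk' (DFn_comp (g := fun p : S × S => p.1) DFn_fst DFn_fst)
  have hsnd : DFn U' (fun p : (S × S) × S => mk p.1.2) :=
    DFn_comp (g := mk) hmk' (DFn_comp (g := fun p : S × S => p.2) DFn_snd DFn_fst)
  have hthd : DFn U' (fun p : (S × S) × S => mk p.2) := DFn_comp (g := mk) hmk' DFn_snd
  have hm3 : DFn U' (fun p : (S × S) × S => ((mk p.1.1, mk p.1.2), mk p.2)) :=
    DFn_pair (DFn_pair hfst hsnd) hthd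
  -- operations
  have key : ∀ op : L.K → L.K → L.K,
      U.D {p : S × S × S | p.1 ∈ X ∧ p.2.1 ∈ X ∧ p.2.2 ∈ X ∧ op (L.f p.1) (L.f p.2.1) = L.f p.2.2} →
      @RU.D M' U' ((L.K × L.K) × L.K) (@codProd M' (L.K × L.K) L.K (@codProd M' _ _ cK cK) cK)
        {p | p.2 = op p.1.1 p.1.2} := by
    intro op hop
    have h1 := DFn_image hm3 ((hS.2.2.1.D _).2 (D_assoc hop))
    unfold RU.D at h1 ⊢
    have e1 : @Cod.c M' ((L.K × L.K) × L.K)
        (@codProd M' (L.K × L.K) L.K (@codProd M' _ _ cK cK) cK) '' {p | p.2 = op p.1.1 p.1.2} =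
        Cod.c (M := M') '' ((fun p : (S × S) × S => ((mk p.1.1, mk p.1.2), mk p.2)) ''
          {p : (S × S) × S | (p.1.1, p.1.2, p.2) ∈ {p : S × S × S | p.1 ∈ X ∧ p.2.1 ∈ X ∧
            p.2.2 ∈ X ∧ op (L.f p.1) (L.f p.2.1) = L.f p.2.2}}) := by
      have e2 : ((fun p : (S × S) × S => ((mk p.1.1, mk p.1.2), mk p.2)) ''
          {p : (S × S) × S | (p.1.1, p.1.2, p.2) ∈ {p : S × S × S | p.1 ∈ X ∧ p.2.1 ∈ X ∧
            p.2.2 ∈ X ∧ op (L.f p.1) (L.f p.2.1) = L.f p.2.2}}) =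
          (fun p : (L.K × L.K) × L.K => ((w p.1.1, w p.1.2), w p.2)) ''
            {p | p.2 = op p.1.1 p.1.2} := by
        ext r
        constructor
        · rintro ⟨p, ⟨h1, h2, h3, h4⟩, rfl⟩
          refine ⟨((L.f p.1.1, L.f p.1.2), L.f p.2), h4.symm, ?_⟩
          show ((w (L.f p.1.1), w (L.f p.1.2)), w (L.f p.2)) = ((mk p.1.1, mk p.1.2), mk p.2)
          rw [hwm _ h1, hwm _ h2, hwm _ h3]
        · rintro ⟨p, hp, rfl⟩
          refine ⟨((sec p.1.1, sec p.1.2), sec p.2), ⟨hsX _, hsX _, hsX _, ?_⟩, rfl⟩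
          show op (L.f (sec p.1.1)) (L.f (sec p.1.2)) = L.f (sec p.2)
          rw [hsf, hsf, hsf]
          exact hp.symm
      rw [e2, image_image]
      rfl
    rw [e1]
    exact h1
  refine ⟨M', U', e0, h, cK, hCU', ?_, ?_⟩
  · refine @DF.mk M' U' L.K _ cK ⟨?_⟩ (key (fun a b => a + b) L.line.add)
      (key (fun a b => a * b) L.line.mul)
    have h1 := DFn_image hmk' hX'
    unfold RU.D at h1 ⊢
    have e1 : @Cod.c M' L.K cK '' (univ : Set L.K) = Cod.c (M := M') '' (mk '' X) := by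
      have e2 : mk '' X = w '' univ := by
        ext r
        constructor
        · rintro ⟨y, hy, rfl⟩
          exact ⟨L.f y, mem_univ _, (hwm y hy).symm⟩
        · rintro ⟨k, -, rfl⟩
          exact ⟨sec k, hsX k, rfl⟩
      rw [e2, image_image]
      rfl
    rw [e1]
    exact h1
  · have h1 := DFn_image (f := fun y : S => (y, mk y)) (DFn_pair DFn_id hmk') hX'
    unfold RU.D at h1 ⊢
    have e1 : @Cod.c M' (S × L.K) (@codProd M' S L.K (codE h.inj) cK) ''
        {p | p.1 ∈ X ∧ p.2 = L.f p.1} = Cod.c (M := M') '' ((fun y : S => (y, mk y)) '' X) := by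
      have e2 : (fun y : S => (y, mk y)) '' X =
          (fun p : S × L.K => (p.1, w p.2)) '' {p | p.1 ∈ X ∧ p.2 = L.f p.1} := by
        ext r
        constructor
        · rintro ⟨y, hy, rfl⟩
          refine ⟨(y, L.f y), ⟨hy, rfl⟩, ?_⟩
          show (y, w (L.f y)) = (y, mk y)
          rw [hwm y hy]
        · rintro ⟨p, ⟨h2, h3⟩, rfl⟩
          refine ⟨p.1, h2, ?_⟩
          show (p.1, mk p.1) = (p.1, w p.2)
          rw [hwm _ h2, h3]
      rw [e2, image_image]
      rfl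
    rw [e1]
    exact h1

end Pool.Agent.H78.S
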