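import Pool.Agent.H78.S.T8

set_option autoImplicit false

open Set Pool.Agent.H77.BC

namespace Pool.Agent.H78.S

theorem pf_LEX (hSBX : T_SBX) (hLXI : T_LXI) : T_LEX := by
  intro C hC M U hU G S _ _ _ _ _ _ hact H X T o e hc hs
  obtain ⟨G', S', i1, i2, i3, i4, T', o', e', i5, i6, hact', hc', hl, hs'⟩ :=
    hSBX U hact H X T o e hc
  exact hl (hLXI C hC _ U hU hact' (hs' hs) le_rfl T' o' e' hc')

end Pool.Agent.H78.S
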