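import Pool.Agent.H78.S.T8

/-!
# Row MAC of sgt_modules: infinite definable fields are algebraically closed
-/

set_option autoImplicit false

open Set Pool.Agent.H77.BC

namespace Pool.Agent.H78.S

theorem pf_MAC (hMCA : T_MCA) (hMCB : T_MCB) : T_MAC := by
  intro M U K _ _ _ _
  refine hMCA K fun L iL iA iF => ?_
  obtain ⟨c, hc⟩ := hMCB U K L
  have hi : Infinite L := Infinite.of_injective _ (algebraMap K L).injective
  exact Pool.Agent.H77.BCP.a_FSP U (K := L)

end Pool.Agent.H78.S
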