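import Pool.Agent.H78.S.T8

/-!
# Row MCB of sgt_modules: finite extensions of definable fields are definable
-/

set_option autoImplicit false

open Set Pool.Agent.H77.BC

namespace Pool.Agent.H78.S

theorem pf_MCB : T_MCB := by
  intro M U K L _ _ _ _ _ _
  let b := Module.finBasis K L
  let n := Module.finrank K L
  let F : L ≃ₗ[K] (Fin n → K) := b.equivFun
  let cL : Cod M L := ⟨Cod.ι M (Fin n → K), inferInstance, fun l => Cod.c (M := M) (F l),
    fun _ _ h => F.injective (Cod.inj (M := M) h)⟩
  have hful : Ful U L := ⟨by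
    have h := Ful.full (U := U) (α := Fin n → K)
    unfold RU.D at h ⊢
    have e : Cod.c (M := M) '' (univ : Set L) = Cod.c (M := M) '' (univ : Set (Fin n → K)) := by
      ext x
      constructor
      · rintro ⟨l, -, rfl⟩
        exact ⟨F l, mem_univ _, rfl⟩
      · rintro ⟨v, -, rfl⟩
        refine ⟨F.symm v, mem_univ _, ?_⟩
        show Cod.c (M := M) (F (F.symm v)) = _
        rw [F.apply_symm_apply]
    rw [e]
    exact h⟩
  have hF : DFn U (fun l : L => F l) := DFn_of_code (fun i => i) fun l => rfl
  have hG : DFn U (fun v : Fin n → K => F.symm v) := DFn_of_code (fun i => i) fun v => by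
    show Cod.c (M := M) (F (F.symm v)) = _
    rw [F.apply_symm_apply]
    rfl
  have h1 : ∀ i, DFn U (fun p : L × L => F p.1 i) := fun i =>
    DFn_comp (g := fun v : Fin n → K => v i) (DFn_apply i)
      (DFn_comp (g := fun l : L => F l) hF DFn_fst)
  have h2 : ∀ i, DFn U (fun p : L × L => F p.2 i) := fun i =>
    DFn_comp (g := fun v : Fin n → K => v i) (DFn_apply i)
      (DFn_comp (g := fun l : L => F l) hF DFn_snd)
  refine ⟨cL, ?_⟩
  refine @DF.mk M U L _ cL hful ?_ ?_
  · have e : (fun p : L × L => p.1 + p.2) = fun p => F.symm fun i => F p.1 i + F p.2 i := by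
      funext p
      rw [LinearEquiv.eq_symm_apply, map_add]
      rfl
    rw [e]
    exact DFn_comp (g := fun v : Fin n → K => F.symm v) hG
      (DFn_vec fun i => DFn_add (h1 i) (h2 i))
  · have e : (fun p : L × L => p.1 * p.2) = fun p => F.symm fun k =>
        ∑ i, ∑ j, F (b i * b j) k * (F p.1 i * F p.2 j) := by
      funext p
      rw [LinearEquiv.eq_symm_apply]
      funext k
      have e1 : p.1 * p.2 = ∑ i, ∑ j, (F p.1 i * F p.2 j) • (b i * b j) := by
        conv_lhs => rw [← b.sum_equivFun p.1, ← b.sum_equivFun p.2]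
        rw [Finset.sum_mul_sum]
        refine Finset.sum_congr rfl fun i _ => Finset.sum_congr rfl fun j _ => ?_
        rw [smul_mul_smul_comm]
      rw [e1, map_sum, Finset.sum_apply]
      refine Finset.sum_congr rfl fun i _ => ?_
      rw [map_sum, Finset.sum_apply]
      refine Finset.sum_congr rfl fun j _ => ?_
      rw [map_smul, Pi.smul_apply, smul_eq_mul, mul_comm]
    rw [e]
    exact DFn_comp (g := fun v : Fin n → K => F.symm v) hG (DFn_vec fun k =>
      DFn_sum _ fun i _ => DFn_sum _ fun j _ =>
        DFn_mul (DFn_const _) (DFn_mul (h1 i) (h2 j)))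

end Pool.Agent.H78.S
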