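import Pool.Agent.H78.S.T8
import Pool.Agent.H78.S.P24

/-!
# Theorem S (MP_9d0bb7_lc): row MLC
-/

set_option autoImplicit false

open Set Pool.Agent.H77.BC
open scoped Pointwise

namespace Pool.Agent.H78.S

/-- the elements which commute with `X` modulo the centre -/
def cmz {G : Type} [Group G] (X : Set G) : Subgroup G where
  carrier := {a | ∀ b ∈ X, a * b * a⁻¹ * b⁻¹ ∈ Subgroup.center G}
  one_mem' := fun b _ => by
    have : (1 : G) * b * 1⁻¹ * b⁻¹ = 1 := by group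
    rw [this]
    exact one_mem _
  mul_mem' := fun {a a'} ha ha' b hb => by
    have h1 := (inferInstance : (Subgroup.center G).Normal).conj_mem _ (ha' b hb) a
    have h2 := mul_mem h1 (ha b hb)
    have h3 : a * (a' * b * a'⁻¹ * b⁻¹) * a⁻¹ * (a * b * a⁻¹ * b⁻¹) =
        a * a' * b * (a * a')⁻¹ * b⁻¹ := by group
    rwa [h3] at h2
  inv_mem' := fun {a} ha b hb => by
    have h1 := (inferInstance : (Subgroup.center G).Normal).conj_mem _ (inv_mem (ha b hb)) a⁻¹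
    have h2 : a⁻¹ * (a * b * a⁻¹ * b⁻¹)⁻¹ * a⁻¹⁻¹ = a⁻¹ * b * a⁻¹⁻¹ * b⁻¹ := by group
    rwa [h2] at h1

theorem cmz_conj {G : Type} [Group G] {X : Set G} (hX : ∀ g : G, ∀ b ∈ X, g * b * g⁻¹ ∈ X)
    (g a : G) (ha : a ∈ cmz X) : g * a * g⁻¹ ∈ cmz X := by
  intro b hb
  have h1 := ha _ (hX g⁻¹ b hb)
  have h2 := (inferInstance : (Subgroup.center G).Normal).conj_mem _ h1 g
  have h3 : g * (a * (g⁻¹ * b * g⁻¹⁻¹) * a⁻¹ * (g⁻¹ * b * g⁻¹⁻¹)⁻¹) * g⁻¹ =
      g * a * g⁻¹ * b * (g * a * g⁻¹)⁻¹ * b⁻¹ := by group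
  rwa [h3] at h2

theorem pf_MLC (hDET : T_DET) (kCLI : Pool.Agent.H77.KG.T_CLI) (kCCE : Pool.Agent.H77.KG.T_CCE)
    (kCTD : Pool.Agent.H77.KG.T_CTD) (kFCJ : Pool.Agent.H77.KG.T_FCJ) : T_MLC := by
  intro M U G V _ _ _ _ _ _ _ _ hfa hinf hconn hsol hsimp
  obtain ⟨F, hFf, hF⟩ := hDET U (G := G) (V := V) hfa hinf hconn hsimp
  obtain ⟨t1, t2, -, -⟩ := kCTD U (Γ := G)
  by_contra hcon
  have hZ : ¬ (⊤ : Subgroup G) ≤ Subgroup.center G := by
    intro h
    refine hcon fun a b => ?_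
    exact (Subgroup.mem_center_iff.1 (h (Subgroup.mem_top b)) a)
  -- the last derived group which is not central
  obtain ⟨s, hs⟩ := (Group.isSolvable_def G).1 hsol
  classical
  have hex : ∃ m, derivedSeries G m ≤ Subgroup.center G := ⟨s, by rw [hs]; exact bot_le⟩
  have hm := Nat.find_spec hex
  have hm0 : Nat.find hex ≠ 0 := by
    intro h
    rw [h, derivedSeries_zero] at hm
    exact hZ hm
  obtain ⟨i, hi⟩ := Nat.exists_eq_succ_of_ne_zero hm0
  have hN0 : ¬ derivedSeries G i ≤ Subgroup.center G := Nat.find_min hex (by omega)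
  rw [hi, Nat.succ_eq_add_one, derivedSeries_succ] at hm
  set N0 := derivedSeries G i with hN0def
  have hN0n : ∀ g : G, ∀ b ∈ (N0 : Set G), g * b * g⁻¹ ∈ (N0 : Set G) := fun g b hb =>
    (inferInstance : (derivedSeries G i).Normal).conj_mem b hb g
  let A1 : Subgroup G := cmz (N0 : Set G)
  have hA1n : ∀ g : G, ∀ b ∈ (A1 : Set G), g * b * g⁻¹ ∈ (A1 : Set G) := fun g b hb =>
    cmz_conj hN0n g b hb
  let N : Subgroup G := A1 ⊓ cmz (A1 : Set G)
  have hNn : ∀ g b : G, b ∈ N → g * b * g⁻¹ ∈ N := fun g b hb =>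
    ⟨hA1n g b hb.1, cmz_conj hA1n g b hb.2⟩
  have hNnorm : N.Normal := ⟨fun b hb g => hNn g b hb⟩
  have hcD : U.D ((Subgroup.center G : Subgroup G) : Set G) := by
    rw [← Subgroup.centralizer_univ]
    exact t1 _
  have hND : U.D (N : Set G) := D_inter (t2 (Subgroup.center G) hcD (N0 : Set G))
    (t2 (Subgroup.center G) hcD (A1 : Set G))
  have hN0N : N0 ≤ N := by
    intro a ha
    have h1 : a ∈ A1 := fun b hb => hm (Subgroup.commutator_mem_commutator ha hb)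
    refine ⟨h1, fun b hb => ?_⟩
    have h2 := inv_mem (hb a ha)
    have h3 : (b * a * b⁻¹ * a⁻¹)⁻¹ = a * b * a⁻¹ * b⁻¹ := by group
    rwa [h3] at h2
  have hcomm : ∀ a ∈ N, ∀ b ∈ N, a * b * a⁻¹ * b⁻¹ ∈ Subgroup.center G :=
    fun a ha b hb => ha.2 b hb.1
  -- minimality
  have hMn : Pool.Agent.H77.KG.Mn U (⊤ : Subgroup G) (⊤ : AddSubgroup V) := by
    refine ⟨?_, fun _ _ _ _ => AddSubgroup.mem_top _, ?_, ?_⟩
    · rw [AddSubgroup.coe_top]
      exact Ful.full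
    · rw [AddSubgroup.coe_top]
      exact infinite_univ
    · intro A _ hA hA' hne
      rcases hsimp A hA hA' with h | h
      · rw [h]
        exact finite_singleton _
      · exact (hne h).elim
  have hfin : ∀ (S : Set G) (a : G), (∀ g ∈ S, g * a * g⁻¹ * a⁻¹ ∈ Subgroup.center G) →
      {y : G | ∃ g ∈ S, y = g * a * g⁻¹}.Finite := by
    intro S a h
    refine (hFf.image fun c => c * a).subset ?_
    rintro y ⟨g, hg, rfl⟩
    refine ⟨g * a * g⁻¹ * a⁻¹, hF g a _ (fun z => ?_) (by group), by group⟩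
    exact (Subgroup.mem_center_iff.1 (h g hg) z).symm
  obtain ⟨hCc, hCN, -, hCi, -, hCg⟩ := kCCE U N hND
  set C := Pool.Agent.H77.KG.cc U N with hC
  have hCa : ∀ a ∈ N, ∀ g ∈ C, g * a = a * g := fun a ha =>
    kFCJ U C a hCc (hfin _ a fun g hg => hcomm g (hCN hg) a ha)
  have hCn : C.Normal := ⟨fun b hb g => (hCg g (fun x => ⟨hNn g x, fun h => by
    have h1 := hNn g⁻¹ _ h
    have h2 : g⁻¹ * (g * x * g⁻¹) * g⁻¹⁻¹ = x := by group
    rwa [h2] at h1⟩) b).1 hb⟩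
  have hCcen : ∀ t ∈ C, ∀ g : G, g * t = t * g := by
    intro t ht g
    have h1 : g * t * g⁻¹ = t := FaithfulSMul.eq_of_smul_eq_smul (M := G) (α := V) fun v =>
      kCLI U (G := G) (V := V) hconn hMn C hCn hCc (fun a ha b hb => hCa b (hCN hb) a ha) g t ht v
    calc g * t = g * t * g⁻¹ * g := by group
      _ = t * g := by rw [h1]
  have hfQ : Finite (N ⧸ C.subgroupOf N) := Nat.finite_of_card_ne_zero hCi
  have hNZ : N ≤ Subgroup.center G := by
    intro a ha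
    let K : Subgroup G :=
      { carrier := {g | g * a * g⁻¹ * a⁻¹ ∈ C}
        one_mem' := by
          have : (1 : G) * a * 1⁻¹ * a⁻¹ = 1 := by group
          show (1 : G) * a * 1⁻¹ * a⁻¹ ∈ C
          rw [this]
          exact one_mem _
        mul_mem' := by
          intro g h hg hh
          have h1 := mul_mem (hCn.conj_mem _ hh g) hg
          have h2 : g * (h * a * h⁻¹ * a⁻¹) * g⁻¹ * (g * a * g⁻¹ * a⁻¹) =
              g * h * a * (g * h)⁻¹ * a⁻¹ := by group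
          rw [h2] at h1
          exact h1
        inv_mem' := by
          intro g hg
          have h1 := hCn.conj_mem _ (inv_mem hg) g⁻¹
          have h2 : g⁻¹ * (g * a * g⁻¹ * a⁻¹)⁻¹ * g⁻¹⁻¹ = g⁻¹ * a * g⁻¹⁻¹ * a⁻¹ := by group
          rw [h2] at h1
          exact h1 }
    have hKD : U.D (K : Set G) := by
      have h1 : DFn U (fun t : G => t * a * t⁻¹ * a⁻¹) :=
        DFn_gmul (DFn_gmul (DFn_gmul DFn_id (DFn_const a)) (DFn_ginv DFn_id)) (DFn_const a⁻¹)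
      exact D_subst hCc.1 h1
    have hrel : K.relIndex ⊤ ≠ 0 := by
      refine relIndex_ne_of_map ⊤ K (fun g : G =>
        ((⟨g * a * g⁻¹, hNn g a ha⟩ : N) : N ⧸ C.subgroupOf N)) ?_
      intro g _ h _ hgh
      rw [QuotientGroup.eq] at hgh
      have h1 : (g * a * g⁻¹)⁻¹ * (h * a * h⁻¹) ∈ C := hgh
      have h2 := hCn.conj_mem _ h1 (a * g⁻¹)
      have h3 : a * g⁻¹ * ((g * a * g⁻¹)⁻¹ * (h * a * h⁻¹)) * (a * g⁻¹)⁻¹ =
          (g⁻¹ * h) * a * (g⁻¹ * h)⁻¹ * a⁻¹ := by group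
      rw [h3] at h2
      exact h2
    have hK : K = ⊤ := hconn.2 K le_top hKD ((l_GRA U ⊤ K hconn.1 hKD le_top).1 hrel)
    have hall : ∀ g : G, g * a * g⁻¹ * a⁻¹ ∈ C := by
      intro g
      have : g ∈ K := by
        rw [hK]
        exact Subgroup.mem_top g
      exact this
    have h1 := kFCJ U ⊤ a hconn (hfin _ a fun g _ => Subgroup.mem_center_iff.2 fun z =>
      hCcen _ (hall g) z)
    exact Subgroup.mem_center_iff.2 fun g => h1 g (Subgroup.mem_top g)
  exact hN0 (hN0N.trans hNZ)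

end Pool.Agent.H78.S
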