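import Pool.Agent.H78.S.T8

/-!
# Row QCX of sgt_modules: quotients of the situation of a line
-/

set_option autoImplicit false

open Set Pool.Agent.H77.BC
open Pool.Agent.H77.KG (Qt Ext codE Same)

namespace Pool.Agent.H78.S

namespace QCX

section one

variable {M : Type} {U : RU M} {G S G' S' : Type} [Group G] [MulAction G S] [Group G']
  [MulAction G' S'] [Cod M G] [Cod M S] [Cod M G'] [Cod M S'] [DG U G] [Ful U S] [DG U G']
  [Ful U S'] {p : G →* G'} {q : S → S'}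

theorem fib (hact : DFn U (fun p : G × S => p.1 • p.2)) (hQ : Qt U p q) {o : S}
    (htr : ∀ y : S, ∃ g : G, y = g • o) (b : S') :
    U.R {y : S | q y = b} = U.R {y : S | q y = q o} := by
  obtain ⟨y, rfl⟩ := hQ.sq b
  obtain ⟨g, rfl⟩ := htr y
  have hf : DFn U (fun y : S => g • y) :=
    DFn_comp (g := fun p : G × S => p.1 • p.2) (f := fun y : S => (g, y)) hact
      (DFn_pair (DFn_const g) DFn_id)
  have hD : U.D {y : S | q y = q o} := D_eqf hQ.dq (DFn_const _)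
  have h1 := (l_RKB U).inj hD hf ⟨o, rfl⟩ (fun a _ b _ h => MulAction.injective g h)
  rw [← h1]
  congr 1
  ext y
  constructor
  · intro hy
    refine ⟨g⁻¹ • y, ?_, smul_inv_smul g y⟩
    show q (g⁻¹ • y) = q o
    rw [hQ.eqv, show q y = q (g • o) from hy, hQ.eqv, ← mul_smul, ← map_mul, inv_mul_cancel,
      map_one, one_smul]
  · rintro ⟨z, hz, rfl⟩
    show q (g • z) = q (g • o)
    rw [hQ.eqv, hQ.eqv, show q z = q o from hz]

theorem rk (hact : DFn U (fun p : G × S => p.1 • p.2)) (hQ : Qt U p q) {o : S}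
    (htr : ∀ y : S, ∃ g : G, y = g • o) :
    U.R (univ : Set S) = U.R (univ : Set S') + U.R {y : S | q y = q o} := by
  have h := (l_RKB U).fib_eq (X := (univ : Set S)) (f := q) (n := U.R {y : S | q y = q o})
    Ful.full hQ.dq ⟨o, mem_univ _⟩ (fun b _ => by
      rw [← fib hact hQ htr b]
      congr 1
      ext y
      exact ⟨fun h => h.2, fun h => ⟨mem_univ _, h⟩⟩)
  rwa [image_univ, hQ.sq.range_eq] at h

theorem comap (hQ : Qt U p q) (N : Subgroup G') (hN : U.D (N : Set G')) :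
    U.D ((N.comap p : Subgroup G) : Set G) :=
  DFn_preim (Y := (N : Set G')) hQ.dp hN

theorem ctx (hact : DFn U (fun p : G × S => p.1 • p.2))
    (hact' : DFn U (fun p : G' × S' => p.1 • p.2)) (kHMI : Pool.Agent.H77.KG.T_HMI)
    (hCCB : T_CCB) (hIRI : T_IRI) (hORB : T_ORB) (hCTB : T_CTB) (hQ : Qt U p q)
    (hinf : Infinite S') (T : Subgroup G) (o e : S) (hc : Ctx U (⊤ : Subgroup G) univ T o e) :
    Ctx U (⊤ : Subgroup G') univ (cc U (Fx ⊤ (q o))) (q o) (q e) := by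
  obtain ⟨-, -, hirr, -, -, hTc, -, hTo, -, htr0, -⟩ := hCTB U hact ⊤ univ T o e hc
  have htr : ∀ y : S, ∃ g : G, y = g • o := fun y => by
    obtain ⟨g, -, h⟩ := htr0 y (mem_univ _)
    exact ⟨g, h⟩
  have hmap : T.map p ≤ cc U (Fx ⊤ (q o)) := by
    have hT' : Conn U (T.map p) := by
      have hT2 : U.D (T : Set G) := hTc.1
      exact ((kHMI U p hQ.dp).1 T hT2).2.2 hTc
    have hD : U.D ((Fx ⊤ (q o) : Subgroup G') : Set G') :=
      (hORB U hact' ⊤ (q o) (by rw [Subgroup.coe_top]; exact Ful.full)).2.1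
    refine (hCCB U (Fx ⊤ (q o)) (T.map p) hD hT' ?_).1
    rintro _ ⟨t, ht, rfl⟩
    refine ⟨Subgroup.mem_top _, ?_⟩
    show p t • q o = q o
    rw [← hQ.eqv, hTo t ht]
  refine ⟨?_, ?_, rfl, mem_univ _, ?_, ?_⟩
  · have h1 := ((kHMI U p hQ.dp).1 ⊤ (by rw [Subgroup.coe_top]; exact Ful.full)).2.2 hc.conn
    rwa [Subgroup.map_top_of_surjective p hQ.sp] at h1
  · symm
    rw [eq_univ_iff_forall]
    intro y'
    obtain ⟨y, rfl⟩ := hQ.sq y'
    obtain ⟨g, rfl⟩ := htr y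
    exact ⟨p g, Subgroup.mem_top _, hQ.eqv g o⟩
  · have h1 := (hIRI U (univ : Set S) q (U.R {y : S | q y = q o}) hirr hQ.dq (fun b _ => by
      rw [← fib hact hQ htr b]
      congr 1
      ext y
      exact ⟨fun h => h.2, fun h => ⟨mem_univ _, h⟩⟩)).2.1 _ hc.gen
    rw [image_univ, hQ.sq.range_eq] at h1
    obtain ⟨Y, h2, h3, h4, h5, h6⟩ := h1
    refine ⟨Y, h2, h3, h4, h5.trans ?_, h6⟩
    rintro _ ⟨_, ⟨t, ht, rfl⟩, rfl⟩
    exact ⟨p t, hmap ⟨t, ht, rfl⟩, hQ.eqv t e⟩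
  · by_contra hlt
    have h0 : U.R (univ : Set S') = 0 := by omega
    have := ((l_RKA U).fin (Ful.full (U := U) (α := S')) ⟨q o, mem_univ _⟩).1 h0
    exact infinite_univ this

theorem line (hQ : Qt U p q) (o e : S)
    (hL : (Lines U (⊤ : Subgroup G') univ (q o) (q e)).Nonempty) :
    (Lines U (⊤ : Subgroup G) univ o e).Nonempty := by
  obtain ⟨E, ⟨L⟩⟩ := hL
  have h2 : DFn U (fun z : S × S => (q z.1, q z.2)) :=
    DFn_pair (DFn_comp (g := q) hQ.dq DFn_fst) (DFn_comp (g := q) hQ.dq DFn_snd)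
  have h3 : DFn U (fun z : S × S × S => (q z.1, q z.2.1, q z.2.2)) :=
    DFn_pair (DFn_comp (g := q) hQ.dq DFn_fst)
      (DFn_comp (g := fun z : S × S => (q z.1, q z.2)) h2 DFn_snd)
  refine ⟨Rel univ (fun y => L.f (q y)), ⟨⟨L.K, L.fld, fun y => L.f (q y), ?_, rfl⟩⟩⟩
  refine ⟨L.line.inf, ?_, ?_, ?_, ?_, L.line.f0, L.line.f1, ?_, ?_⟩
  · have h := DFn_preim h2 L.line.rel
    have e : Rel univ (fun y => L.f (q y)) = {z : S × S | (q z.1, q z.2) ∈ Rel univ L.f} := by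
      ext z
      exact ⟨fun h => ⟨mem_univ _, mem_univ _, h.2.2⟩, fun h => ⟨mem_univ _, mem_univ _, h.2.2⟩⟩
    rwa [e]
  · have h := DFn_preim h3 L.line.add
    have e : {z : S × S × S | z.1 ∈ (univ : Set S) ∧ z.2.1 ∈ (univ : Set S) ∧
        z.2.2 ∈ (univ : Set S) ∧ L.f (q z.1) + L.f (q z.2.1) = L.f (q z.2.2)} =
        {z : S × S × S | (q z.1, q z.2.1, q z.2.2) ∈
          {p : S' × S' × S' | p.1 ∈ (univ : Set S') ∧ p.2.1 ∈ (univ : Set S') ∧
            p.2.2 ∈ (univ : Set S') ∧ L.f p.1 + L.f p.2.1 = L.f p.2.2}} := by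
      ext z
      exact ⟨fun h => ⟨mem_univ _, mem_univ _, mem_univ _, h.2.2.2⟩,
        fun h => ⟨mem_univ _, mem_univ _, mem_univ _, h.2.2.2⟩⟩
    rwa [e]
  · have h := DFn_preim h3 L.line.mul
    have e : {z : S × S × S | z.1 ∈ (univ : Set S) ∧ z.2.1 ∈ (univ : Set S) ∧
        z.2.2 ∈ (univ : Set S) ∧ L.f (q z.1) * L.f (q z.2.1) = L.f (q z.2.2)} =
        {z : S × S × S | (q z.1, q z.2.1, q z.2.2) ∈
          {p : S' × S' × S' | p.1 ∈ (univ : Set S') ∧ p.2.1 ∈ (univ : Set S') ∧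
            p.2.2 ∈ (univ : Set S') ∧ L.f p.1 * L.f p.2.1 = L.f p.2.2}} := by
      ext z
      exact ⟨fun h => ⟨mem_univ _, mem_univ _, mem_univ _, h.2.2.2⟩,
        fun h => ⟨mem_univ _, mem_univ _, mem_univ _, h.2.2.2⟩⟩
    rwa [e]
  · intro k
    obtain ⟨y', -, hy⟩ := L.line.onto k
    obtain ⟨y, rfl⟩ := hQ.sq y'
    exact ⟨y, mem_univ _, hy⟩
  · intro h _
    obtain ⟨a, b, ha, hab⟩ := L.line.act (p h) (Subgroup.mem_top _)
    refine ⟨a, b, ha, fun y _ => ?_⟩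
    show L.f (q (h • y)) = _
    rw [hQ.eqv]
    exact hab (q y) (mem_univ _)
  · intro a b ha
    obtain ⟨h', -, hab⟩ := L.line.full a b ha
    obtain ⟨h, rfl⟩ := hQ.sp h'
    refine ⟨h, Subgroup.mem_top _, fun y _ => ?_⟩
    show L.f (q (h • y)) = _
    rw [hQ.eqv]
    exact hab (q y) (mem_univ _)

end one

section two

variable {M M' : Type} {U : RU M} {U' : RU M'} {G S : Type} [Group G] [MulAction G S] [Cod M G]
  [Cod M S] [DG U G] [Ful U S] [Cod M' G] [Cod M' S]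

theorem cc_same (hG : Same U U' G) (H : Subgroup G) : cc U' H = cc U H := by
  unfold cc
  congr 1
  ext L
  show (L ≤ H ∧ U'.D (L : Set G) ∧ L.relIndex H ≠ 0) ↔ (L ≤ H ∧ U.D (L : Set G) ∧ L.relIndex H ≠ 0)
  rw [hG.D]

theorem ctx_same (hG : Same U U' G) (hS : Same U U' S) (T : Subgroup G) (o e : S)
    (hc : Ctx U (⊤ : Subgroup G) univ T o e) : Ctx U' (⊤ : Subgroup G) univ T o e := by
  have hu : U'.R (univ : Set S) = U.R (univ : Set S) := hS.R _ Ful.full ⟨o, mem_univ _⟩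
  refine ⟨(hG.conn ⊤).2 hc.conn, hc.orb, ?_, hc.mem, ?_, ?_⟩
  · rw [cc_same hG]
    exact hc.comp
  · obtain ⟨Y, h1, h2, h3, h4, h5⟩ := hc.gen
    refine ⟨Y, (hS.D Y).2 h1, h2, h3, h4, ?_⟩
    rw [hu, hS.R Y h1 h2]
    exact h5
  · rw [hu]
    exact hc.pos

theorem line_same (hS2 : @Same M M' U U' (S × S) _ codProd)
    (hS3 : @Same M M' U U' ((S × S) × S) _ (@codProd M' (S × S) S codProd _))
    (o e : S) (hL : (Lines U' (⊤ : Subgroup G) univ o e).Nonempty) :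
    (Lines U (⊤ : Subgroup G) univ o e).Nonempty := by
  have key : ∀ Z : Set (S × S × S), U'.D Z → U.D Z := by
    intro Z hZ
    have h1 := (hS3.D _).1 (D_assoc hZ)
    have hf : DFn U (fun z : S × S × S => ((z.1, z.2.1), z.2.2)) :=
      DFn_pair (DFn_pair DFn_fst (DFn_comp (g := fun z : S × S => z.1) DFn_fst DFn_snd))
        (DFn_comp (g := fun z : S × S => z.2) DFn_snd DFn_snd)
    exact DFn_preim hf h1
  obtain ⟨E, ⟨L⟩⟩ := hL
  refine ⟨E, ⟨⟨L.K, L.fld, L.f, ⟨L.line.inf, (hS2.D _).1 L.line.rel, key _ L.line.add,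
    key _ L.line.mul, L.line.onto, L.line.f0, L.line.f1, L.line.act, L.line.full⟩, L.eq⟩⟩⟩

end two

end QCX

theorem pf_QCX (kEXA : Pool.Agent.H77.KG.T_EXA) (kEXB : Pool.Agent.H77.KG.T_EXB)
    (kHMI : Pool.Agent.H77.KG.T_HMI) (hCCA : T_CCA) (hCCB : T_CCB) (hIRI : T_IRI)
    (hORB : T_ORB) (hCTB : T_CTB) (hBGA : T_BGA) : T_QCX := by
  intro M M' U U' e0 h G S G' S' _ _ _ _ _ _ cG cS _ _ _ _ p q hact hact' hQ hinf T o e hc
  letI iG : Cod M' G := codE h.inj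
  letI iS : Cod M' S := codE h.inj
  haveI i1 : DG U' G := (kEXB U U' e0 h).2.2.1
  haveI i2 : Ful U' S := (kEXB U U' e0 h).1
  haveI i3 : Pool.Agent.H77.KG.DA U G S := ⟨hact⟩
  have hact2 : DFn U' (fun p : G × S => p.1 • p.2) := ((kEXB U U' e0 h).2.2.2.2 (G := G) (S := S)).act
  have hG : Same U U' G := (kEXA U U' e0 h (α := G) (β := G) (γ := G)).1
  have hS := kEXA U U' e0 h (α := S) (β := S) (γ := S)
  have hS1 : Same U U' S := hS.1
  have hc' : Ctx U' (⊤ : Subgroup G) univ T o e := QCX.ctx_same hG hS1 T o e hc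
  have hu : U'.R (univ : Set S) = U.R (univ : Set S) := hS1.R _ Ful.full ⟨o, mem_univ _⟩
  have htr : ∀ y : S, ∃ g : G, y = g • o := fun y => by
    have h1 : y ∈ Orb (⊤ : Subgroup G) o := by
      rw [← hc.orb]
      exact mem_univ _
    obtain ⟨g, -, h⟩ := h1
    exact ⟨g, h⟩
  have hrk := QCX.rk hact2 hQ htr
  rw [hu] at hrk
  refine ⟨QCX.ctx hact2 hact' kHMI hCCB hIRI hORB hCTB hQ hinf T o e hc',
    fun hL => QCX.line_same hS.2.1 hS.2.2.1 o e (QCX.line hQ o e hL), fun hs => ?_, by omega,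
    fun hi => ?_, fun N hN => (hG.D _).1 (QCX.comap hQ N hN)⟩
  · exact solvable_of_surjective hQ.sp
  · have h1 : U'.R {y : S | q y = q o} ≠ 0 := by
      intro h0
      have hD : U'.D {y : S | q y = q o} := D_eqf hQ.dq (DFn_const _)
      exact hi (((l_RKA U').fin hD ⟨o, rfl⟩).1 h0)
    omega

end Pool.Agent.H78.S
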