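import Pool.Agent.H1.S.LAU
import Pool.Agent.H17.SGT.LXI
import Pool.Agent.H44.S.CJM
import Pool.Agent.H44.S.KFD
import Pool.Agent.H78.S.AUF
import Pool.Agent.H78.S.DET
import Pool.Agent.H78.S.LCD
import Pool.Agent.H78.S.LEX
import Pool.Agent.H78.S.LMC
import Pool.Agent.H78.S.MAC
import Pool.Agent.H78.S.MCB
import Pool.Agent.H78.S.MLC
import Pool.Agent.H78.S.QCX
import Pool.Agent.H79.SGT.MCA
import Pool.Agent.H89.S.LX0
import Pool.Agent.H94.S.SBX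
import Pool.Agent.H78.S.Fin8

/-!
# Theorem S (MP_9d0bb7_lc): all rows of board sgt_modules, part I
-/

set_option autoImplicit false

namespace Pool.Agent.H78.S

theorem rows8 : Rows8 where
  MCA := Pool.Agent.H79.SGT.pf_MCA
  MCB := Pool.Agent.H78.S.pf_MCB
  MAC := Pool.Agent.H78.S.pf_MAC
  AUF := Pool.Agent.H78.S.pf_AUF
  LCD := Pool.Agent.H78.S.pf_LCD
  LMC := Pool.Agent.H78.S.pf_LMC
  LAU := Pool.Agent.H1.S.pf_LAU
  KFD := Pool.Agent.H44.S.pf_KFD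
  DET := Pool.Agent.H78.S.pf_DET
  MLC := Pool.Agent.H78.S.pf_MLC
  CJM := Pool.Agent.H44.S.pf_CJM
  LX0 := Pool.Agent.H89.S.pf_LX0
  QCX := Pool.Agent.H78.S.pf_QCX
  LXI := Pool.Agent.H17.SGT.pf_LXI
  SBX := Pool.Agent.H94.S.pf_SBX
  LEX := Pool.Agent.H78.S.pf_LEX

end Pool.Agent.H78.S
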