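import Pool.Agent.H78.S.Fin3
import Pool.Agent.H78.S.All
import Pool.Agent.H78.S.KgAll
import Pool.Agent.H78.S.R8All

/-!
# Theorem S (MP_9d0bb7_lc): the theorem in the terms of the library, without hypotheses
-/

set_option autoImplicit false

open Set Pool.Agent.H77.BC

namespace Pool.Agent.H78.S

theorem final (C : ∀ M : Type, RU M → Prop) (hC : Pool.Agent.H77.KG.QClosed C) {G S : Type}
    [Group G] [MulAction G S] (U : RU (G ⊕ S)) (hU : C (G ⊕ S) U) (hP : PG G S U) {n : ℕ}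
    (x : Fin (n + 2) → S) (hF : Frm U G x)
    (h : (∃ i j, i ≠ j ∧ ∃ L : Subgroup G, U.D (L : Set G) ∧ L ≤ St G x {i, j}ᶜ ∧
        L.relIndex (St G x {i, j}ᶜ) ≠ 0 ∧ Group.IsSolvable L) ∨
      ∃ i, ∃ L : Subgroup G, U.D (L : Set G) ∧ L ≤ St G x {i}ᶜ ∧
        L.relIndex (St G x {i}ᶜ) ≠ 0 ∧ Com L) :
    ∃ (K : Type) (_ : Field K), IsAlgClosed K ∧ NatAct G S K n :=
  core2 closed U hP x hF (ifc closed kgc rows8 C hC U hU) h

end Pool.Agent.H78.S
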