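import Pool.Agent.H77.BCP.RKA
import Pool.Agent.H77.BCP.RKB
import Pool.Agent.H60.BCP.GRA
import Pool.Agent.H68.BCP.GRD
import Pool.Agent.H5.BCP.GRC
import Pool.Agent.H49.BCP.GRB
import Pool.Agent.H5.BCP.CNA
import Pool.Agent.H5.BCP.CNJ
import Pool.Agent.H77.BCP.DEG

/-!
# Theorem S (MP_9d0bb7_lc): the landed facts about ranks and definable groups, without hypotheses
-/

set_option autoImplicit false

open Pool.Agent.H77.BC

namespace Pool.Agent.H78.S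

variable {M : Type} (U : RU M)

theorem l_RKA : RKA U := Pool.Agent.H77.BCP.pf_RKA U
theorem l_RKB : RKB U := Pool.Agent.H77.BCP.pf_RKB U (l_RKA U)
theorem l_GRA : GRA U := Pool.Agent.H60.BCP.pf_GRA U (l_RKA U) (l_RKB U)
theorem l_GRD : GRD U := Pool.Agent.H68.BCP.pf_GRD U (l_RKA U) (l_RKB U) (l_GRA U)
theorem l_GRC : GRC U := Pool.Agent.H5.BCP.pf_GRC U (l_RKA U) (l_RKB U)
theorem l_GRB : GRB U := Pool.Agent.H49.BCP.pf_GRB U (l_RKA U) (l_RKB U)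
theorem l_CNA : CNA U := Pool.Agent.H5.BCP.pf_CNA U (l_RKA U) (l_RKB U)
theorem l_CNJ : CNJ U := Pool.Agent.H5.BCP.pf_CNJ U (l_CNA U)
theorem l_DEG : DEG U := Pool.Agent.H77.BCP.pf_DEG U (l_RKA U) (l_RKB U) (l_GRA U)

end Pool.Agent.H78.S
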