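import Pool.Agent.H78.S.Targets

/-!
# Theorem S (MP_9d0bb7_lc): the rows of the board as one structure
-/

set_option autoImplicit false

namespace Pool.Agent.H78.S

/-- the rows -/
structure Rows : Prop where
  FGB : T_FGB
  FGA : T_FGB → T_FGA
  NUM : T_NUM
  INV : T_INV
  HFI : T_HFI
  BRA : T_BRA
  AGN : T_AGN
  AGA : T_AGN → T_AGA
  TRS : T_TRS
  TRJ : T_TRJ
  SOL : T_SOL
  BGA : T_BGA
  IRP : T_BGA → T_IRP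
  IRI : T_BGA → T_IRI
  IRG : T_BGA → T_IRG
  FPW : T_IRP → T_IRI → T_FPW
  CCA : T_CCA
  CCB : T_CCA → T_CCB
  CCJ : T_CCJ
  CFN : T_CFN
  CFI : T_CFI
  ORB : T_BGA → T_IRI → T_IRG → T_ORB
  ORM : T_ORM
  STD : T_STD
  IDX : T_IDX
  ITP : T_BGA → T_IRG → T_IRP → T_ITP
  ITV : T_BGA → T_IRG → T_IRP → T_ITV
  ITW : T_BGA → T_IRG → T_IRP → T_ITW
  RNK : T_FPW → T_IRI → T_ORB → T_STD → T_BGA → T_RNK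
  GEN : T_RNK → T_STD → T_ORB → T_GEN
  ZER : T_BGA → T_IRP → T_CCA → T_CCJ → T_CFN → T_ORB → T_ORM → T_IRG → T_ZER
  HIJ : T_RNK → T_GEN → T_CCA → T_CCB → T_STD → T_ORB → T_BGA → T_HIJ
  HIC : T_HIJ → T_ZER → T_ORB → T_HIC
  SWP : T_HIJ → T_RNK → T_IRP → T_BGA → T_ORB → T_STD → T_SWP
  SYM : T_SWP → T_SYM
  CJH : T_CCJ → T_STD → T_ORM → T_CJH
  CTB : T_ORB → T_CCA → T_BGA → T_ORM → T_CTB
  LNK : T_CTB → T_STD → T_LNK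
  LNU : T_CTB → T_LNU
  LMV : T_ORM → T_LMV
  IN1 : T_CTB → T_LNK → T_AGA → T_IN1
  IN2 : T_CTB → T_LNK → T_BGA → T_IDX → T_ORB → T_ORM → T_IN2
  INC : T_IN1 → T_IN2 → T_CTB → T_LNK → T_INC
  LRK : T_INC → T_CTB → T_LNK → T_IDX → T_LRK
  LFI : T_LRK → T_INC → T_CTB → T_LNK → T_LFI
  LCJ : T_CJH → T_LMV → T_LNU → T_HIC → T_LCJ
  P21 : T_LCJ → T_LFI → T_LNK → T_CTB → T_HIC → T_CJH → T_P21
  NTT : T_CTB → T_LNK → T_HIC → T_HIJ → T_SWP → T_CJH → T_BGA → T_ORM → T_RNK → T_NTT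
  LAB : T_LFI → T_LNK → T_LCJ → T_CJH → T_HIC → T_CTB → T_LAB
  RHO : T_LAB → T_SYM → T_LFI → T_LRK → T_LNK → T_LCJ → T_HIC → T_HIJ → T_RHO
  P24 : T_P21 → T_LAB → T_CFI → T_CCA → T_CCB → T_CCJ → T_HIJ → T_CJH → T_P24
  CAS : T_P24 → T_FGA → T_SYM → T_LCJ → T_LFI → T_HIC → T_HIJ → T_CAS
  P27 : T_P21 → T_NTT → T_SYM → T_LCJ → T_LFI → T_HIC → T_P27
  TAB : T_LAB → T_ZER → T_HIJ → T_CCA → T_CCB → T_CFN → T_BGA → T_TAB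
  CTI : T_ITG → T_CTB → T_ORM → T_CTI
  ABV : T_ITG → T_SOL → T_HIJ → T_CJH → T_SYM → T_ABV
  REG : T_CTB → T_BGA → T_ORM → T_ORB → T_CCA → T_REG
  RGX : T_RGX
  RGV : T_RGX → T_CTB → T_IRG → T_BGA → T_ORM → T_RGV
  IDA : T_CTB → T_IDA
  IDB : T_IDB
  IDE : T_IDA → T_IDB → T_IDE
  ULF : T_ULF
  MXL : T_IDE → T_CTB → T_ULF → T_MXL
  LIM : T_CTB → T_LIM
  RIN : T_CTI → T_REG → T_RGV → T_IDE → T_MXL → T_LIM → T_CTB → T_LNK → T_RIN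
  TQB : T_CTI → T_REG → T_RGV → T_IDE → T_MXL → T_TRJ → T_CTB → T_TQB
  N26 : T_TRS → T_LAB → T_LNK → T_LFI → T_HIC → T_HIJ → T_CTB → T_IDX → T_N26
  COO : T_INC → T_HIC → T_CTB → T_LNK → T_COO
  FAI : T_P21 → T_HIC → T_FAI
  OMG : T_FAI → T_SYM → T_SWP → T_LCJ → T_HIJ → T_HIC → T_OMG
  TEK : T_COO → T_LNK → T_HIC → T_HIJ → T_CTB → T_LRK → T_IDX → T_TEK
  DIC : T_COO → T_TEK → T_LCJ → T_CJH → T_HIC → T_LNK → T_CTB → T_LRK → T_IRG → T_BGA → T_SYM →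
    T_DIC
  SHK : T_DIC → T_TEK → T_LCJ → T_SHK
  SPA : T_FAI → T_COO → T_LNK → T_LCJ → T_CJH → T_HIC → T_CTB → T_SYM → T_TEK → T_SPA
  SPB : T_SPA → T_P21 → T_NTT → T_FAI → T_LCJ → T_LFI → T_HIC → T_SYM → T_SPB
  KAP : T_SHK → T_SPB → T_LCJ → T_SYM → T_TEK → T_KAP
  TIJ : T_DIC → T_TEK → T_LCJ → T_CJH → T_TIJ
  PHA : T_COO → T_TEK → T_TIJ → T_LNK → T_CJH → T_HIC → T_CTB → T_IRG → T_BGA → T_PHA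
  PHI : T_COO → T_TEK → T_TIJ → T_LNK → T_CJH → T_HIC → T_CTB → T_IRG → T_BGA → T_PHI
  FUN : T_PHA → T_INV → T_PHI → T_HFI → T_HIC → T_LNK → T_FUN
  SW2 : T_P21 → T_LCJ → T_LNU → T_COO → T_BRA → T_CJH → T_HIC → T_LNK → T_SW2
  CRD : T_KAP → T_FUN → T_SW2 → T_COO → T_LNK → T_HIC → T_CJH → T_CRD
  PRD : T_RNK → T_CJH → T_SYM → T_HIJ → T_PRD
  GMA : T_RNK → T_BGA → T_ORM → T_HIC → T_GMA
  GMG : T_GMA → T_HIC → T_HIJ → T_SYM → T_GMG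
  HYP : T_GMA → T_GMG → T_RNK → T_BGA → T_ORM → T_HIC → T_HYP
  GMB : T_HYP → T_BGA → T_RNK → T_ZER → T_GMA → T_GMB
  GMT : T_PRD → T_GMG → T_GMA → T_CJH → T_IRG → T_GMT
  PSI : T_PSI

/-- the closed targets -/
structure Clo : Prop where
  FGB : T_FGB
  FGA : T_FGA
  NUM : T_NUM
  INV : T_INV
  HFI : T_HFI
  BRA : T_BRA
  AGN : T_AGN
  AGA : T_AGA
  TRS : T_TRS
  TRJ : T_TRJ
  SOL : T_SOL
  BGA : T_BGA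
  IRP : T_IRP
  IRI : T_IRI
  IRG : T_IRG
  FPW : T_FPW
  CCA : T_CCA
  CCB : T_CCB
  CCJ : T_CCJ
  CFN : T_CFN
  CFI : T_CFI
  ORB : T_ORB
  ORM : T_ORM
  STD : T_STD
  IDX : T_IDX
  ITP : T_ITP
  ITV : T_ITV
  ITW : T_ITW
  RNK : T_RNK
  GEN : T_GEN
  ZER : T_ZER
  HIJ : T_HIJ
  HIC : T_HIC
  SWP : T_SWP
  SYM : T_SYM
  CJH : T_CJH
  CTB : T_CTB
  LNK : T_LNK
  LNU : T_LNU
  LMV : T_LMV
  IN1 : T_IN1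
  IN2 : T_IN2
  INC : T_INC
  LRK : T_LRK
  LFI : T_LFI
  LCJ : T_LCJ
  P21 : T_P21
  NTT : T_NTT
  LAB : T_LAB
  RHO : T_RHO
  P24 : T_P24
  CAS : T_CAS
  P27 : T_P27
  TAB : T_TAB
  CTI : T_CTI
  ABV : T_ABV
  REG : T_REG
  RGX : T_RGX
  RGV : T_RGV
  IDA : T_IDA
  IDB : T_IDB
  IDE : T_IDE
  ULF : T_ULF
  MXL : T_MXL
  LIM : T_LIM
  RIN : T_RIN
  TQB : T_TQB
  N26 : T_N26
  COO : T_COO
  FAI : T_FAI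
  OMG : T_OMG
  TEK : T_TEK
  DIC : T_DIC
  SHK : T_SHK
  SPA : T_SPA
  SPB : T_SPB
  KAP : T_KAP
  TIJ : T_TIJ
  PHA : T_PHA
  PHI : T_PHI
  FUN : T_FUN
  SW2 : T_SW2
  CRD : T_CRD
  PRD : T_PRD
  GMA : T_GMA
  GMG : T_GMG
  HYP : T_HYP
  GMB : T_GMB
  GMT : T_GMT
  PSI : T_PSI
  ITG : T_ITG

end Pool.Agent.H78.S
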