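import Pool.Agent.H78.S.D2

/-!
# Theorem S (MP_9d0bb7_lc), page H78_S.md: targets 2 (frames) and 3 (lines)
-/

set_option autoImplicit false

open Set Pool.Agent.H77.BC
open scoped Pointwise

namespace Pool.Agent.H78.S

/-! ## Frames -/

/-- ZER: an element which fixes all points of a set of full rank is 1 -/
def T_ZER : Prop := ∀ {M : Type} (U : RU M) {G S : Type} [Group G] [MulAction G S] [Cod M G]
  [Cod M S] {n : ℕ} (x : Fin (n + 2) → S), Frm U G x →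
  ∀ g : G, (∃ Z : Set S, Big U univ Z ∧ ∀ y ∈ Z, g • y = y) → g = 1

/-- RNK: ranks of the stabilisers -/
def T_RNK : Prop := ∀ {M : Type} (U : RU M) {G S : Type} [Group G] [MulAction G S] [Cod M G]
  [Cod M S] {n : ℕ} (x : Fin (n + 2) → S), Frm U G x →
  Irr U (univ : Set S) ∧ ∀ A : Set (Fin (n + 2)),
    U.R (St G x A : Set G) + n * A.ncard = U.R (univ : Set G)

/-- GEN: orbits of full rank -/
def T_GEN : Prop := ∀ {M : Type} (U : RU M) {G S : Type} [Group G] [MulAction G S] [Cod M G]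
  [Cod M S] {n : ℕ} (x : Fin (n + 2) → S), Frm U G x →
  ∀ (A : Set (Fin (n + 2))) (c : Fin (n + 2)), c ∉ A → ∀ H : Subgroup G, U.D (H : Set G) →
    H ≤ St G x A → U.R (St G x A : Set G) ≤ U.R (H : Set G) →
    Big U (univ : Set S) (Orb H (x c)) ∧ U.R (Fx H (x c) : Set G) + n = U.R (H : Set G)

/-- HIJ: the groups `HH` and `TT` -/
def T_HIJ : Prop := ∀ {M : Type} (U : RU M) {G S : Type} [Group G] [MulAction G S] [Cod M G]
  [Cod M S] {n : ℕ} (x : Fin (n + 2) → S), Frm U G x →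
  ∀ i j : Fin (n + 2), i ≠ j → Conn U (HH U G x i j) ∧ Conn U (TT U G x i) ∧
    HH U G x i j = HH U G x j i ∧
    (∀ l, l ≠ i → l ≠ j → ∀ h ∈ HH U G x i j, h • x l = x l) ∧
    Orb (HH U G x i j) (x i) = Orb (HH U G x i j) (x j) ∧
    Big U (univ : Set S) (Orb (HH U G x i j) (x i)) ∧
    TT U G x i ≤ HH U G x i j ∧ TT U G x i = cc U (Fx (HH U G x i j) (x j)) ∧
    Big U (univ : Set S) (Orb (TT U G x i) (x i)) ∧
    (∀ l, l ≠ i → ∀ t ∈ TT U G x i, t • x l = x l) ∧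
    U.R (HH U G x i j : Set G) + n * n = U.R (univ : Set G) ∧
    U.R (TT U G x i : Set G) + n * (n + 1) = U.R (univ : Set G) ∧
    U.R (Fx (TT U G x i) (x i) : Set G) + n = U.R (TT U G x i : Set G)

/-- HIC: the situation of a line -/
def T_HIC : Prop := ∀ {M : Type} (U : RU M) {G S : Type} [Group G] [MulAction G S] [Cod M G]
  [Cod M S] {n : ℕ} (x : Fin (n + 2) → S), Frm U G x →
  ∀ i : Fin (n + 2), i ≠ 0 → Ctx U (HH U G x 0 i) (XX U G x i) (TT U G x 0) (x i) (x 0) ∧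
    Big U univ (XX U G x i) ∧ ∀ g : G, (∀ y ∈ XX U G x i, g • y = y) → g = 1

/-- SWP: transpositions -/
def T_SWP : Prop := ∀ {M : Type} (U : RU M) {G S : Type} [Group G] [MulAction G S] [Cod M G]
  [Cod M S] {n : ℕ} (x : Fin (n + 2) → S), Frm U G x →
  ∀ i j : Fin (n + 2), i ≠ j → ∃ w ∈ HH U G x i j, Pm x w (Equiv.swap i j)

/-- SYM: permutations of the points -/
def T_SYM : Prop := ∀ {M : Type} (U : RU M) {G S : Type} [Group G] [MulAction G S] [Cod M G]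
  [Cod M S] {n : ℕ} (x : Fin (n + 2) → S), Frm U G x →
  (∀ g h : G, ∀ σ τ : Equiv.Perm (Fin (n + 2)), Pm x g σ → Pm x h τ →
    Pm x (g * h) (σ * τ) ∧ Pm x g⁻¹ σ⁻¹) ∧ ∀ σ : Equiv.Perm (Fin (n + 2)), ∃ g : G, Pm x g σ

/-- CJH: conjugation -/
def T_CJH : Prop := ∀ {M : Type} (U : RU M) {G S : Type} [Group G] [MulAction G S] [Cod M G]
  [Cod M S] {n : ℕ} (x : Fin (n + 2) → S), Frm U G x →
  ∀ (g : G) (σ : Equiv.Perm (Fin (n + 2))), Pm x g σ →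
    (∀ i j, cj g⁻¹ (HH U G x i j) = HH U G x (σ i) (σ j)) ∧
    (∀ i, cj g⁻¹ (TT U G x i) = TT U G x (σ i)) ∧
    (σ 0 = 0 → ∀ i, g • XX U G x i = XX U G x (σ i)) ∧
    (σ 0 = 0 → g • Orb (TT U G x 0) (x 0) = Orb (TT U G x 0) (x 0))

/-! ## Lines -/

/-- CTB: first facts -/
def T_CTB : Prop := ∀ {M : Type} (U : RU M) {G S : Type} [Group G] [MulAction G S] [Cod M G]
  [Cod M S] [DG U G] [Ful U S], DFn U (fun p : G × S => p.1 • p.2) →
  ∀ (H : Subgroup G) (X : Set S) (T : Subgroup G) (o e : S), Ctx U H X T o e →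
  o ∈ X ∧ U.D X ∧ Irr U X ∧ U.D (H : Set G) ∧ U.D (T : Set G) ∧ Conn U T ∧ T ≤ H ∧
    (∀ t ∈ T, t • o = o) ∧ (∀ h ∈ H, ∀ y ∈ X, h • y ∈ X) ∧ (∀ y ∈ X, ∃ h ∈ H, y = h • o) ∧
    U.D (Orb T e) ∧ Orb T e ⊆ X ∧ U.R (Orb T e) = U.R X ∧
    U.R (T : Set G) = U.R X + U.R (Fx T e : Set G) ∧
    U.R (H : Set G) = U.R X + U.R (T : Set G) ∧
    ∀ h ∈ H, ∃ y ∈ Orb T e, h • y ∈ Orb T e

/-- LNK: the kernel of a line -/
def T_LNK : Prop := ∀ {M : Type} (U : RU M) {G S : Type} [Group G] [MulAction G S] [Cod M G]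
  [Cod M S] [DG U G] [Ful U S], DFn U (fun p : G × S => p.1 • p.2) →
  ∀ (H : Subgroup G) (X : Set S) (T : Subgroup G) (o e : S), Ctx U H X T o e →
  ∀ (E : Set (S × S)) (L : LB U H X o e E),
    (∀ t ∈ T, L.f (t • e) ≠ 0 ∧ ∀ y ∈ X, L.f (t • y) = L.f (t • e) * L.f y) ∧
    (∀ k : L.K, k ≠ 0 → ∃ t ∈ T, L.f (t • e) = k) ∧
    (∀ t, t ∈ kap T E ↔ t ∈ T ∧ L.f (t • e) = 1) ∧ Fx T e ≤ kap T E ∧ U.D E ∧
    U.D (kap T E : Set G) ∧ U.R (kap T E : Set G) + 1 ≤ U.R (T : Set G) ∧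
    (∀ y z, (y, z) ∈ E ↔ y ∈ X ∧ z ∈ X ∧ L.f y = L.f z) ∧
    ∀ w ∈ H, w • o = e → w • e = o → ∀ y ∈ X, L.f (w • y) = 1 - L.f y

/-- LNU: uniqueness of the field -/
def T_LNU : Prop := ∀ {M : Type} (U : RU M) {G S : Type} [Group G] [MulAction G S] [Cod M G]
  [Cod M S] [DG U G] [Ful U S], DFn U (fun p : G × S => p.1 • p.2) →
  ∀ (H : Subgroup G) (X : Set S) (T : Subgroup G) (o e : S), Ctx U H X T o e →
  ∀ (E : Set (S × S)) (L L' : LB U H X o e E), ∃ φ : L.K ≃+* L'.K, ∀ y ∈ X, L'.f y = φ (L.f y)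

/-- LMV: transport of lines -/
def T_LMV : Prop := ∀ {M : Type} (U : RU M) {G S : Type} [Group G] [MulAction G S] [Cod M G]
  [Cod M S] [DG U G] [Ful U S], DFn U (fun p : G × S => p.1 • p.2) →
  ∀ (H : Subgroup G) (X : Set S) (o e : S) (E : Set (S × S)) (L : LB U H X o e E) (g : G),
    (∃ (L' : LB U (cj g⁻¹ H) (g • X) (g • o) (g • e) (mv g E)) (φ : L.K ≃+* L'.K),
      ∀ y, L'.f y = φ (L.f (g⁻¹ • y))) ∧
    ∀ T : Subgroup G, kap (cj g⁻¹ T) (mv g E) = cj g⁻¹ (kap T E)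

/-- IN1: independence of lines, translations -/
def T_IN1 : Prop := ∀ {M : Type} (U : RU M) {G S : Type} [Group G] [MulAction G S] [Cod M G]
  [Cod M S] [DG U G] [Ful U S], DFn U (fun p : G × S => p.1 • p.2) →
  ∀ (H : Subgroup G) (X : Set S) (T : Subgroup G) (o e : S), Ctx U H X T o e →
  ∀ (t : ℕ) (E : Fin t → Set (S × S)) (L : ∀ j, LB U H X o e (E j)),
    (∀ u v : ∀ j, (L j).K, (∀ j, u j ≠ 0) →
      ∃ h ∈ H, ∀ j, ∀ y ∈ X, (L j).f (h • y) = u j * (L j).f y + v j) →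
    ∀ (E' : Set (S × S)) (L' : LB U H X o e E'), (∀ j, E' ≠ E j) → ∀ v : L'.K,
      ∃ g ∈ H, (∀ j, ∀ y ∈ X, (L j).f (g • y) = (L j).f y) ∧
        ∀ y ∈ X, L'.f (g • y) = L'.f y + v

/-- IN2: independence of lines, the group `T` -/
def T_IN2 : Prop := ∀ {M : Type} (U : RU M) {G S : Type} [Group G] [MulAction G S] [Cod M G]
  [Cod M S] [DG U G] [Ful U S], DFn U (fun p : G × S => p.1 • p.2) →
  ∀ (H : Subgroup G) (X : Set S) (T : Subgroup G) (o e : S), Ctx U H X T o e →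
  ∀ (t : ℕ) (E : Fin t → Set (S × S)) (L : ∀ j, LB U H X o e (E j)),
    (∀ u : ∀ j, (L j).K, (∀ j, u j ≠ 0) → ∃ s ∈ T, ∀ j, (L j).f (s • e) = u j) →
    ∀ (E' : Set (S × S)) (L' : LB U H X o e E'),
    (∀ (v : ∀ j, (L j).K) (v' : L'.K), ∃ h ∈ H,
      (∀ j, ∀ y ∈ X, (L j).f (h • y) = (L j).f y + v j) ∧
        ∀ y ∈ X, L'.f (h • y) = L'.f y + v') →
    ∀ u' : L'.K, u' ≠ 0 → ∃ s ∈ T, (∀ j, (L j).f (s • e) = 1) ∧ L'.f (s • e) = u'

/-- INA: independence of lines, the group `H` -/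
def T_INA : Prop := ∀ {M : Type} (U : RU M) {G S : Type} [Group G] [MulAction G S] [Cod M G]
  [Cod M S] [DG U G] [Ful U S], DFn U (fun p : G × S => p.1 • p.2) →
  ∀ (H : Subgroup G) (X : Set S) (T : Subgroup G) (o e : S), Ctx U H X T o e →
  ∀ (t : ℕ) (E : Fin t → Set (S × S)), Function.Injective E → ∀ L : ∀ j, LB U H X o e (E j),
    ∀ u v : ∀ j, (L j).K, (∀ j, u j ≠ 0) →
      ∃ h ∈ H, ∀ j, ∀ y ∈ X, (L j).f (h • y) = u j * (L j).f y + v j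

/-- INB: independence of lines, the points and the group `T` -/
def T_INB : Prop := ∀ {M : Type} (U : RU M) {G S : Type} [Group G] [MulAction G S] [Cod M G]
  [Cod M S] [DG U G] [Ful U S], DFn U (fun p : G × S => p.1 • p.2) →
  ∀ (H : Subgroup G) (X : Set S) (T : Subgroup G) (o e : S), Ctx U H X T o e →
  ∀ (t : ℕ) (E : Fin t → Set (S × S)), Function.Injective E → ∀ L : ∀ j, LB U H X o e (E j),
    (∀ u : ∀ j, (L j).K, ∃ y ∈ X, ∀ j, (L j).f y = u j) ∧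
    ∀ u : ∀ j, (L j).K, (∀ j, u j ≠ 0) → ∃ s ∈ T, ∀ j, (L j).f (s • e) = u j

/-- INC: independence of lines -/
def T_INC : Prop := T_INA ∧ T_INB

/-- LRK: ranks of kernels -/
def T_LRK : Prop := ∀ {M : Type} (U : RU M) {G S : Type} [Group G] [MulAction G S] [Cod M G]
  [Cod M S] [DG U G] [Ful U S], DFn U (fun p : G × S => p.1 • p.2) →
  ∀ (H : Subgroup G) (X : Set S) (T : Subgroup G) (o e : S), Ctx U H X T o e →
  ∀ (t : ℕ) (E : Fin t → Set (S × S)), Function.Injective E → (∀ j, E j ∈ Lines U H X o e) →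
    U.D ((T ⊓ ⨅ j, kap T (E j) : Subgroup G) : Set G) ∧
    U.R ((T ⊓ ⨅ j, kap T (E j) : Subgroup G) : Set G) +
      ∑ j, (U.R (T : Set G) - U.R (kap T (E j) : Set G)) = U.R (T : Set G)

/-- LFI: there are finitely many lines -/
def T_LFI : Prop := ∀ {M : Type} (U : RU M) {G S : Type} [Group G] [MulAction G S] [Cod M G]
  [Cod M S] [DG U G] [Ful U S], DFn U (fun p : G × S => p.1 • p.2) →
  ∀ (H : Subgroup G) (X : Set S) (T : Subgroup G) (o e : S), Ctx U H X T o e →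
  (Lines U H X o e).Finite ∧ (Lines U H X o e).ncard ≤ U.R X ∧ InjOn (kap T) (Lines U H X o e)

/-- LCJ: conjugation of the lines of a frame -/
def T_LCJ : Prop := ∀ {M : Type} (U : RU M) {G S : Type} [Group G] [MulAction G S] [Cod M G]
  [Cod M S] {n : ℕ} (x : Fin (n + 2) → S), Frm U G x →
  ∀ (g : G) (σ : Equiv.Perm (Fin (n + 2))), Pm x g σ → σ 0 = 0 → ∀ i, i ≠ 0 →
    ∀ E ∈ LL U G x i, mv g E ∈ LL U G x (σ i) ∧
      kap (TT U G x 0) (mv g E) = cj g⁻¹ (kap (TT U G x 0) E) ∧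
      ∀ (L : LF U G x i E) (L' : LF U G x (σ i) (mv g E)), ∃ φ : L.K ≃+* L'.K,
        ∀ y ∈ XX U G x i, g • y ∈ XX U G x (σ i) ∧ L'.f (g • y) = φ (L.f y)

/-- P21: elements which normalise a kernel -/
def T_P21 : Prop := ∀ {M : Type} (U : RU M) {G S : Type} [Group G] [MulAction G S] [Cod M G]
  [Cod M S] {n : ℕ} (x : Fin (n + 2) → S), Frm U G x →
  IFc U → ∀ (g : G) (σ : Equiv.Perm (Fin (n + 2))), Pm x g σ → σ 0 = 0 → ∀ i, i ≠ 0 → σ i = i →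
    ∀ E ∈ LL U G x i, cj g⁻¹ (kap (TT U G x 0) E) = kap (TT U G x 0) E →
      mv g E = E ∧ (∀ L : LF U G x i E, ∀ y ∈ XX U G x i, g • y ∈ XX U G x i ∧
        L.f (g • y) = L.f y) ∧
      ∀ t ∈ TT U G x 0, g * t * g⁻¹ ∈ TT U G x 0 ∧ g * t * g⁻¹ * t⁻¹ ∈ kap (TT U G x 0) E

/-- NTT: the multipliers of lines of different indices are not related by a field isomorphism -/
def T_NTT : Prop := ∀ {M : Type} (U : RU M) {G S : Type} [Group G] [MulAction G S] [Cod M G]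
  [Cod M S] {n : ℕ} (x : Fin (n + 2) → S), Frm U G x →
  ∀ i j : Fin (n + 2), i ≠ 0 → j ≠ 0 → i ≠ j → ∀ (E E' : Set (S × S)) (L : LF U G x i E)
    (L' : LF U G x j E') (φ : L.K ≃+* L'.K),
    ¬ ∀ t ∈ TT U G x 0, L'.f (t • x 0) = φ (L.f (t • x 0))

end Pool.Agent.H78.S
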