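import Pool.Agent.H78.S.D2

/-!
# Theorem S (MP_9d0bb7_lc), page H78_S.md: targets 4 (counting) and 5 (generic Ito, the ring)
-/

set_option autoImplicit false

open Set Pool.Agent.H77.BC
open scoped Pointwise

namespace Pool.Agent.H78.S

/-! ## Counting -/

/-- LAB: the groups `lam` -/
def T_LAB : Prop := ∀ {M : Type} (U : RU M) {G S : Type} [Group G] [MulAction G S] [Cod M G]
  [Cod M S] {n : ℕ} (x : Fin (n + 2) → S), Frm U G x →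
  ∀ J : Set (Fin (n + 2)), 0 ∉ J → U.D (lam U G x J : Set G) ∧ lam U G x J ≤ TT U G x 0 ∧
    (∀ t ∈ TT U G x 0, ∀ l ∈ lam U G x J, t * l * t⁻¹ ∈ lam U G x J) ∧
    (∀ a ∈ TT U G x 0, ∀ b ∈ TT U G x 0, a * b * a⁻¹ * b⁻¹ ∈ lam U G x J) ∧
    Fx (TT U G x 0) (x 0) ≤ lam U G x J ∧
    (∀ i ∈ J, ∀ E ∈ LL U G x i, lam U G x J ≤ kap (TT U G x 0) E) ∧
    (∀ J' : Set (Fin (n + 2)), J ⊆ J' → lam U G x J' ≤ lam U G x J) ∧
    (∀ J' : Set (Fin (n + 2)), lam U G x (J ∪ J') = lam U G x J ⊓ lam U G x J') ∧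
    ∀ (g : G) (σ : Equiv.Perm (Fin (n + 2))), Pm x g σ → σ 0 = 0 →
      cj g⁻¹ (lam U G x J) = lam U G x (σ '' J)

/-- RHO: the ranks of the groups `lam` -/
def T_RHO : Prop := ∀ {M : Type} (U : RU M) {G S : Type} [Group G] [MulAction G S] [Cod M G]
  [Cod M S] {n : ℕ} (x : Fin (n + 2) → S), Frm U G x →
  (∀ i, i ≠ 0 → (LL U G x i).Nonempty) → ∃ (s : ℕ) (r : ℕ → ℕ), 1 ≤ s ∧
    (∀ i, i ≠ 0 → (LL U G x i).Finite ∧ (LL U G x i).ncard = s) ∧ r 0 = 0 ∧ s ≤ r 1 ∧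
    r (n + 1) ≤ n ∧
    (∀ J : Set (Fin (n + 2)), 0 ∉ J →
      U.R (lam U G x J : Set G) + r J.ncard = U.R (TT U G x 0 : Set G)) ∧
    (∀ j, j ≤ n → r j ≤ r (j + 1)) ∧
    (∀ j, j + 1 ≤ n → r (j + 2) + r j ≤ r (j + 1) + r (j + 1)) ∧
    (r 1 = s → ∀ i, i ≠ 0 → ∀ E ∈ LL U G x i,
      U.R (kap (TT U G x 0) E : Set G) + 1 = U.R (TT U G x 0 : Set G))

/-- P24: elements which normalise the kernels for the indices in `J` -/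
def T_P24 : Prop := ∀ {M : Type} (U : RU M) {G S : Type} [Group G] [MulAction G S] [Cod M G]
  [Cod M S] {n : ℕ} (x : Fin (n + 2) → S), Frm U G x →
  IFc U → ∀ J : Set (Fin (n + 2)), 0 ∉ J →
    U.R (lam U G x J : Set G) ≤ U.R (lam U G x {0}ᶜ : Set G) →
    ∀ (p : G) (τ : Equiv.Perm (Fin (n + 2))), Pm x p τ → τ 0 = 0 → (∀ i ∈ J, τ i = i) →
      (∀ i ∈ J, ∀ E ∈ LL U G x i, cj p⁻¹ (kap (TT U G x 0) E) = kap (TT U G x 0) E) →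
      ∀ l, l ≠ 0 → ∀ E ∈ LL U G x l, cj p⁻¹ (kap (TT U G x 0) E) = kap (TT U G x 0) E

/-- CAS: few indices or equal kernels -/
def T_CAS : Prop := ∀ {M : Type} (U : RU M) {G S : Type} [Group G] [MulAction G S] [Cod M G]
  [Cod M S] {n : ℕ} (x : Fin (n + 2) → S), Frm U G x →
  IFc U → ∀ s k : ℕ, 1 ≤ s → k ≤ n →
    (∀ i, i ≠ 0 → (LL U G x i).Finite ∧ (LL U G x i).ncard = s) →
    (∀ J : Set (Fin (n + 2)), 0 ∉ J → J.ncard = k →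
      U.R (lam U G x J : Set G) ≤ U.R (lam U G x {0}ᶜ : Set G)) →
    n + 1 ≤ s + k ∨ ∀ i, i ≠ 0 → ∀ j, j ≠ 0 → KK U G x i = KK U G x j

/-- P27: equal kernels -/
def T_P27 : Prop := ∀ {M : Type} (U : RU M) {G S : Type} [Group G] [MulAction G S] [Cod M G]
  [Cod M S] {n : ℕ} (x : Fin (n + 2) → S), Frm U G x →
  IFc U → 1 ≤ n → (∀ i, i ≠ 0 → (LL U G x i).Nonempty) →
    (∀ i, i ≠ 0 → ∀ j, j ≠ 0 → KK U G x i = KK U G x j) →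
    n.factorial ≤ (LL U G x 1).ncard

/-- TAB: the case of full rank -/
def T_TAB : Prop := ∀ {M : Type} (U : RU M) {G S : Type} [Group G] [MulAction G S] [Cod M G]
  [Cod M S] {n : ℕ} (x : Fin (n + 2) → S), Frm U G x →
  U.R (lam U G x {0}ᶜ : Set G) + n ≤ U.R (TT U G x 0 : Set G) →
    Com (TT U G x 0) ∧ Fx (TT U G x 0) (x 0) = ⊥ ∧ U.R (TT U G x 0 : Set G) = n

/-! ## Generic Ito -/

/-- ITP: generic products -/
def T_ITP : Prop := ∀ {M : Type} (U : RU M) {Γ : Type} [Group Γ] [Cod M Γ] [DG U Γ]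
  (H A B : Subgroup Γ), Conn U H → Conn U A → Conn U B → A ≤ H → B ≤ H →
    U.R (H : Set Γ) + U.R ((A ⊓ B : Subgroup Γ) : Set Γ) ≤
      U.R (A : Set Γ) + U.R (B : Set Γ) →
    Big U (H : Set Γ) {h | ∃ a ∈ A, ∃ b ∈ B, h = a * b} ∧
    ∀ Z : Set Γ, Big U (H : Set Γ) Z →
      Big U ((A : Set Γ) ×ˢ (B : Set Γ)) {p : Γ × Γ | p.1 * p.2 ∈ Z}

/-- ITV: the group generated by generic commutators -/
def T_ITV : Prop := ∀ {M : Type} (U : RU M) {Γ : Type} [Group Γ] [Cod M Γ] [DG U Γ]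
  (H A B : Subgroup Γ), Conn U H → Conn U A → Conn U B → A ≤ H → B ≤ H → Com A → Com B →
    Big U (H : Set Γ) {h | ∃ a ∈ A, ∃ b ∈ B, h = a * b} →
    ∃ V : Subgroup Γ, V ≤ H ∧ U.D (V : Set Γ) ∧ (∀ h ∈ H, ∀ v ∈ V, h * v * h⁻¹ ∈ V) ∧
      (∀ g ∈ H, ∀ h ∈ H, g * h * g⁻¹ * h⁻¹ ∈ V) ∧
      Big U ((A : Set Γ) ×ˢ (B : Set Γ)) {p : Γ × Γ | p.1⁻¹ * p.2⁻¹ * p.1 * p.2 ∈ V} ∧
      ∀ L : Subgroup Γ, U.D (L : Set Γ) →
        Big U ((A : Set Γ) ×ˢ (B : Set Γ)) {p : Γ × Γ | p.1⁻¹ * p.2⁻¹ * p.1 * p.2 ∈ L} → V ≤ L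

/-- ITW: this group is commutative -/
def T_ITW : Prop := ∀ {M : Type} (U : RU M) {Γ : Type} [Group Γ] [Cod M Γ] [DG U Γ]
  (H A B V : Subgroup Γ), Conn U H → Conn U A → Conn U B → A ≤ H → B ≤ H → Com A → Com B →
    (∀ Z : Set Γ, Big U (H : Set Γ) Z →
      Big U ((A : Set Γ) ×ˢ (B : Set Γ)) {p : Γ × Γ | p.1 * p.2 ∈ Z} ∧
      Big U ((B : Set Γ) ×ˢ (A : Set Γ)) {p : Γ × Γ | p.1 * p.2 ∈ Z}) →
    Big U (H : Set Γ) {h | ∃ a ∈ A, ∃ b ∈ B, h = a * b} →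
    Big U (H : Set Γ) {h | ∃ b ∈ B, ∃ a ∈ A, h = b * a} →
    U.D (V : Set Γ) →
    Big U ((A : Set Γ) ×ˢ (B : Set Γ)) {p : Γ × Γ | p.1⁻¹ * p.2⁻¹ * p.1 * p.2 ∈ V} →
    (∀ L : Subgroup Γ, U.D (L : Set Γ) →
      Big U ((A : Set Γ) ×ˢ (B : Set Γ)) {p : Γ × Γ | p.1⁻¹ * p.2⁻¹ * p.1 * p.2 ∈ L} → V ≤ L) →
    Com V

/-- ITG: generic Ito -/
def T_ITG : Prop := ∀ {M : Type} (U : RU M) {Γ : Type} [Group Γ] [Cod M Γ] [DG U Γ]
  (H A B : Subgroup Γ), Conn U H → Conn U A → Conn U B → A ≤ H → B ≤ H → Com A → Com B →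
    U.R (H : Set Γ) + U.R ((A ⊓ B : Subgroup Γ) : Set Γ) ≤
      U.R (A : Set Γ) + U.R (B : Set Γ) →
    ∃ V : Subgroup Γ, V ≤ H ∧ U.D (V : Set Γ) ∧ Com V ∧ (∀ h ∈ H, ∀ v ∈ V, h * v * h⁻¹ ∈ V) ∧
      ∀ g ∈ H, ∀ h ∈ H, g * h * g⁻¹ * h⁻¹ ∈ V

/-- SOL: solvable groups from generic Ito -/
def T_SOL : Prop := ∀ {Γ : Type} [Group Γ] (H V : Subgroup Γ), V ≤ H → Com V →
  (∀ g ∈ H, ∀ h ∈ H, g * h * g⁻¹ * h⁻¹ ∈ V) → IsSolvable H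

/-- CTI: generic Ito for the situation of a line -/
def T_CTI : Prop := ∀ {M : Type} (U : RU M) {G S : Type} [Group G] [MulAction G S] [Cod M G]
  [Cod M S] [DG U G] [Ful U S], DFn U (fun p : G × S => p.1 • p.2) →
  ∀ (H : Subgroup G) (X : Set S) (T : Subgroup G) (o e : S), Ctx U H X T o e →
  Com T → ∃ V : Subgroup G, V ≤ H ∧ U.D (V : Set G) ∧ Com V ∧
    (∀ h ∈ H, ∀ v ∈ V, h * v * h⁻¹ ∈ V) ∧ ∀ g ∈ H, ∀ h ∈ H, g * h * g⁻¹ * h⁻¹ ∈ V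

/-! ## The ring -/

/-- REG: the group `V` is regular -/
def T_REG : Prop := ∀ {M : Type} (U : RU M) {G S : Type} [Group G] [MulAction G S] [Cod M G]
  [Cod M S] [DG U G] [Ful U S], DFn U (fun p : G × S => p.1 • p.2) →
  ∀ (H : Subgroup G) (X : Set S) (T : Subgroup G) (o e : S), Ctx U H X T o e →
  Com T → (∀ h ∈ H, (∀ y ∈ X, h • y = y) → h = 1) → ∀ V : Subgroup G, V ≤ H →
    U.D (V : Set G) → Com V → (∀ h ∈ H, ∀ v ∈ V, h * v * h⁻¹ ∈ V) →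
    (∀ g ∈ H, ∀ h ∈ H, g * h * g⁻¹ * h⁻¹ ∈ V) →
    (∀ y ∈ X, ∃ v ∈ V, v • o = y) ∧ (∀ v ∈ V, v • o = o → v = 1) ∧ Conn U V ∧
      T = Fx H o ∧ ∀ h ∈ H, ∃ v ∈ V, ∃ t ∈ T, h = v * t

/-- RGX: the ring, algebra -/
def T_RGX : Prop := ∀ {G S : Type} [Group G] [MulAction G S] (V T : Subgroup G) (o e : S),
  Com V → Com T → (∀ t ∈ T, ∀ v ∈ V, t * v * t⁻¹ ∈ V) → (∀ t ∈ T, t • o = o) →
  (∀ v ∈ V, v • o = o → v = 1) → e ∈ Orb V o →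
  (∀ y ∈ Orb V o, ∃ t ∈ T, ∃ t' ∈ T, ∃ v ∈ V, v • o = t • e ∧ y = v • (t' • e)) →
  ∃ (R : Type) (_ : CommRing R) (j : S → R), InjOn j (Orb V o) ∧
    (∀ r, ∃ y ∈ Orb V o, j y = r) ∧ j o = 0 ∧ j e = 1 ∧
    (∀ v ∈ V, ∀ y ∈ Orb V o, j (v • y) = j y + j (v • o)) ∧
    ∀ t ∈ T, ∃ a : Rˣ, j (t • e) = a ∧ ∀ y ∈ Orb V o, j (t • y) = a * j y

/-- RGV: the ring -/
def T_RGV : Prop := ∀ {M : Type} (U : RU M) {G S : Type} [Group G] [MulAction G S] [Cod M G]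
  [Cod M S] [DG U G] [Ful U S], DFn U (fun p : G × S => p.1 • p.2) →
  ∀ (H : Subgroup G) (X : Set S) (T : Subgroup G) (o e : S), Ctx U H X T o e →
  Com T → (∀ h ∈ H, (∀ y ∈ X, h • y = y) → h = 1) → ∀ V : Subgroup G, V ≤ H →
    U.D (V : Set G) → Com V → (∀ h ∈ H, ∀ v ∈ V, h * v * h⁻¹ ∈ V) →
    (∀ y ∈ X, ∃ v ∈ V, v • o = y) → (∀ v ∈ V, v • o = o → v = 1) → Conn U V →
    T = Fx H o → (∀ h ∈ H, ∃ v ∈ V, ∃ t ∈ T, h = v * t) →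
    ∃ (R : Type) (_ : CommRing R) (j : S → R), Rg U H X T o e R j

/-- IDA: the ring is coded -/
def T_IDA : Prop := ∀ {M : Type} (U : RU M) {G S : Type} [Group G] [MulAction G S] [Cod M G]
  [Cod M S] [DG U G] [Ful U S], DFn U (fun p : G × S => p.1 • p.2) →
  ∀ (H : Subgroup G) (X : Set S) (T : Subgroup G) (o e : S), Ctx U H X T o e →
  ∀ (R : Type) [CommRing R] (j : S → R), Rg U H X T o e R j → ∃ c : Cod M R,
    @RDf M U R _ c ∧ ∀ I : Set R, @RU.D M U R c I ↔ U.D {y | y ∈ X ∧ j y ∈ I}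

/-- IDB: ideals of coded rings -/
def T_IDB : Prop := ∀ {M : Type} (U : RU M) (R : Type) [CommRing R] [Cod M R], RDf U R →
  (∀ I : Ideal R, U.D (I : Set R)) ∧ (∀ I : Ideal R, (I : Set R).Finite → I = ⊥) ∧
  (∀ I : Ideal R, I ≠ ⊤ → Infinite (R ⧸ I)) ∧ IsArtinianRing R

/-- ULF: units -/
def T_ULF : Prop := ∀ (R : Type) [CommRing R] [IsArtinianRing R] (I : Ideal R), I.IsMaximal →
  ∀ a : R, a ∉ I → ∃ u : Rˣ, (u : R) - a ∈ I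

/-- IDE: ideals -/
def T_IDE : Prop := ∀ {M : Type} (U : RU M) {G S : Type} [Group G] [MulAction G S] [Cod M G]
  [Cod M S] [DG U G] [Ful U S], DFn U (fun p : G × S => p.1 • p.2) →
  ∀ (H : Subgroup G) (X : Set S) (T : Subgroup G) (o e : S), Ctx U H X T o e →
  ∀ (R : Type) [CommRing R] (j : S → R), Rg U H X T o e R j →
    (∀ I : Ideal R, U.D {y | y ∈ X ∧ j y ∈ I}) ∧
    (∀ I : Ideal R, (I : Set R).Finite → I = ⊥) ∧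
    (∀ I : Ideal R, I ≠ ⊤ → Infinite (R ⧸ I)) ∧ IsArtinianRing R

/-- MXL: maximal ideals give lines -/
def T_MXL : Prop := ∀ {M : Type} (U : RU M) {G S : Type} [Group G] [MulAction G S] [Cod M G]
  [Cod M S] [DG U G] [Ful U S], DFn U (fun p : G × S => p.1 • p.2) →
  ∀ (H : Subgroup G) (X : Set S) (T : Subgroup G) (o e : S), Ctx U H X T o e →
  ∀ (R : Type) [CommRing R] (j : S → R), Rg U H X T o e R j → ∀ I : Ideal R, I.IsMaximal →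
    {p : S × S | p.1 ∈ X ∧ p.2 ∈ X ∧ j p.1 - j p.2 ∈ I} ∈ Lines U H X o e

/-- LIM: every line comes from a homomorphism of the ring to the field -/
def T_LIM : Prop := ∀ {M : Type} (U : RU M) {G S : Type} [Group G] [MulAction G S] [Cod M G]
  [Cod M S] [DG U G] [Ful U S], DFn U (fun p : G × S => p.1 • p.2) →
  ∀ (H : Subgroup G) (X : Set S) (T : Subgroup G) (o e : S), Ctx U H X T o e →
  ∀ (R : Type) [CommRing R] (j : S → R), Rg U H X T o e R j → ∀ (E : Set (S × S))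
    (L : LB U H X o e E), ∃ φ : R →+* L.K, Function.Surjective φ ∧ ∀ y ∈ X, L.f y = φ (j y)

/-- RIN: the lines separate points -/
def T_RIN : Prop := ∀ {M : Type} (U : RU M) {G S : Type} [Group G] [MulAction G S] [Cod M G]
  [Cod M S] [DG U G] [Ful U S], DFn U (fun p : G × S => p.1 • p.2) →
  ∀ (H : Subgroup G) (X : Set S) (T : Subgroup G) (o e : S), Ctx U H X T o e →
  Com T → (∀ h ∈ H, (∀ y ∈ X, h • y = y) → h = 1) →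
    {t | t ∈ T ∧ ∀ E ∈ Lines U H X o e, t ∈ kap T E}.Finite →
    ∀ y ∈ X, ∀ z ∈ X, (∀ E ∈ Lines U H X o e, (y, z) ∈ E) → y = z

/-- TQB: torsion in `T` -/
def T_TQB : Prop := ∀ {M : Type} (U : RU M) {G S : Type} [Group G] [MulAction G S] [Cod M G]
  [Cod M S] [DG U G] [Ful U S], DFn U (fun p : G × S => p.1 • p.2) →
  ∀ (H : Subgroup G) (X : Set S) (T : Subgroup G) (o e : S), Ctx U H X T o e →
  Com T → (∀ h ∈ H, (∀ y ∈ X, h • y = y) → h = 1) →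
    ∀ s : ℕ, (Lines U H X o e).Finite → (Lines U H X o e).ncard = s →
    ∃ q0 : ℕ, ∀ q : ℕ, q.Prime → q0 < q →
      ∃ F : {t : G // t ∈ T ∧ t ^ q = 1} → Fin (q ^ s), Function.Injective F

/-- N26: the number of lines -/
def T_N26 : Prop := ∀ {M : Type} (U : RU M) {G S : Type} [Group G] [MulAction G S] [Cod M G]
  [Cod M S] {n : ℕ} (x : Fin (n + 2) → S), Frm U G x →
  IFc U → Com (TT U G x 0) → U.R (TT U G x 0 : Set G) = n → ∀ s k : ℕ, 1 ≤ k → s + k = n + 1 →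
    (∀ i, i ≠ 0 → (LL U G x i).Finite ∧ (LL U G x i).ncard = s) →
    (∀ i, i ≠ 0 → ∀ E ∈ LL U G x i, U.R (kap (TT U G x 0) E : Set G) + 1 = n) →
    (∀ J : Set (Fin (n + 2)), 0 ∉ J → 1 ≤ J.ncard → J.ncard ≤ k →
      U.R (lam U G x J : Set G) + s + J.ncard = n + 1) →
    (∃ q0 : ℕ, ∀ q : ℕ, q.Prime → q0 < q →
      ∃ F : {t : G // t ∈ TT U G x 0 ∧ t ^ q = 1} → Fin (q ^ s), Function.Injective F) →
    n ≤ s

end Pool.Agent.H78.S
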