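import Pool.Agent.H78.S.D2

/-!
# Theorem S (MP_9d0bb7_lc), page H78_S.md: targets 6 (the natural situation) and 7 (the end)
-/

set_option autoImplicit false

open Set Pool.Agent.H77.BC Matrix
open scoped Pointwise

namespace Pool.Agent.H78.S

/-! ## Coordinates -/

/-- COO: points, elements of `TT` and of `HH` are determined by their coordinates -/
def T_COO : Prop := ∀ {M : Type} (U : RU M) {G S : Type} [Group G] [MulAction G S] [Cod M G]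
  [Cod M S] {n : ℕ} (x : Fin (n + 2) → S), Frm U G x →
  Nt U G x → ∀ i, i ≠ 0 → ∀ L : ∀ E ∈ LL U G x i, LF U G x i E,
    (∀ u : ∀ E (h : E ∈ LL U G x i), (L E h).K, ∃! y, y ∈ XX U G x i ∧
      ∀ E h, (L E h).f y = u E h) ∧
    (∀ u : ∀ E (h : E ∈ LL U G x i), (L E h).K, (∀ E h, u E h ≠ 0) →
      ∃! t, t ∈ TT U G x 0 ∧ ∀ E h, (L E h).f (t • x 0) = u E h) ∧
    (∀ u v : ∀ E (h : E ∈ LL U G x i), (L E h).K, (∀ E h, u E h ≠ 0) →
      ∃ g ∈ HH U G x 0 i, ∀ E h, ∀ y ∈ XX U G x i, (L E h).f (g • y) =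
        u E h * (L E h).f y + v E h) ∧
    ∀ y, y ∈ Orb (TT U G x 0) (x 0) ↔ y ∈ XX U G x i ∧ ∀ E h, (L E h).f y ≠ 0

/-- FAI: elements which normalise all kernels of index `i` -/
def T_FAI : Prop := ∀ {M : Type} (U : RU M) {G S : Type} [Group G] [MulAction G S] [Cod M G]
  [Cod M S] {n : ℕ} (x : Fin (n + 2) → S), Frm U G x →
  IFc U → Nt U G x → ∀ (g : G) (σ : Equiv.Perm (Fin (n + 2))), Pm x g σ → σ 0 = 0 →
    ∀ i, i ≠ 0 → σ i = i →
      (∀ E ∈ LL U G x i, cj g⁻¹ (kap (TT U G x 0) E) = kap (TT U G x 0) E) → g = 1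

/-- OMG: the group of the permutations of the points -/
def T_OMG : Prop := ∀ {M : Type} (U : RU M) {G S : Type} [Group G] [MulAction G S] [Cod M G]
  [Cod M S] {n : ℕ} (x : Fin (n + 2) → S), Frm U G x →
  IFc U → Nt U G x → ∃ ω : Equiv.Perm (Fin (n + 2)) →* G, Om U G x ω

/-- DIC: the alternative for the kernels -/
def T_DIC : Prop := ∀ {M : Type} (U : RU M) {G S : Type} [Group G] [MulAction G S] [Cod M G]
  [Cod M S] {n : ℕ} (x : Fin (n + 2) → S), Frm U G x →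
  Nt U G x → ∀ ω : Equiv.Perm (Fin (n + 2)) →* G, Om U G x ω → ∀ i j, i ≠ 0 → j ≠ 0 → i ≠ j →
    ∀ E ∈ LL U G x i,
      (∃ E' ∈ LL U G x i,
        kap (TT U G x 0) E' = cj (ω (Equiv.swap i j))⁻¹ (kap (TT U G x 0) E)) ∨
      ∃ E' ∈ LL U G x i, TE U G x i E' = cj (ω (Equiv.swap i j))⁻¹ (TE U G x i E)

/-- TEK: the groups `TE` and the kernels -/
def T_TEK : Prop := ∀ {M : Type} (U : RU M) {G S : Type} [Group G] [MulAction G S] [Cod M G]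
  [Cod M S] {n : ℕ} (x : Fin (n + 2) → S), Frm U G x →
  Nt U G x → ∀ i, i ≠ 0 → (∀ E ∈ LL U G x i, U.D (TE U G x i E : Set G) ∧
      U.R (TE U G x i E : Set G) = 1 ∧ Conn U (TE U G x i E) ∧
      Conn U (kap (TT U G x 0) E) ∧ TE U G x i E ⊓ kap (TT U G x 0) E = ⊥ ∧
      kap (TT U G x 0) E = ⨆ F ∈ LL U G x i \ {E}, TE U G x i F) ∧
    (∀ E ∈ LL U G x i, ∀ F ∈ LL U G x i, E ≠ F → TE U G x i F ≤ kap (TT U G x 0) E) ∧
    (∀ E ∈ LL U G x i, ∀ F ∈ LL U G x i, TE U G x i E = TE U G x i F → E = F) ∧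
    ∀ E ∈ LL U G x i, ∀ F ∈ LL U G x i,
      kap (TT U G x 0) E = kap (TT U G x 0) F → E = F

/-- SHK: shared kernels -/
def T_SHK : Prop := ∀ {M : Type} (U : RU M) {G S : Type} [Group G] [MulAction G S] [Cod M G]
  [Cod M S] {n : ℕ} (x : Fin (n + 2) → S), Frm U G x →
  Nt U G x → ∀ ω : Equiv.Perm (Fin (n + 2)) →* G, Om U G x ω → ∀ i j, i ≠ 0 → j ≠ 0 → i ≠ j →
    ∃ E ∈ LL U G x i, ∃ E' ∈ LL U G x j, kap (TT U G x 0) E = kap (TT U G x 0) E'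

/-- SPA: three equal kernels, `n = 2` -/
def T_SPA : Prop := ∀ {M : Type} (U : RU M) {G S : Type} [Group G] [MulAction G S] [Cod M G]
  [Cod M S] {n : ℕ} (x : Fin (n + 2) → S), Frm U G x →
  IFc U → Nt U G x → ∀ ω : Equiv.Perm (Fin (n + 2)) →* G, Om U G x ω → n = 2 →
    ∀ i j, i ≠ 0 → j ≠ 0 → i ≠ j → KK U G x i ≠ KK U G x j

/-- SPB: a kernel belongs to at most two indices -/
def T_SPB : Prop := ∀ {M : Type} (U : RU M) {G S : Type} [Group G] [MulAction G S] [Cod M G]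
  [Cod M S] {n : ℕ} (x : Fin (n + 2) → S), Frm U G x →
  IFc U → Nt U G x → ∀ ω : Equiv.Perm (Fin (n + 2)) →* G, Om U G x ω → ∀ i j l, i ≠ 0 → j ≠ 0 →
    l ≠ 0 → i ≠ j → i ≠ l → j ≠ l → ∀ E ∈ LL U G x i, ∀ E' ∈ LL U G x j, ∀ E'' ∈ LL U G x l,
    kap (TT U G x 0) E = kap (TT U G x 0) E' → kap (TT U G x 0) E ≠ kap (TT U G x 0) E''

/-- KAP: the lines `E i j` -/
def T_KAP : Prop := ∀ {M : Type} (U : RU M) {G S : Type} [Group G] [MulAction G S] [Cod M G]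
  [Cod M S] {n : ℕ} (x : Fin (n + 2) → S), Frm U G x →
  IFc U → Nt U G x → ∀ ω : Equiv.Perm (Fin (n + 2)) →* G, Om U G x ω →
    ∃ E : Fin (n + 2) → Fin (n + 2) → Set (S × S), Kp U G x E

/-- TIJ: the groups `TE` -/
def T_TIJ : Prop := ∀ {M : Type} (U : RU M) {G S : Type} [Group G] [MulAction G S] [Cod M G]
  [Cod M S] {n : ℕ} (x : Fin (n + 2) → S), Frm U G x →
  Nt U G x → ∀ ω : Equiv.Perm (Fin (n + 2)) →* G, Om U G x ω →
    ∀ E : Fin (n + 2) → Fin (n + 2) → Set (S × S), Kp U G x E →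
    (∀ i j l, i ≠ 0 → j ≠ 0 → l ≠ 0 → i ≠ j → i ≠ l → j ≠ l →
      TE U G x i (E i j) = TE U G x l (E l j)) ∧
    ∀ (g : G) (σ : Equiv.Perm (Fin (n + 2))), Pm x g σ → σ 0 = 0 → ∀ i j, i ≠ 0 → j ≠ 0 →
      i ≠ j → cj g⁻¹ (TE U G x i (E i j)) = TE U G x (σ i) (E (σ i) (σ j)) ∧
        cj g⁻¹ (kap (TT U G x 0) (E i j)) = kap (TT U G x 0) (E (σ i) (σ j))

/-- PHA: a transposition in the common coordinate -/
def T_PHA : Prop := ∀ {M : Type} (U : RU M) {G S : Type} [Group G] [MulAction G S] [Cod M G]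
  [Cod M S] {n : ℕ} (x : Fin (n + 2) → S), Frm U G x →
  Nt U G x → ∀ ω : Equiv.Perm (Fin (n + 2)) →* G, Om U G x ω →
    ∀ E : Fin (n + 2) → Fin (n + 2) → Set (S × S), Kp U G x E →
    ∀ i j, i ≠ 0 → j ≠ 0 → i ≠ j → ∀ L : LF U G x i (E i j),
      ∃ φ : L.Kˣ →* L.Kˣ, (∀ u, φ (φ u) = u) ∧
        (∀ y ∈ Orb (TT U G x 0) (x 0), ω (Equiv.swap i j) • y ∈ Orb (TT U G x 0) (x 0) ∧
          ∀ u : L.Kˣ, L.f y = u → L.f (ω (Equiv.swap i j) • y) = φ u) ∧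
        ∀ u v w : L.Kˣ, (v : L.K) = 1 - (φ u : L.K) → (w : L.K) = 1 - (u : L.K) →
          (φ v : L.K) = 1 - (φ w : L.K)

/-- PHI: a transposition in the other coordinates -/
def T_PHI : Prop := ∀ {M : Type} (U : RU M) {G S : Type} [Group G] [MulAction G S] [Cod M G]
  [Cod M S] {n : ℕ} (x : Fin (n + 2) → S), Frm U G x →
  Nt U G x → ∀ ω : Equiv.Perm (Fin (n + 2)) →* G, Om U G x ω →
    ∀ E : Fin (n + 2) → Fin (n + 2) → Set (S × S), Kp U G x E →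
    ∀ i j l, i ≠ 0 → j ≠ 0 → l ≠ 0 → i ≠ j → i ≠ l → j ≠ l →
    ∀ (L : LF U G x i (E i j)) (L' : LF U G x i (E i l)),
      (∀ y ∈ Orb (TT U G x 0) (x 0), L.f (ω (Equiv.swap i j) • y) = (L.f y)⁻¹) →
      ∃ (g : L'.Kˣ →* L'.Kˣ) (h : L.Kˣ →* L'.Kˣ), Function.Surjective h ∧
        (∀ u, g (h u) * h u⁻¹ = 1) ∧
        (∀ y ∈ Orb (TT U G x 0) (x 0), ∀ (u : L.Kˣ) (v : L'.Kˣ), L.f y = u → L'.f y = v →
          L'.f (ω (Equiv.swap i j) • y) = g v * h u) ∧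
        ∀ (y z w : L.Kˣ) (a a1 v : L'.Kˣ), (z : L.K) = 1 - (y : L.K) →
          (w : L.K) = 1 - ((y⁻¹ : L.Kˣ) : L.K) → (a1 : L'.K) = 1 - (a : L'.K) →
          (v : L'.K) = 1 - (g a : L'.K) * (h y : L'.K) →
          (g v : L'.K) * (h w : L'.K) = 1 - (g a1 : L'.K) * (h z : L'.K)

/-- FUN: the formulas for a transposition -/
def T_FUN : Prop := ∀ {M : Type} (U : RU M) {G S : Type} [Group G] [MulAction G S] [Cod M G]
  [Cod M S] {n : ℕ} (x : Fin (n + 2) → S), Frm U G x →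
  Nt U G x → ∀ ω : Equiv.Perm (Fin (n + 2)) →* G, Om U G x ω →
    ∀ E : Fin (n + 2) → Fin (n + 2) → Set (S × S), Kp U G x E →
    ∀ i j, i ≠ 0 → j ≠ 0 → i ≠ j → ∀ L : LF U G x i (E i j),
      (∀ y ∈ Orb (TT U G x 0) (x 0), ω (Equiv.swap i j) • y ∈ Orb (TT U G x 0) (x 0) ∧
        L.f (ω (Equiv.swap i j) • y) = (L.f y)⁻¹) ∧
      ∀ l, l ≠ 0 → i ≠ l → j ≠ l → ∀ L' : LF U G x i (E i l), ∃ θ : L.K ≃+* L'.K,
        ∀ y ∈ Orb (TT U G x 0) (x 0),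
          L'.f (ω (Equiv.swap i j) • y) = L'.f y * (θ (L.f y))⁻¹

/-- SW2: the transpositions `(j l)` -/
def T_SW2 : Prop := ∀ {M : Type} (U : RU M) {G S : Type} [Group G] [MulAction G S] [Cod M G]
  [Cod M S] {n : ℕ} (x : Fin (n + 2) → S), Frm U G x →
  IFc U → Nt U G x → ∀ ω : Equiv.Perm (Fin (n + 2)) →* G, Om U G x ω →
    ∀ E : Fin (n + 2) → Fin (n + 2) → Set (S × S), Kp U G x E →
    ∀ i j l, i ≠ 0 → j ≠ 0 → l ≠ 0 → i ≠ j → i ≠ l → j ≠ l →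
    ∀ (L : LF U G x i (E i j)) (L' : LF U G x i (E i l)) (θ : L.K ≃+* L'.K),
      (∀ y ∈ Orb (TT U G x 0) (x 0), L.f (ω (Equiv.swap i j) • y) = (L.f y)⁻¹ ∧
        L'.f (ω (Equiv.swap i j) • y) = L'.f y * (θ (L.f y))⁻¹) →
      (∀ y ∈ XX U G x i, ω (Equiv.swap j l) • y ∈ XX U G x i ∧
        L.f (ω (Equiv.swap j l) • y) = θ.symm (L'.f y) ∧
        L'.f (ω (Equiv.swap j l) • y) = θ (L.f y)) ∧
      ∀ m, m ≠ 0 → i ≠ m → j ≠ m → l ≠ m → ∀ L'' : LF U G x i (E i m), ∀ y ∈ XX U G x i,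
        L''.f (ω (Equiv.swap j l) • y) = L''.f y

/-- CRD: coordinates -/
def T_CRD : Prop := ∀ {M : Type} (U : RU M) {G S : Type} [Group G] [MulAction G S] [Cod M G]
  [Cod M S] {m : ℕ} (x : Fin (m + 1 + 2) → S), Frm U G x → IFc U → Nt U G x →
  ∀ ω : Equiv.Perm (Fin (m + 1 + 2)) →* G, Om U G x ω →
    ∃ (K : Type) (_ : Field K) (y : S → Fin (m + 1) → K), Cr U G x ω K y ∧ IsAlgClosed K

/-! ## The end -/

/-- PRD: the product of the groups `TT` -/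
def T_PRD : Prop := ∀ {M : Type} (U : RU M) {G S : Type} [Group G] [MulAction G S] [Cod M G]
  [Cod M S] {n : ℕ} (x : Fin (n + 2) → S), Frm U G x →
  Nt U G x → (∀ g : G, (∀ i, g • x i = x i) → g = 1) →
    Big U (univ : Set G) {g | ∃ t : Fin (n + 2) → G, (∀ c, t c ∈ TT U G x c) ∧
      g = (List.ofFn t).prod}

/-- HYP: complements of hyperplanes -/
def T_HYP : Prop := ∀ {M : Type} (U : RU M) {G S : Type} [Group G] [MulAction G S] [Cod M G]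
  [Cod M S] {m : ℕ} (x : Fin (m + 1 + 2) → S), Frm U G x → Nt U G x →
  ∀ ω : Equiv.Perm (Fin (m + 1 + 2)) →* G, Om U G x ω → ∀ (K : Type) [Field K]
    (y : S → Fin (m + 1) → K), Cr U G x ω K y → ∀ φ : Fin (m + 1 + 1) → K, φ ≠ 0 →
    Big U (univ : Set S) {z | z ∈ XX U G x 1 ∧ φ ⬝ᵥ hv y z ≠ 0}

/-- GMG: matrices of the generators -/
def T_GMG : Prop := ∀ {M : Type} (U : RU M) {G S : Type} [Group G] [MulAction G S] [Cod M G]
  [Cod M S] {m : ℕ} (x : Fin (m + 1 + 2) → S), Frm U G x → Nt U G x →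
  ∀ ω : Equiv.Perm (Fin (m + 1 + 2)) →* G, Om U G x ω → ∀ (K : Type) [Field K]
    (y : S → Fin (m + 1) → K), Cr U G x ω K y →
    (∀ t ∈ TT U G x 0, ∃ A, Gm U G x y t A) ∧ (∀ σ, ∃ A, Gm U G x y (ω σ) A) ∧
    (∀ σ : Equiv.Perm (Fin (m + 1 + 1)), ∃ (g : G) (A : GL (Fin (m + 1 + 1)) K),
      Gm U G x y g A ∧ (A.val : Matrix _ _ K) = σ.permMatrix K) ∧
    ∀ b : K, ∃ (g : G) (A : GL (Fin (m + 1 + 1)) K), Gm U G x y g A ∧
      (A.val : Matrix _ _ K) = transvection 1 0 b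

/-- GMA: the correspondence of elements and matrices, products -/
def T_GMA : Prop := ∀ {M : Type} (U : RU M) {G S : Type} [Group G] [MulAction G S] [Cod M G]
  [Cod M S] {m : ℕ} (x : Fin (m + 1 + 2) → S), Frm U G x → Nt U G x →
  ∀ ω : Equiv.Perm (Fin (m + 1 + 2)) →* G, Om U G x ω → ∀ (K : Type) [Field K]
    (y : S → Fin (m + 1) → K), Cr U G x ω K y →
    (∀ g h A B, Gm U G x y g A → Gm U G x y h B → Gm U G x y (g * h) (A * B)) ∧
    (∀ g A, Gm U G x y g A → Gm U G x y g⁻¹ A⁻¹) ∧ Gm U G x y 1 1 ∧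
    ∀ g A (B : GL (Fin (m + 1 + 1)) K) (c : K), c ≠ 0 → Gm U G x y g A →
      (B.val : Matrix _ _ K) = c • A.val → Gm U G x y g B

/-- GMB: the correspondence of elements and matrices, uniqueness -/
def T_GMB : Prop := ∀ {M : Type} (U : RU M) {G S : Type} [Group G] [MulAction G S] [Cod M G]
  [Cod M S] {m : ℕ} (x : Fin (m + 1 + 2) → S), Frm U G x → Nt U G x →
  ∀ ω : Equiv.Perm (Fin (m + 1 + 2)) →* G, Om U G x ω → ∀ (K : Type) [Field K]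
    (y : S → Fin (m + 1) → K), Cr U G x ω K y →
    (∀ g A B, Gm U G x y g A → Gm U G x y g B →
      ∃ c : K, c ≠ 0 ∧ (B.val : Matrix _ _ K) = c • A.val) ∧
    ∀ g h A, Gm U G x y g A → Gm U G x y h A → g = h

/-- GMT: every element has a matrix -/
def T_GMT : Prop := ∀ {M : Type} (U : RU M) {G S : Type} [Group G] [MulAction G S] [Cod M G]
  [Cod M S] {m : ℕ} (x : Fin (m + 1 + 2) → S), Frm U G x → Nt U G x →
  ∀ ω : Equiv.Perm (Fin (m + 1 + 2)) →* G, Om U G x ω → ∀ (K : Type) [Field K]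
    (y : S → Fin (m + 1) → K), Cr U G x ω K y → ∀ g, ∃ A, Gm U G x y g A

/-- PSI: the isomorphism; `Γ g A`: the element `g` belongs to the matrix `A` -/
def T_PSI : Prop := ∀ (G K : Type) [Group G] [Field K] [IsAlgClosed K] (m : ℕ)
  (Γ : G → GL (Fin (m + 2)) K → Prop),
  (∀ g h A B, Γ g A → Γ h B → Γ (g * h) (A * B)) → (∀ g A, Γ g A → Γ g⁻¹ A⁻¹) → Γ 1 1 →
  (∀ g A (B : GL (Fin (m + 2)) K) (c : K), c ≠ 0 → Γ g A →
    (B.val : Matrix _ _ K) = c • A.val → Γ g B) →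
  (∀ g A B, Γ g A → Γ g B → ∃ c : K, c ≠ 0 ∧ (B.val : Matrix _ _ K) = c • A.val) →
  (∀ g h A, Γ g A → Γ h A → g = h) → (∀ g, ∃ A, Γ g A) →
  (∀ σ : Equiv.Perm (Fin (m + 2)), ∃ (g : G) (A : GL (Fin (m + 2)) K), Γ g A ∧
    (A.val : Matrix _ _ K) = σ.permMatrix K) →
  (∀ b : K, ∃ (g : G) (A : GL (Fin (m + 2)) K), Γ g A ∧
    (A.val : Matrix _ _ K) = transvection 1 0 b) →
  Nonempty (G ≃* ProjectiveSpecialLinearGroup (Fin (m + 2)) K)

/-! ## The theorem -/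

/-- ABV: commutative components of the stabilisers of `n + 1` points -/
def T_ABV : Prop := ∀ {M : Type} (U : RU M) {G S : Type} [Group G] [MulAction G S] [Cod M G]
  [Cod M S] {n : ℕ} (x : Fin (n + 2) → S), Frm U G x →
  Com (TT U G x 0) → Sol U G x

/-- NTR: the natural situation -/
def T_NTR : Prop := ∀ {M : Type} (U : RU M) {G S : Type} [Group G] [MulAction G S] [Cod M G]
  [Cod M S] {n : ℕ} (x : Fin (n + 2) → S), Frm U G x →
  IFc U → Sol U G x → Nt U G x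

/-- END: the isomorphism -/
def T_END : Prop := ∀ {M : Type} (U : RU M) {G S : Type} [Group G] [MulAction G S] [Cod M G]
  [Cod M S] {n : ℕ} (x : Fin (n + 2) → S), Frm U G x →
  IFc U → Nt U G x → ∃ (K : Type) (_ : Field K), IsAlgClosed K ∧
    Nonempty (G ≃* ProjectiveSpecialLinearGroup (Fin (n + 1)) K)

end Pool.Agent.H78.S
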