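import Mathlib

/-!
# Theorem S (MP_9d0bb7_lc), page H78_S.md: targets A (pure algebra, no ranks)
-/

set_option autoImplicit false

open Set

namespace Pool.Agent.H78.S

/-! ## Finite groups -/

/-- FGB: a finite simple nonabelian group with more than `s!` elements is not a quotient of a
subgroup of a power of the symmetric group on `s` letters. -/
def T_FGB : Prop := ∀ (s : ℕ) (Q : Type) [Group Q] [Finite Q] [IsSimpleGroup Q],
  (∃ a b : Q, a * b ≠ b * a) → s.factorial < Nat.card Q →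
  ∀ (k : ℕ) (L : Type) [Group L] (ι : L →* (Fin k → Equiv.Perm (Fin s))) (π : L →* Q),
    Function.Surjective π → ¬ ι.ker ≤ π.ker

/-- FGA: if the symmetric group on `N` letters is a quotient of a subgroup of a power of the
symmetric group on `s` letters, then `N ≤ s`. -/
def T_FGA : Prop := ∀ (k s N : ℕ) (L : Type) [Group L] (ι : L →* (Fin k → Equiv.Perm (Fin s)))
  (π : L →* Equiv.Perm (Fin N)), 1 ≤ s → Function.Surjective π → ι.ker ≤ π.ker → N ≤ s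

/-! ## Numbers -/

/-- NUM: concave functions -/
def T_NUM : Prop := ∀ (n : ℕ) (r : ℕ → ℕ), r 0 = 0 → 1 ≤ r 1 → r (n + 1) ≤ n →
  (∀ j, j ≤ n → r j ≤ r (j + 1)) → (∀ j, j + 1 ≤ n → r (j + 2) + r j ≤ r (j + 1) + r (j + 1)) →
  ∃ k, 1 ≤ k ∧ k ≤ n ∧ (∀ j, k ≤ j → j ≤ n + 1 → r j = r k) ∧ r 1 + k ≤ n + 1 ∧
    (r 1 + k = n + 1 → r k = n ∧ ∀ j, 1 ≤ j → j < k → r (j + 1) = r j + 1)

/-! ## Functional equations -/

/-- INV: the inversion -/
def T_INV : Prop := ∀ (K : Type) [Field K] (φ : Kˣ →* Kˣ), (∀ u, φ (φ u) = u) →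
  (∀ u v w : Kˣ, (v : K) = 1 - (φ u : K) → (w : K) = 1 - (u : K) →
    (φ v : K) = 1 - (φ w : K)) → ∀ u, φ u = u⁻¹

/-- HFI: the other coordinates -/
def T_HFI : Prop := ∀ (K L : Type) [Field K] [Field L] [Infinite L] (g : Lˣ →* Lˣ)
  (h : Kˣ →* Lˣ), Function.Surjective h → (∀ u, g (h u) * h u⁻¹ = 1) →
  (∀ (y z w : Kˣ) (x x1 v : Lˣ), (z : K) = 1 - (y : K) → (w : K) = 1 - ((y⁻¹ : Kˣ) : K) →
    (x1 : L) = 1 - (x : L) → (v : L) = 1 - (g x : L) * (h y : L) →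
    (g v : L) * (h w : L) = 1 - (g x1 : L) * (h z : L)) →
  (∀ u, g u = u) ∧ ∃ θ : K ≃+* L, ∀ u : Kˣ, ((h u : Lˣ) : L) = (θ (u : K))⁻¹

/-- BRA: the braid relation -/
def T_BRA : Prop := ∀ (K : Type) [Field K] (σ : K ≃+* K),
  (∀ y z : K, y ≠ 0 → z ≠ 0 → σ.symm (y / z) = y / σ.symm (σ.symm z)) → ∀ y, σ y = y

/-! ## Affine groups -/

/-- a homomorphism `h ↦ (y ↦ a h y + b h)` to the group of affine maps of `K` -/
structure AfH (Γ K : Type) [Group Γ] [Field K] (a b : Γ → K) : Prop where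
  ne : ∀ g, a g ≠ 0
  amul : ∀ g h, a (g * h) = a g * a h
  bmul : ∀ g h, b (g * h) = a g * b h + b g

/-- AGN: normal subgroups of the affine group: if the image of a normal subgroup is not trivial, it
contains the translations -/
def T_AGN : Prop := ∀ (Γ K : Type) [Group Γ] [Field K] (a b : Γ → K), AfH Γ K a b →
  (∀ c d : K, c ≠ 0 → ∃ g, a g = c ∧ b g = d) →
  ∀ N : Subgroup Γ, N.Normal → (∃ g ∈ N, ¬ (a g = 1 ∧ b g = 0)) →
    ∀ v : K, ∃ g ∈ N, a g = 1 ∧ b g = v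

/-- AGA: Goursat's lemma for affine groups -/
def T_AGA : Prop := ∀ (Γ : Type) [Group Γ] (t : ℕ) (K : Fin t → Type) [∀ j, Field (K j)]
  (a b : ∀ j, Γ → K j) (L : Type) [Field L] (c d : Γ → L),
  (∀ j, AfH Γ (K j) (a j) (b j)) → AfH Γ L c d → (∀ j, Infinite (K j)) → Infinite L →
  (∀ u v : ∀ j, K j, (∀ j, u j ≠ 0) → ∃ g, ∀ j, a j g = u j ∧ b j g = v j) →
  (∀ u v : L, u ≠ 0 → ∃ g, c g = u ∧ d g = v) →
  (∃ j, ∀ g, (a j g = 1 ∧ b j g = 0) ↔ (c g = 1 ∧ d g = 0)) ∨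
    ∀ v : L, ∃ g, (∀ j, a j g = 1 ∧ b j g = 0) ∧ c g = 1 ∧ d g = v

/-! ## Torsion -/

/-- TRS: torsion in an extension of a torus by a finite group -/
def T_TRS : Prop := ∀ (A : Type) [CommGroup A] (n : ℕ) (K : Fin n → Type) [∀ i, Field (K i)]
  [∀ i, IsAlgClosed (K i)] (ψ : ∀ i, A →* (K i)ˣ),
  (∀ u : ∀ i, (K i)ˣ, ∃ a, ∀ i, ψ i a = u i) → {a | ∀ i, ψ i a = 1}.Finite →
  ∃ q0 : ℕ, ∀ q : ℕ, q.Prime → q0 < q → ∀ s : ℕ,
    (∃ F : {a : A // a ^ q = 1} → Fin (q ^ s), Function.Injective F) → n ≤ s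

/-- TRJ: torsion in the units of a ring and the Jacobson radical -/
def T_TRJ : Prop := ∀ (R : Type) [CommRing R] (s : ℕ) (m : Fin s → Ideal R),
  (∀ i, (m i).IsMaximal) → (∀ I : Ideal R, I.IsMaximal → ∃ i, I = m i) →
  ∀ q : ℕ, q.Prime → IsUnit (q : R) →
    ∃ F : {u : Rˣ // u ^ q = 1} → Fin (q ^ s), Function.Injective F

end Pool.Agent.H78.S
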