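import Pool.Agent.H78.S.Defs

/-!
# Theorem S (MP_9d0bb7_lc), page H78_S.md: targets G (general facts about ranks and groups)

The landed facts are `l_RKA U`, `l_RKB U`, ... in `Pool.Agent.H78.S.Lib`.
-/

set_option autoImplicit false

open Set Pool.Agent.H77.BC
open scoped Pointwise

namespace Pool.Agent.H78.S

/-! ## Full rank -/

/-- BGA: full rank in irreducible sets -/
def T_BGA : Prop := ∀ {M : Type} (U : RU M) {α : Type} [Cod M α] (A : Set α), Irr U A →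
  (∀ X Y : Set α, Big U A X → Big U A Y → Big U A (X ∩ Y)) ∧
  (∀ X : Set α, U.D X → Big U A X ∨ Big U A (A \ X)) ∧
  (∀ X : Set α, U.D X → X ⊆ A → (Big U A X ↔ ((A \ X).Nonempty → U.R (A \ X) < U.R A))) ∧
  ∀ X : Set α, Big U A X → ¬ Big U A (A \ X)

/-- IRP: products of irreducible sets -/
def T_IRP : Prop := ∀ {M : Type} (U : RU M) {α β : Type} [Cod M α] [Cod M β] [Ful U α]
  [Ful U β] (A : Set α) (B : Set β), Irr U A → Irr U B → Irr U (A ×ˢ B) ∧
  ∀ Z : Set (α × β), U.D Z → (Big U (A ×ˢ B) Z ↔ Big U A {a | Big U B {b | (a, b) ∈ Z}})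

/-- IRI: images of irreducible sets, fibres of constant rank -/
def T_IRI : Prop := ∀ {M : Type} (U : RU M) {α β : Type} [Cod M α] [Cod M β] [Ful U α]
  [Ful U β] (A : Set α) (f : α → β) (m : ℕ), Irr U A → DFn U f →
  (∀ b ∈ f '' A, U.R {a | a ∈ A ∧ f a = b} = m) → Irr U (f '' A) ∧
    (∀ X : Set α, Big U A X → Big U (f '' A) (f '' X)) ∧
    ∀ Y : Set β, Big U (f '' A) Y → Big U A {a | f a ∈ Y}

/-- IRG: connected groups are irreducible; translates, inverses, products of sets of full rank -/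
def T_IRG : Prop := ∀ {M : Type} (U : RU M) {Γ : Type} [Group Γ] [Cod M Γ] [DG U Γ]
  (H : Subgroup Γ), Conn U H → Irr U (H : Set Γ) ∧
  ∀ X : Set Γ, Big U (H : Set Γ) X → (∀ g ∈ H, Big U (H : Set Γ) {h | g * h ∈ X}) ∧
    (∀ g ∈ H, Big U (H : Set Γ) {h | h * g ∈ X}) ∧ Big U (H : Set Γ) {h | h⁻¹ ∈ X} ∧
    ∀ Y : Set Γ, Big U (H : Set Γ) Y → ∀ h ∈ H, ∃ a ∈ X, ∃ b ∈ Y, h = a * b

/-- FPW: finite powers of a definable irreducible type -/
def T_FPW : Prop := ∀ {M : Type} (U : RU M) {α : Type} [Cod M α] [Ful U α],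
  Irr U (univ : Set α) → ∀ k : ℕ, Irr U (univ : Set (Fin k → α)) ∧
    U.R (univ : Set (Fin k → α)) = k * U.R (univ : Set α)

/-! ## Connected components -/

/-- CCA: the connected component -/
def T_CCA : Prop := ∀ {M : Type} (U : RU M) {Γ : Type} [Group Γ] [Cod M Γ] [DG U Γ]
  (H : Subgroup Γ), U.D (H : Set Γ) → cc U H ≤ H ∧ Conn U (cc U H) ∧ (cc U H).relIndex H ≠ 0 ∧
    U.R (cc U H : Set Γ) = U.R (H : Set Γ)

/-- CCB: connected subgroups -/
def T_CCB : Prop := ∀ {M : Type} (U : RU M) {Γ : Type} [Group Γ] [Cod M Γ] [DG U Γ]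
  (H K : Subgroup Γ), U.D (H : Set Γ) → Conn U K → K ≤ H → K ≤ cc U H ∧
    (U.R (H : Set Γ) ≤ U.R (K : Set Γ) → K = cc U H)

/-- CCJ: conjugation -/
def T_CCJ : Prop := ∀ {M : Type} (U : RU M) {Γ : Type} [Group Γ] [Cod M Γ] [DG U Γ]
  (g : Γ) (H : Subgroup Γ), U.D (H : Set Γ) → cc U (cj g H) = cj g (cc U H)

/-- CFN: connected groups centralise finite sets which they normalise, and fix the points of finite
sets on which they act -/
def T_CFN : Prop := ∀ {M : Type} (U : RU M) {G S : Type} [Group G] [MulAction G S] [Cod M G]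
  [Cod M S] [DG U G] [Ful U S], DFn U (fun p : G × S => p.1 • p.2) → ∀ H : Subgroup G,
  Conn U H → (∀ F : Set S, F.Finite → (∀ h ∈ H, ∀ y ∈ F, h • y ∈ F) → ∀ h ∈ H, ∀ y ∈ F,
    h • y = y) ∧
  ∀ F : Set G, F.Finite → (∀ h ∈ H, ∀ y ∈ F, h * y * h⁻¹ ∈ F) → ∀ h ∈ H, ∀ y ∈ F,
    h * y = y * h

/-- CFI: a definable map of a connected group to a group which is a homomorphism modulo a definable
normal subgroup `L` and has finite image modulo `L` has values in `L` -/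
def T_CFI : Prop := ∀ {M : Type} (U : RU M) {Γ : Type} [Group Γ] [Cod M Γ] [DG U Γ]
  (H L A : Subgroup Γ) (τ : Γ → Γ), Conn U H → DFn U τ → U.D (L : Set Γ) → L ≤ A →
  L.relIndex A ≠ 0 → (∀ a ∈ A, ∀ l ∈ L, a * l * a⁻¹ ∈ L) → (∀ h ∈ H, τ h ∈ A) →
  (∀ g ∈ H, ∀ h ∈ H, (τ g * τ h)⁻¹ * τ (g * h) ∈ L) → ∀ h ∈ H, τ h ∈ L

/-! ## Orbits -/

/-- ORB: orbits and stabilisers -/
def T_ORB : Prop := ∀ {M : Type} (U : RU M) {G S : Type} [Group G] [MulAction G S] [Cod M G]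
  [Cod M S] [DG U G] [Ful U S], DFn U (fun p : G × S => p.1 • p.2) → ∀ (H : Subgroup G) (o : S),
  U.D (H : Set G) → U.D (Orb H o) ∧ U.D (Fx H o : Set G) ∧
    U.R (H : Set G) = U.R (Orb H o) + U.R (Fx H o : Set G) ∧
    (Conn U H → Irr U (Orb H o) ∧ ∀ Z : Set S, Big U (Orb H o) Z →
      Big U (H : Set G) {h | h • o ∈ Z})

/-- ORM: group elements preserve definability and rank -/
def T_ORM : Prop := ∀ {M : Type} (U : RU M) {G S : Type} [Group G] [MulAction G S] [Cod M G]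
  [Cod M S] [DG U G] [Ful U S], DFn U (fun p : G × S => p.1 • p.2) → ∀ (g : G) (A X : Set S),
  (U.D X → U.D (g • X)) ∧ (U.D X → X.Nonempty → U.R (g • X) = U.R X) ∧
    (U.D A → Big U A X → Big U (g • A) (g • X)) ∧
    ∀ (H : Subgroup G) (o : S), Orb (cj g⁻¹ H) (g • o) = g • Orb H o

/-- STD: stabilisers of points are definable, and so are the kernels of lines -/
def T_STD : Prop := ∀ {M : Type} (U : RU M) {G S : Type} [Group G] [MulAction G S] [Cod M G]
  [Cod M S] [DG U G] [Ful U S], DFn U (fun p : G × S => p.1 • p.2) →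
  (∀ (ι : Type) [Finite ι] (x : ι → S) (A : Set ι), U.D (St G x A : Set G)) ∧
  ∀ (T : Subgroup G) (E : Set (S × S)), U.D (T : Set G) → U.D E → U.D (kap T E : Set G)

/-- IDX: rank and intersections in a group which is a product of two subgroups -/
def T_IDX : Prop := ∀ {M : Type} (U : RU M) {Γ : Type} [Group Γ] [Cod M Γ] [DG U Γ]
  (T A B : Subgroup Γ), U.D (T : Set Γ) → U.D (A : Set Γ) → U.D (B : Set Γ) → A ≤ T → B ≤ T →
  (∀ t ∈ T, ∃ a ∈ A, ∃ b ∈ B, t = a * b) →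
    U.R (A : Set Γ) + U.R (B : Set Γ) = U.R (T : Set Γ) + U.R ((A ⊓ B : Subgroup Γ) : Set Γ)

end Pool.Agent.H78.S
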