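import Pool.Agent.H78.S.TA
import Pool.Agent.H78.S.TG
import Pool.Agent.H78.S.T2
import Pool.Agent.H78.S.T4
import Pool.Agent.H78.S.T6

/-!
# Theorem S (MP_9d0bb7_lc): all targets
-/
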